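import Pool.Agent.HLead.CB.Defs

/-!
# Finite piecewise convex bi-embeddability of countable linear orders (MP_9f2d77_lc): definitions

Plan.  For linear orders `α`, `β` write `PCt α β` if `α` is a sum of finitely many convex pieces and there is an
embedding of `α` into `β` that maps every piece onto a convex set.  We prove that for every countable `α`
the set of the (codes of) `β` with `PCt α β ∧ PCt β α` is Borel.  Hence the equivalence relation on `LO` is
not complete analytic.
-/

set_option autoImplicit false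

namespace Pool.Agent.H742.PW
open Set MeasureTheory Pool.Agent.HLead.CB

/-! ## Linear orders (types) -/

/-- `α` is isomorphic to an initial segment of `β` -/
def ILt (α β : Type) [LinearOrder α] [LinearOrder β] : Prop :=
  ∃ f : α ↪o β, ∀ a b, b ≤ f a → ∃ a', f a' = b

/-- `α` is isomorphic to a final segment of `β` -/
def FLt (α β : Type) [LinearOrder α] [LinearOrder β] : Prop :=
  ∃ f : α ↪o β, ∀ a b, f a ≤ b → ∃ a', f a' = b

/-- `α` is isomorphic to a convex subset of `β` -/
def CVt (α β : Type) [LinearOrder α] [LinearOrder β] : Prop :=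
  ∃ f : α ↪o β, (range f).OrdConnected

/-- `α` is the sum of an initial segment of `β` and a final segment of `γ` -/
def Dect (α β γ : Type) [LinearOrder α] [LinearOrder β] [LinearOrder γ] : Prop :=
  ∃ s : Set α, IsLowerSet s ∧ ILt s β ∧ FLt (sᶜ : Set α) γ

/-- `α` is the sum of an initial segment and a final segment of `β`, disjoint from each other -/
def Midt (α β : Type) [LinearOrder α] [LinearOrder β] : Prop :=
  Nonempty (α ≃o β) ∨ ∃ r : β, Dect α (Iio r) (Ioi r)

/-- the part of `α` from `a` on can be mapped piecewise (`n + 1` pieces) to the part of `β` from `b` on, `a` to `b` -/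
def GGt (α β : Type) [LinearOrder α] [LinearOrder β] : ℕ → α → β → Prop
  | 0, a, b => ILt (Ioi a) (Ioi b)
  | n + 1, a, b => ∃ a' b', a < a' ∧ b < b' ∧ Midt (Ioo a a') (Ioo b b') ∧ GGt α β n a' b'

/-- the same, with functions -/
def Qt (α β : Type) [LinearOrder α] [LinearOrder β] (n : ℕ) (a : α) (b : β) : Prop :=
  ∃ (f : α → β) (c : α → ℕ), f a = b ∧ (∀ u v, a ≤ u → a ≤ v → (f u ≤ f v ↔ u ≤ v)) ∧
    (∀ u v, a ≤ u → u ≤ v → c u ≤ c v) ∧ (∀ u, a ≤ u → c u ≤ n) ∧ (∀ k, k ≤ n → ∃ u, a ≤ u ∧ c u = k) ∧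
    ∀ u v w, a ≤ u → a ≤ v → c u = c v → f u ≤ w → w ≤ f v → ∃ t, a ≤ t ∧ c t = c u ∧ f t = w

/-- `α` is a sum of finitely many (nonempty) convex pieces, mapped onto convex pieces of `β` by an embedding -/
def PCt (α β : Type) [LinearOrder α] [LinearOrder β] : Prop :=
  ∃ (f : α ↪o β) (n : ℕ) (c : α → Fin (n + 1)), Monotone c ∧ Function.Surjective c ∧
    ∀ k, (f '' (c ⁻¹' {k})).OrdConnected

/-! ## Linear orders on subsets of a fixed countable set, and measurable families of them -/

/-- a linear order on a subset of `E` -/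
structure PO (E : Type) where
  dom : E → Prop
  le : E → E → Prop
  refl : ∀ a, dom a → le a a
  trans : ∀ a b c, dom a → dom b → dom c → le a b → le b c → le a c
  antisymm : ∀ a b, dom a → dom b → le a b → le b a → a = b
  total : ∀ a b, dom a → dom b → le a b ∨ le b a

variable {E E' : Type}

/-- the points of the order -/
def PO.T (M : PO E) : Type := {a : E // M.dom a}

noncomputable instance (M : PO E) : LinearOrder M.T where
  le a b := M.le a.1 b.1
  le_refl a := M.refl a.1 a.2
  le_trans a b c h h' := M.trans _ _ _ a.2 b.2 c.2 h h'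
  le_antisymm a b h h' := Subtype.ext (M.antisymm _ _ a.2 b.2 h h')
  le_total a b := M.total _ _ a.2 b.2
  toDecidableLE := Classical.decRel _

instance (M : PO E) [Countable E] : Countable M.T := inferInstanceAs (Countable {a : E // M.dom a})

theorem PO.le_def (M : PO E) (a b : M.T) : a ≤ b ↔ M.le a.1 b.1 := Iff.rfl

/-- restriction to a subset -/
def PO.restr (M : PO E) (s : Set E) : PO E where
  dom a := M.dom a ∧ a ∈ s
  le := M.le
  refl a h := M.refl a h.1
  trans a b c h1 h2 h3 := M.trans a b c h1.1 h2.1 h3.1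
  antisymm a b h1 h2 := M.antisymm a b h1.1 h2.1
  total a b h1 h2 := M.total a b h1.1 h2.1

/-- reversal -/
def PO.rev (M : PO E) : PO E where
  dom := M.dom
  le a b := M.le b a
  refl := M.refl
  trans a b c h1 h2 h3 h h' := M.trans c b a h3 h2 h1 h' h
  antisymm a b h1 h2 h h' := M.antisymm a b h1 h2 h' h
  total a b h1 h2 := M.total b a h2 h1

/-- the sum of two orders -/
def PO.add (M : PO E) (N : PO E') : PO (E ⊕ E') where
  dom := Sum.elim M.dom N.dom
  le x y := match x, y with
    | .inl a, .inl b => M.le a b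
    | .inl _, .inr _ => True
    | .inr _, .inl _ => False
    | .inr a, .inr b => N.le a b
  refl := by rintro (a | a) h; exacts [M.refl a h, N.refl a h]
  trans := by
    rintro (a | a) (b | b) (c | c) h1 h2 h3 h4 h5 <;> simp_all
    exacts [M.trans a b c h1 h2 h3 h4 h5, N.trans a b c h1 h2 h3 h4 h5]
  antisymm := by
    rintro (a | a) (b | b) h1 h2 h3 h4 <;> simp_all
    exacts [M.antisymm a b h1 h2 h3 h4, N.antisymm a b h1 h2 h3 h4]
  total := by
    rintro (a | a) (b | b) h1 h2 <;> simp_all
    exacts [M.total a b h1 h2, N.total a b h1 h2]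

/-- every point is replaced by a copy of `ℤ` -/
def PO.zb (M : PO E) : PO (E × ℤ) where
  dom a := M.dom a.1
  le x y := (M.le x.1 y.1 ∧ x.1 ≠ y.1) ∨ (x.1 = y.1 ∧ x.2 ≤ y.2)
  refl a h := Or.inr ⟨rfl, le_rfl⟩
  trans a b c h1 h2 h3 h4 h5 := by
    rcases h4 with ⟨h4, h4'⟩ | ⟨h4, h4'⟩ <;> rcases h5 with ⟨h5, h5'⟩ | ⟨h5, h5'⟩
    · refine Or.inl ⟨M.trans _ _ _ h1 h2 h3 h4 h5, fun he => h4' (M.antisymm _ _ h1 h2 h4 ?_)⟩
      rw [he]
      exact h5
    · exact Or.inl ⟨h5 ▸ h4, h5 ▸ h4'⟩
    · exact Or.inl ⟨h4 ▸ h5, h4 ▸ h5'⟩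
    · exact Or.inr ⟨h4.trans h5, h4'.trans h5'⟩
  antisymm a b h1 h2 h3 h4 := by
    rcases h3 with ⟨h3, h3'⟩ | ⟨h3, h3'⟩ <;> rcases h4 with ⟨h4, h4'⟩ | ⟨h4, h4'⟩
    · exact absurd (M.antisymm _ _ h1 h2 h3 h4) h3'
    · exact absurd h4.symm h3'
    · exact absurd h3.symm h4'
    · exact Prod.ext h3 (le_antisymm h3' h4')
  total a b h1 h2 := by
    by_cases h : a.1 = b.1
    · rcases le_total a.2 b.2 with h' | h'
      · exact Or.inl (Or.inr ⟨h, h'⟩)
      · exact Or.inr (Or.inr ⟨h.symm, h'⟩)
    · rcases M.total a.1 b.1 h1 h2 with h' | h'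
      · exact Or.inl (Or.inl ⟨h', h⟩)
      · exact Or.inr (Or.inl ⟨h', fun he => h he.symm⟩)

/-- a linearly ordered type -/
def PO.of (α : Type) [LinearOrder α] : PO α where
  dom _ := True
  le := (· ≤ ·)
  refl a _ := le_rfl
  trans a b c _ _ _ := le_trans
  antisymm a b _ _ := le_antisymm
  total a b _ _ := le_total a b

/-- the order coded by `x` -/
def PO.ofLO (x : LO) : PO ℕ where
  dom _ := True
  le a b := x.1 (a, b) = true
  refl a _ := x.2.refl a
  trans a b c _ _ _ := x.2.trans a b c
  antisymm a b _ _ := x.2.antisymm a b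
  total a b _ _ := x.2.total a b

/-- the closed initial segment -/
def PO.lei (M : PO E) (a : E) : PO E := M.restr {z | M.le z a}

/-- the closed final segment -/
def PO.gei (M : PO E) (a : E) : PO E := M.restr {z | M.le a z}

def Iso (M : PO E) (N : PO E') : Prop := Nonempty (M.T ≃o N.T)
def IL (M : PO E) (N : PO E') : Prop := ILt M.T N.T
def FL (M : PO E) (N : PO E') : Prop := FLt M.T N.T

/-- a measurable family of linear orders on subsets of `E` -/
def Fam {X : Type} [MeasurableSpace X] (M : X → PO E) : Prop :=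
  (∀ a, MeasurableSet {x | (M x).dom a}) ∧ ∀ a b, MeasurableSet {x | (M x).le a b}

theorem Fam.const {X : Type} [MeasurableSpace X] (M : PO E) : Fam (fun _ : X => M) :=
  ⟨fun _ => MeasurableSet.const _, fun _ _ => MeasurableSet.const _⟩

theorem Fam.restr {X : Type} [MeasurableSpace X] {M : X → PO E} (h : Fam M) {s : X → Set E}
    (hs : ∀ a, MeasurableSet {x | a ∈ s x}) : Fam (fun x => (M x).restr (s x)) :=
  ⟨fun a => (h.1 a).inter (hs a), h.2⟩

theorem Fam.lei {X : Type} [MeasurableSpace X] {M : X → PO E} (h : Fam M) (a : E) :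
    Fam (fun x => (M x).lei a) := h.restr fun b => h.2 b a

theorem Fam.gei {X : Type} [MeasurableSpace X] {M : X → PO E} (h : Fam M) (a : E) :
    Fam (fun x => (M x).gei a) := h.restr fun b => h.2 a b

theorem Fam.rev {X : Type} [MeasurableSpace X] {M : X → PO E} (h : Fam M) :
    Fam (fun x => (M x).rev) := ⟨h.1, fun a b => h.2 b a⟩

theorem Fam.add {X : Type} [MeasurableSpace X] {M : X → PO E} {N : X → PO E'} (h : Fam M)
    (h' : Fam N) : Fam (fun x => (M x).add (N x)) := by
  constructor
  · rintro (a | a)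
    exacts [h.1 a, h'.1 a]
  · rintro (a | a) (b | b)
    exacts [h.2 a b, MeasurableSet.const _, MeasurableSet.const _, h'.2 a b]

theorem Fam.zb {X : Type} [MeasurableSpace X] {M : X → PO E} (h : Fam M) :
    Fam (fun x => (M x).zb) := by
  constructor
  · intro a
    exact h.1 a.1
  · intro a b
    exact ((h.2 a.1 b.1).inter (MeasurableSet.const _)).union (MeasurableSet.const _)

/-- the points of the restriction -/
def restrIso (M : PO E) (s : Set E) : (M.restr s).T ≃o {z : M.T | z.1 ∈ s} where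
  toFun z := ⟨⟨z.1, z.2.1⟩, z.2.2⟩
  invFun z := ⟨z.1.1, z.1.2, z.2⟩
  left_inv _ := rfl
  right_inv _ := rfl
  map_rel_iff' := Iff.rfl

end Pool.Agent.H742.PW
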