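import Pool.Agent.H742.PW.Stm
import Pool.Agent.HLead.CB.Meas
import Pool.Graph.R_pool_sql_team_941085ca.H23.NonBorel

/-!
# Assembly (MP_9f2d77_lc)
-/

set_option autoImplicit false

namespace Pool.Agent.H742.PW
open Set MeasureTheory Pool.Agent.HLead.CB

/-- a point of the coded order -/
def pt (x : LO) (a : ℕ) : (PO.ofLO x).T := ⟨a, trivial⟩

theorem isoLO_iff (x y : LO) : IsoLO x y ↔ Iso (PO.ofLO x) (PO.ofLO y) := by
  constructor
  · rintro ⟨f, hf⟩
    refine ⟨⟨⟨fun a => pt y (f a.1), fun a => pt x (f.symm a.1), fun a => ?_, fun a => ?_⟩, ?_⟩⟩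
    · exact Subtype.ext (f.symm_apply_apply _)
    · exact Subtype.ext (f.apply_symm_apply _)
    · intro a b
      show y.1 (f a.1, f b.1) = true ↔ x.1 (a.1, b.1) = true
      rw [hf]
  · rintro ⟨e⟩
    refine ⟨⟨fun a => (e (pt x a)).1, fun a => (e.symm (pt y a)).1, fun a => ?_, fun a => ?_⟩, ?_⟩
    · show (e.symm (e (pt x a))).1 = a
      rw [e.symm_apply_apply]
      rfl
    · show (e (e.symm (pt y a))).1 = a
      rw [e.apply_symm_apply]
      rfl
    · intro a b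
      have h : (e (pt x a) ≤ e (pt x b)) ↔ (pt x a ≤ pt x b) := e.le_iff_le
      exact Bool.eq_iff_iff.2 h.symm

theorem t_BE (hI : S_ISO) : S_BE := by
  intro y
  have hF : Fam (fun x : LO => PO.ofLO (red x)) := by
    refine ⟨fun a => MeasurableSet.const _, fun a b => ?_⟩
    have h1 : Measurable fun x : LO => (red x).1 := measurable_val.comp measurable_red
    have h2 : Measurable fun x : LO => (red x).1 (a, b) := (measurable_pi_apply _).comp h1
    exact h2 (measurableSet_singleton true)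
  have h := hI ℕ ℕ LO (PO.ofLO (red y)) (fun x => PO.ofLO (red x)) hF
  convert h using 3 with x
  rw [red_iff, isoLO_iff]
  exact ⟨fun ⟨e⟩ => ⟨e.symm⟩, fun ⟨e⟩ => ⟨e.symm⟩⟩

theorem t_PG (h0 : S_Q0) (h1 : S_QS1) (h2 : S_QS2) (hP : S_PQ) : S_PG := by
  have key : ∀ (α β : Type) [LinearOrder α] [LinearOrder β] (n : ℕ) (a : α) (b : β),
      Qt α β n a b ↔ GGt α β n a b := by
    intro α β _ _ n
    induction n with
    | zero => exact fun a b => h0 α β a b
    | succ n ih =>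
      intro a b
      constructor
      · intro h
        obtain ⟨a', b', ha, hb, hm, hq⟩ := h1 α β n a b h
        exact ⟨a', b', ha, hb, hm, (ih a' b').1 hq⟩
      · rintro ⟨a', b', ha, hb, hm, hq⟩
        exact h2 α β n a a' b b' ha hb hm ((ih a' b').2 hq)
  intro α β _ _ _
  rw [hP]
  simp only [key]

theorem PCt.congr {α β α' β' : Type} [LinearOrder α] [LinearOrder β] [LinearOrder α'] [LinearOrder β']
    (e : α ≃o α') (e' : β ≃o β') (h : PCt α β) : PCt α' β' := by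
  obtain ⟨f, n, c, hc, hs, hk⟩ := h
  refine ⟨(e.symm.toOrderEmbedding.trans f).trans e'.toOrderEmbedding, n, c ∘ e.symm,
    hc.comp e.symm.monotone, hs.comp e.symm.surjective, fun k => ⟨?_⟩⟩
  rintro _ ⟨u, hu, rfl⟩ _ ⟨v, hv, rfl⟩ w ⟨h1, h2⟩
  have h3 : f (e.symm u) ≤ e'.symm w := by
    rw [← e'.le_iff_le, e'.apply_symm_apply]
    exact h1
  have h4 : e'.symm w ≤ f (e.symm v) := by
    rw [← e'.le_iff_le, e'.apply_symm_apply]
    exact h2
  obtain ⟨t, ht, h5⟩ := (hk k).out ⟨e.symm u, hu, rfl⟩ ⟨e.symm v, hv, rfl⟩ ⟨h3, h4⟩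
  refine ⟨e t, ?_, ?_⟩
  · show c (e.symm (e t)) = k
    rw [e.symm_apply_apply]
    exact ht
  · show e' (f (e.symm (e t))) = w
    rw [e.symm_apply_apply, h5, e'.apply_symm_apply]

/-- the two copies of the coded order -/
def tyIso (x : LO) : Ty x ≃o (PO.ofLO x).T where
  toFun a := ⟨a, trivial⟩
  invFun a := a.1
  left_inv _ := rfl
  right_inv _ := rfl
  map_rel_iff' := Iff.rfl

/-! ### The problem -/

/-- The countable linear orders: `Sum.inl n` is the order with `n + 1` elements, `Sum.inr x` is the order coded by `x`. -/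
abbrev Lin : Type := ℕ ⊕ LO

/-- the underlying set -/
def Lin.T : Lin → Type
  | .inl n => Fin (n + 1)
  | .inr x => Ty x

noncomputable instance (K : Lin) : LinearOrder K.T :=
  match K with
  | .inl n => inferInstanceAs (LinearOrder (Fin (n + 1)))
  | .inr x => inferInstanceAs (LinearOrder (Ty x))

/-- `x` is a sum of convex pieces, ordered as some `K` in `𝓛`, and there is an embedding of `x` into `y` that maps every
piece onto a convex set. -/
def LEmb (𝓛 : Set Lin) (x y : LO) : Prop :=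
  ∃ K ∈ 𝓛, ∃ (c : Ty x → K.T) (f : Ty x ↪o Ty y), Monotone c ∧ Function.Surjective c ∧
    ∀ k, (f '' (c ⁻¹' {k})).OrdConnected

/-- the induced equivalence relation -/
def LBi (𝓛 : Set Lin) (x y : LO) : Prop := LEmb 𝓛 x y ∧ LEmb 𝓛 y x

/-- the class of the finite orders -/
def FinOrd : Set Lin := range Sum.inl

theorem lemb_iff (x y : LO) : LEmb FinOrd x y ↔ PCt (PO.ofLO x).T (PO.ofLO y).T := by
  have h : LEmb FinOrd x y ↔ PCt (Ty x) (Ty y) := by
    constructor
    · rintro ⟨_, ⟨n, rfl⟩, c, f, h1, h2, h3⟩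
      exact ⟨f, n, c, h1, h2, h3⟩
    · rintro ⟨f, n, c, h1, h2, h3⟩
      exact ⟨.inl n, ⟨n, rfl⟩, c, f, h1, h2, h3⟩
  rw [h]
  exact ⟨fun h => h.congr (tyIso x) (tyIso y), fun h => h.congr (tyIso x).symm (tyIso y).symm⟩

/-- An analytic equivalence relation on a Polish space is Borel reducible to `E`. -/
def Complete (E : LO → LO → Prop) : Prop :=
  ∀ (Y : Type) [TopologicalSpace Y] [PolishSpace Y] [MeasurableSpace Y] [BorelSpace Y] (F : Y → Y → Prop),
    Equivalence F → AnalyticSet {p : Y × Y | F p.1 p.2} →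
    ∃ g : Y → LO, Measurable g ∧ ∀ a b, F a b ↔ E (g a) (g b)

theorem final (hTR : S_TR) (h1 : S_MEA1) (h2 : S_MEA2) :
    (MeasurableSet FinOrd ∧ FinOrd.Nonempty ∧
      (∀ K ∈ FinOrd, ∀ K' : Lin, Nonempty (K'.T ↪o K.T) → K' ∈ FinOrd) ∧
      (∀ K ∈ FinOrd, IsEmpty (ℚ ↪o K.T)) ∧ (∃ K ∈ FinOrd, Nontrivial K.T) ∧
      ∀ x y z, LEmb FinOrd x y → LEmb FinOrd y z → LEmb FinOrd x z) ∧
    (∀ y, MeasurableSet {x | LBi FinOrd x y}) ∧ ¬ Complete (LBi FinOrd) := by
  have hm : ∀ y, MeasurableSet {x | LBi FinOrd x y} := by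
    intro y
    have h3 : {x | LBi FinOrd x y} = {x | PCt (PO.ofLO x).T (PO.ofLO y).T} ∩
        {x | PCt (PO.ofLO y).T (PO.ofLO x).T} := by
      ext x
      simp only [LBi, lemb_iff, Set.mem_ofPred_eq, mem_inter_iff]
    rw [h3]
    exact (h1 y).inter (h2 y)
  refine ⟨⟨?_, ?_, ?_, ?_, ?_, ?_⟩, hm, ?_⟩
  · exact measurableSet_range_inl
  · exact ⟨_, 0, rfl⟩
  · rintro _ ⟨n, rfl⟩ (m | x) ⟨f⟩
    · exact ⟨m, rfl⟩
    · exfalso
      haveI h5 : Finite (Lin.T (Sum.inl n)) := inferInstanceAs (Finite (Fin (n + 1)))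
      haveI h6 : Infinite (Lin.T (Sum.inr x)) := inferInstanceAs (Infinite ℕ)
      exact not_injective_infinite_finite _ f.injective
  · rintro _ ⟨n, rfl⟩
    refine ⟨fun f => ?_⟩
    haveI h5 : Finite (Lin.T (Sum.inl n)) := inferInstanceAs (Finite (Fin (n + 1)))
    exact not_injective_infinite_finite _ f.injective
  · exact ⟨_, ⟨1, rfl⟩, inferInstanceAs (Nontrivial (Fin 2))⟩
  · intro x y z h3 h4
    rw [lemb_iff] at *
    have h5 : Nonempty (PO.ofLO x).T := ⟨pt x 0⟩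
    exact hTR _ _ _ h3 h4
  · intro hC
    obtain ⟨g, hg, h3⟩ := hC (ℕ → ℕ) _ Pool.Agent.H23.NonBorel.equiv_F Pool.Agent.H23.NonBorel.analytic_F
    refine Pool.Agent.H23.NonBorel.no_reduction (LBi FinOrd) (fun a => ?_) g hg h3
    have h4 : {b | LBi FinOrd a b} = {b | LBi FinOrd b a} := by
      ext b
      exact ⟨fun h => ⟨h.2, h.1⟩, fun h => ⟨h.2, h.1⟩⟩
    rw [h4]
    exact hm a

end Pool.Agent.H742.PW
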