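import Pool.Agent.H742.PW.Stm

/-!
# Project PW, task A1
-/

set_option autoImplicit false

namespace Pool.Agent.H742.PW.A1
open Set

theorem iso_of {α β : Type} [LinearOrder α] [LinearOrder β] (φ : α → β)
    (h : ∀ u v, φ u ≤ φ v ↔ u ≤ v) (hs : Function.Surjective φ) : Nonempty (α ≃o β) :=
  ⟨RelIso.ofSurjective (OrderEmbedding.ofMapLEIff φ h) hs⟩

/-- an embedding of a lower set onto a lower set -/
theorem low {α β : Type} [LinearOrder α] [LinearOrder β] {s : Set α} (hs : IsLowerSet s)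
    (f : s ↪o β) (hf : ∀ a b, b ≤ f a → ∃ a', f a' = b) {x : α} (hx : x ∈ s) :
    Nonempty (Iic x ≃o Iic (f ⟨x, hx⟩)) := by
  refine iso_of (fun z => ⟨f ⟨z.1, hs z.2 hx⟩, ?_⟩) ?_ ?_
  · exact f.le_iff_le.2 z.2
  · intro u v
    exact f.le_iff_le
  · rintro ⟨b, hb⟩
    obtain ⟨a, rfl⟩ := hf _ b hb
    exact ⟨⟨a.1, f.le_iff_le.1 hb⟩, rfl⟩

/-- an embedding of an upper set onto an upper set -/
theorem upp {α β : Type} [LinearOrder α] [LinearOrder β] {s : Set α} (hs : IsUpperSet s)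
    (f : s ↪o β) (hf : ∀ a b, f a ≤ b → ∃ a', f a' = b) {x : α} (hx : x ∈ s) :
    Nonempty (Ici x ≃o Ici (f ⟨x, hx⟩)) := by
  refine iso_of (fun z => ⟨f ⟨z.1, hs z.2 hx⟩, ?_⟩) ?_ ?_
  · exact f.le_iff_le.2 z.2
  · intro u v
    exact f.le_iff_le
  · rintro ⟨b, hb⟩
    obtain ⟨a, rfl⟩ := hf _ b hb
    exact ⟨⟨a.1, f.le_iff_le.1 hb⟩, rfl⟩

theorem sub_iic {α β : Type} [LinearOrder α] [LinearOrder β] {x y : α} {b : β}
    (φ : Iic x ≃o Iic b) (hy : y ≤ x) : ∃ b' : β, Nonempty (Iic y ≃o Iic b') := by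
  refine ⟨(φ ⟨y, hy⟩).1, iso_of (fun z => ⟨(φ ⟨z.1, z.2.trans hy⟩).1, ?_⟩) ?_ ?_⟩
  · exact φ.le_iff_le.2 z.2
  · intro u v
    exact φ.le_iff_le
  · rintro ⟨c, hc⟩
    have hcb : c ≤ b := le_trans hc (φ ⟨y, hy⟩).2
    have h1 : φ.symm ⟨c, hcb⟩ ≤ ⟨y, hy⟩ := by
      rw [OrderIso.symm_apply_le]
      exact hc
    refine ⟨⟨(φ.symm ⟨c, hcb⟩).1, h1⟩, ?_⟩
    apply Subtype.ext
    show (φ (φ.symm ⟨c, hcb⟩)).1 = c
    rw [OrderIso.apply_symm_apply]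

end Pool.Agent.H742.PW.A1

namespace Pool.Agent.H742.PW
open Set

theorem t_A1 : S_A1 := by
  intro α β γ _ _ _
  constructor
  · rintro ⟨s, hs, ⟨f, hf⟩, ⟨g, hg⟩⟩
    have hA : ∀ x ∈ s, ∃ b : β, Nonempty (Iic x ≃o Iic b) := fun x hx => ⟨_, A1.low hs f hf hx⟩
    have hB : ∀ x ∉ s, ∃ b : γ, Nonempty (Ici x ≃o Ici b) := fun x hx =>
      ⟨_, A1.upp hs.compl g hg hx⟩
    refine ⟨fun x => ?_, ?_⟩
    · by_cases hx : x ∈ s
      · exact Or.inl (hA x hx)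
      · exact Or.inr (hB x hx)
    · by_cases h : ∃ x : α, (∃ b : β, Nonempty (Iic x ≃o Iic b)) ∧ ∃ b : γ, Nonempty (Ici x ≃o Ici b)
      · exact Or.inl h
      · right
        have e1 : {x : α | ∃ b : β, Nonempty (Iic x ≃o Iic b)} = s := by
          ext x
          refine ⟨fun hx => ?_, hA x⟩
          by_contra hn
          exact h ⟨x, hx, hB x hn⟩
        have e2 : {x : α | ∃ b : γ, Nonempty (Ici x ≃o Ici b)} = sᶜ := by
          ext x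
          refine ⟨fun hx hn => h ⟨x, hA x hn, hx⟩, hB x⟩
        rw [e1, e2]
        exact ⟨⟨f, hf⟩, ⟨g, hg⟩⟩
  · rintro ⟨hU, h⟩
    by_cases h0 : ∃ x : α, (∃ b : β, Nonempty (Iic x ≃o Iic b)) ∧ ∃ b : γ, Nonempty (Ici x ≃o Ici b)
    · obtain ⟨x, ⟨b, ⟨φ⟩⟩, ⟨b', ⟨ψ⟩⟩⟩ := h0
      refine ⟨Iic x, isLowerSet_Iic x, ⟨⟨⟨fun z => (φ z).1, ?_⟩, ?_⟩, ?_⟩,
        ⟨⟨⟨fun z => (ψ ⟨z.1, (not_le.1 z.2).le⟩).1, ?_⟩, ?_⟩, ?_⟩⟩
      · intro u v huv
        exact φ.injective (Subtype.ext huv)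
      · intro u v
        exact φ.le_iff_le
      · intro a c hc
        have hcb : c ≤ b := le_trans hc (φ a).2
        refine ⟨φ.symm ⟨c, hcb⟩, ?_⟩
        show (φ (φ.symm ⟨c, hcb⟩)).1 = c
        rw [OrderIso.apply_symm_apply]
      · intro u v huv
        have h3 := ψ.injective (Subtype.ext huv)
        have h4 := congrArg (fun z : Ici x => z.1) h3
        exact Subtype.ext h4
      · intro u v
        exact ψ.le_iff_le
      · intro a c hc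
        have hcb : b' ≤ c := le_trans (ψ ⟨a.1, (not_le.1 a.2).le⟩).2 hc
        have h1 : (⟨a.1, (not_le.1 a.2).le⟩ : Ici x) ≤ ψ.symm ⟨c, hcb⟩ := by
          rw [OrderIso.le_symm_apply]
          exact hc
        have h2 : x < (ψ.symm ⟨c, hcb⟩).1 := lt_of_lt_of_le (not_le.1 a.2) h1
        refine ⟨⟨(ψ.symm ⟨c, hcb⟩).1, not_le.2 h2⟩, ?_⟩
        show (ψ (ψ.symm ⟨c, hcb⟩)).1 = c
        rw [OrderIso.apply_symm_apply]
    · obtain ⟨h1, h2⟩ := h.resolve_left h0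
      refine ⟨{x : α | ∃ b : β, Nonempty (Iic x ≃o Iic b)}, ?_, h1, ?_⟩
      · rintro x y hyx ⟨b, ⟨φ⟩⟩
        exact A1.sub_iic φ hyx
      · have e : {x : α | ∃ b : β, Nonempty (Iic x ≃o Iic b)}ᶜ =
            {x : α | ∃ b : γ, Nonempty (Ici x ≃o Ici b)} := by
          ext x
          refine ⟨fun hx => (hU x).resolve_left hx, fun hx hn => h0 ⟨x, hn, hx⟩⟩
        rw [e]
        exact h2

end Pool.Agent.H742.PW
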