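import Pool.Agent.H742.PW.Stm

/-! TASK B1 (helper981, for helper742) -/

set_option autoImplicit false

namespace Pool.Agent.H742.PW
open Set

namespace B1

theorem iso_of {α β : Type} [LinearOrder α] [LinearOrder β] (f : α ↪o β) (S : Set β)
    (h : range f = S) : Nonempty (α ≃o S) :=
  ⟨f.orderIso.trans (OrderIso.setCongr _ _ h)⟩

/-! ### initial segments -/

theorem restrictI {α β : Type} [LinearOrder α] [LinearOrder β] (f : α ↪o β)
    (hf : ∀ a b, b ≤ f a → ∃ a', f a' = b) (a : α) : Nonempty (Iic a ≃o Iic (f a)) := by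
  refine iso_of ((OrderEmbedding.subtype (fun x => x ∈ Iic a)).trans f) _ ?_
  ext b
  constructor
  · rintro ⟨x, rfl⟩
    exact f.le_iff_le.2 x.2
  · intro hb
    obtain ⟨a', rfl⟩ := hf a b hb
    exact ⟨⟨a', f.le_iff_le.1 hb⟩, rfl⟩

theorem lowerI {α β : Type} [LinearOrder α] [LinearOrder β] {a : α} {b : β} (e : Iic a ≃o Iic b)
    {b' : β} (hb : b' ≤ b) : ∃ a' : α, Nonempty (Iic a' ≃o Iic b') := by
  have hle : ∀ x : Iic ((e.symm ⟨b', hb⟩ : Iic a) : α), (x : α) ≤ a :=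
    fun x => le_trans x.2 (e.symm ⟨b', hb⟩).2
  let h : Iic ((e.symm ⟨b', hb⟩ : Iic a) : α) ↪o β :=
    OrderEmbedding.ofMapLEIff (fun x => ((e ⟨x, hle x⟩ : Iic b) : β)) (by
      intro x y
      rw [Subtype.coe_le_coe, e.le_iff_le]
      exact Iff.rfl)
  refine ⟨(e.symm ⟨b', hb⟩ : Iic a), iso_of h _ ?_⟩
  ext c
  constructor
  · rintro ⟨x, rfl⟩
    have h1 : (⟨x, hle x⟩ : Iic a) ≤ e.symm ⟨b', hb⟩ := x.2
    have h2 : e ⟨x, hle x⟩ ≤ ⟨b', hb⟩ := by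
      rw [← e.le_symm_apply]; exact h1
    exact h2
  · intro hc
    have hcb : c ≤ b := le_trans hc hb
    have h1 : e.symm ⟨c, hcb⟩ ≤ e.symm ⟨b', hb⟩ := e.symm.le_iff_le.2 hc
    refine ⟨⟨(e.symm ⟨c, hcb⟩ : Iic a), h1⟩, ?_⟩
    show ((e ⟨(e.symm ⟨c, hcb⟩ : Iic a), _⟩ : Iic b) : β) = c
    have h2 : (⟨((e.symm ⟨c, hcb⟩ : Iic a) : α), (e.symm ⟨c, hcb⟩).2⟩ : Iic a) = e.symm ⟨c, hcb⟩ := rfl
    have h3 : e (⟨((e.symm ⟨c, hcb⟩ : Iic a) : α), (e.symm ⟨c, hcb⟩).2⟩ : Iic a) = ⟨c, hcb⟩ := by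
      rw [h2, e.apply_symm_apply]
    exact congrArg Subtype.val h3

theorem ILt_iso {α β γ : Type} [LinearOrder α] [LinearOrder β] [LinearOrder γ] (h : ILt α β)
    (e : β ≃o γ) : ILt α γ := by
  obtain ⟨f, hf⟩ := h
  refine ⟨f.trans e.toOrderEmbedding, fun a c hc => ?_⟩
  have h1 : e.symm c ≤ f a := by rw [e.symm_apply_le]; exact hc
  obtain ⟨a', ha'⟩ := hf a _ h1
  refine ⟨a', ?_⟩
  show e (f a') = c
  rw [ha', e.apply_symm_apply]

theorem ILt_val {α β : Type} [LinearOrder α] [LinearOrder β] (S : Set β)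
    (hS : ∀ b ∈ S, ∀ b', b' ≤ b → b' ∈ S) (h : ILt α S) : ILt α β := by
  obtain ⟨f, hf⟩ := h
  refine ⟨f.trans (OrderEmbedding.subtype (fun x => x ∈ S)), fun a b hb => ?_⟩
  have hb' : b ≤ (f a : β) := hb
  obtain ⟨a', ha'⟩ := hf a ⟨b, hS _ (f a).2 b hb'⟩ hb'
  refine ⟨a', ?_⟩
  show ((f a' : S) : β) = b
  rw [ha']

theorem ILt_of_iso {α β : Type} [LinearOrder α] [LinearOrder β] (e : α ≃o β) : ILt α β :=
  ⟨e.toOrderEmbedding, fun _ b _ => ⟨e.symm b, e.apply_symm_apply b⟩⟩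

/-! ### final segments -/

theorem restrictF {α β : Type} [LinearOrder α] [LinearOrder β] (f : α ↪o β)
    (hf : ∀ a b, f a ≤ b → ∃ a', f a' = b) (a : α) : Nonempty (Ici a ≃o Ici (f a)) := by
  refine iso_of ((OrderEmbedding.subtype (fun x => x ∈ Ici a)).trans f) _ ?_
  ext b
  constructor
  · rintro ⟨x, rfl⟩
    exact f.le_iff_le.2 x.2
  · intro hb
    obtain ⟨a', rfl⟩ := hf a b hb
    exact ⟨⟨a', f.le_iff_le.1 hb⟩, rfl⟩

theorem upperF {α β : Type} [LinearOrder α] [LinearOrder β] {a : α} {b : β} (e : Ici a ≃o Ici b)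
    {b' : β} (hb : b ≤ b') : ∃ a' : α, Nonempty (Ici a' ≃o Ici b') := by
  have hle : ∀ x : Ici ((e.symm ⟨b', hb⟩ : Ici a) : α), a ≤ (x : α) :=
    fun x => le_trans (e.symm ⟨b', hb⟩).2 x.2
  let h : Ici ((e.symm ⟨b', hb⟩ : Ici a) : α) ↪o β :=
    OrderEmbedding.ofMapLEIff (fun x => ((e ⟨x, hle x⟩ : Ici b) : β)) (by
      intro x y
      rw [Subtype.coe_le_coe, e.le_iff_le]
      exact Iff.rfl)
  refine ⟨(e.symm ⟨b', hb⟩ : Ici a), iso_of h _ ?_⟩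
  ext c
  constructor
  · rintro ⟨x, rfl⟩
    have h1 : e.symm ⟨b', hb⟩ ≤ (⟨x, hle x⟩ : Ici a) := x.2
    have h2 : ⟨b', hb⟩ ≤ e ⟨x, hle x⟩ := by
      rw [← e.symm_apply_le]; exact h1
    exact h2
  · intro hc
    have hcb : b ≤ c := le_trans hb hc
    have h1 : e.symm ⟨b', hb⟩ ≤ e.symm ⟨c, hcb⟩ := e.symm.le_iff_le.2 hc
    refine ⟨⟨(e.symm ⟨c, hcb⟩ : Ici a), h1⟩, ?_⟩
    show ((e ⟨(e.symm ⟨c, hcb⟩ : Ici a), _⟩ : Ici b) : β) = c
    have h2 : (⟨((e.symm ⟨c, hcb⟩ : Ici a) : α), (e.symm ⟨c, hcb⟩).2⟩ : Ici a) = e.symm ⟨c, hcb⟩ := rfl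
    have h3 : e (⟨((e.symm ⟨c, hcb⟩ : Ici a) : α), (e.symm ⟨c, hcb⟩).2⟩ : Ici a) = ⟨c, hcb⟩ := by
      rw [h2, e.apply_symm_apply]
    exact congrArg Subtype.val h3

theorem FLt_iso {α β γ : Type} [LinearOrder α] [LinearOrder β] [LinearOrder γ] (h : FLt α β)
    (e : β ≃o γ) : FLt α γ := by
  obtain ⟨f, hf⟩ := h
  refine ⟨f.trans e.toOrderEmbedding, fun a c hc => ?_⟩
  have h1 : f a ≤ e.symm c := by rw [e.le_symm_apply]; exact hc
  obtain ⟨a', ha'⟩ := hf a _ h1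
  refine ⟨a', ?_⟩
  show e (f a') = c
  rw [ha', e.apply_symm_apply]

theorem FLt_val {α β : Type} [LinearOrder α] [LinearOrder β] (S : Set β)
    (hS : ∀ b ∈ S, ∀ b', b ≤ b' → b' ∈ S) (h : FLt α S) : FLt α β := by
  obtain ⟨f, hf⟩ := h
  refine ⟨f.trans (OrderEmbedding.subtype (fun x => x ∈ S)), fun a b hb => ?_⟩
  have hb' : (f a : β) ≤ b := hb
  obtain ⟨a', ha'⟩ := hf a ⟨b, hS _ (f a).2 b hb'⟩ hb'
  refine ⟨a', ?_⟩
  show ((f a' : S) : β) = b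
  rw [ha']

theorem FLt_of_iso {α β : Type} [LinearOrder α] [LinearOrder β] (e : α ≃o β) : FLt α β :=
  ⟨e.toOrderEmbedding, fun _ b _ => ⟨e.symm b, e.apply_symm_apply b⟩⟩

end B1

open B1 in
theorem t_B1 : S_B1 := by
  intro α β _ _
  constructor
  · rintro ⟨f, hf⟩
    by_cases hU : ∀ b : β, (∃ a : α, Nonempty (Iic a ≃o Iic b)) → b ∈ range f
    · left
      refine iso_of f _ ?_
      ext b
      constructor
      · rintro ⟨a, rfl⟩
        exact ⟨a, restrictI f hf a⟩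
      · intro hb
        exact hU b hb
    · right
      push Not at hU
      obtain ⟨b, ⟨a, ⟨e⟩⟩, hb⟩ := hU
      refine ⟨b, a, ⟨e⟩, ?_⟩
      have hlt : ∀ x, f x ≤ b := by
        intro x
        rcases le_total (f x) b with h | h
        · exact h
        · exact absurd (hf x b h) hb
      have h1 : ILt α (Iic b) := by
        refine ⟨OrderEmbedding.ofMapLEIff (fun x => (⟨f x, hlt x⟩ : Iic b)) (by
          intro x y
          rw [← Subtype.coe_le_coe]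
          exact f.le_iff_le), fun x y hy => ?_⟩
        obtain ⟨x', hx'⟩ := hf x y.1 hy
        exact ⟨x', Subtype.ext hx'⟩
      exact ILt_iso h1 e.symm
  · rintro (⟨⟨e⟩⟩ | ⟨b, a, ⟨e⟩, h⟩)
    · refine ILt_val _ ?_ (ILt_of_iso e)
      rintro b ⟨a, ⟨e'⟩⟩ b' hb'
      exact lowerI e' hb'
    · exact ILt_val (Iic b) (fun x hx y hy => le_trans hy hx) (ILt_iso h e)

open B1 in
theorem t_B1d : ∀ (a b : Type) [LinearOrder a] [LinearOrder b],
    FLt a b ↔ (Nonempty (a ≃o {y : b | ∃ x : a, Nonempty (Ici x ≃o Ici y)}) ∨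
      ∃ (y : b) (x : a), Nonempty (Ici x ≃o Ici y) ∧ FLt a (Ici x)) := by
  intro α β _ _
  constructor
  · rintro ⟨f, hf⟩
    by_cases hU : ∀ b : β, (∃ a : α, Nonempty (Ici a ≃o Ici b)) → b ∈ range f
    · left
      refine iso_of f _ ?_
      ext b
      constructor
      · rintro ⟨a, rfl⟩
        exact ⟨a, restrictF f hf a⟩
      · intro hb
        exact hU b hb
    · right
      push Not at hU
      obtain ⟨b, ⟨a, ⟨e⟩⟩, hb⟩ := hU
      refine ⟨b, a, ⟨e⟩, ?_⟩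
      have hlt : ∀ x, b ≤ f x := by
        intro x
        rcases le_total b (f x) with h | h
        · exact h
        · exact absurd (hf x b h) hb
      have h1 : FLt α (Ici b) := by
        refine ⟨OrderEmbedding.ofMapLEIff (fun x => (⟨f x, hlt x⟩ : Ici b)) (by
          intro x y
          rw [← Subtype.coe_le_coe]
          exact f.le_iff_le), fun x y hy => ?_⟩
        obtain ⟨x', hx'⟩ := hf x y.1 hy
        exact ⟨x', Subtype.ext hx'⟩
      exact FLt_iso h1 e.symm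
  · rintro (⟨⟨e⟩⟩ | ⟨b, a, ⟨e⟩, h⟩)
    · refine FLt_val _ ?_ (FLt_of_iso e)
      rintro b ⟨a, ⟨e'⟩⟩ b' hb'
      exact upperF e' hb'
    · exact FLt_val (Ici b) (fun x hx y hy => le_trans hx hy) (FLt_iso h e)

end Pool.Agent.H742.PW
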