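import Pool.Agent.H742.PW.Stm

/-!
# Task B2 (MP_9f2d77_lc): sum of an initial and a final segment, criterion 2
-/

set_option autoImplicit false

namespace Pool.Agent.H742.PW
namespace B2
open Set

variable {α β γ δ : Type} [LinearOrder α] [LinearOrder β] [LinearOrder γ] [LinearOrder δ]

theorem ILt_congr (h : ILt α β) (e : α ≃o γ) (e' : β ≃o δ) : ILt γ δ := by
  obtain ⟨f, hf⟩ := h
  refine ⟨(e.symm.toOrderEmbedding.trans f).trans e'.toOrderEmbedding, ?_⟩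
  intro a b hb
  have hb' : e'.symm b ≤ f (e.symm a) := by
    have : b ≤ e' (f (e.symm a)) := hb
    rw [← e'.le_iff_le]
    simpa using this
  obtain ⟨a', ha'⟩ := hf _ _ hb'
  refine ⟨e a', ?_⟩
  show e' (f (e.symm (e a'))) = b
  rw [e.symm_apply_apply, ha', e'.apply_symm_apply]

theorem FLt_congr (h : FLt α β) (e : α ≃o γ) (e' : β ≃o δ) : FLt γ δ := by
  obtain ⟨f, hf⟩ := h
  refine ⟨(e.symm.toOrderEmbedding.trans f).trans e'.toOrderEmbedding, ?_⟩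
  intro a b hb
  have hb' : f (e.symm a) ≤ e'.symm b := by
    have : e' (f (e.symm a)) ≤ b := hb
    rw [← e'.le_iff_le]
    simpa using this
  obtain ⟨a', ha'⟩ := hf _ _ hb'
  refine ⟨e a', ?_⟩
  show e' (f (e.symm (e a'))) = b
  rw [e.symm_apply_apply, ha', e'.apply_symm_apply]

theorem ILt_trans (h : ILt α β) (h' : ILt β γ) : ILt α γ := by
  obtain ⟨f, hf⟩ := h
  obtain ⟨g, hg⟩ := h'
  refine ⟨f.trans g, ?_⟩
  intro a c hc
  obtain ⟨b, hb⟩ := hg (f a) c hc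
  have : b ≤ f a := by
    rw [← g.le_iff_le, hb]
    exact hc
  obtain ⟨a', ha'⟩ := hf a b this
  exact ⟨a', by show g (f a') = c; rw [ha', hb]⟩

theorem FLt_trans (h : FLt α β) (h' : FLt β γ) : FLt α γ := by
  obtain ⟨f, hf⟩ := h
  obtain ⟨g, hg⟩ := h'
  refine ⟨f.trans g, ?_⟩
  intro a c hc
  obtain ⟨b, hb⟩ := hg (f a) c hc
  have : f a ≤ b := by
    rw [← g.le_iff_le, hb]
    exact hc
  obtain ⟨a', ha'⟩ := hf a b this
  exact ⟨a', by show g (f a') = c; rw [ha', hb]⟩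

theorem ILt_lower {U : Set β} (h : IsLowerSet U) : ILt U β :=
  ⟨OrderEmbedding.subtype _, fun a b hb => ⟨⟨b, h hb a.2⟩, rfl⟩⟩

theorem FLt_upper {U : Set β} (h : IsUpperSet U) : FLt U β :=
  ⟨OrderEmbedding.subtype _, fun a b hb => ⟨⟨b, h hb a.2⟩, rfl⟩⟩

theorem iic_restrict {x x' : α} {b : β} (e : Iic x ≃o Iic b) (h : x' ≤ x) :
    Nonempty (Iic x' ≃o Iic (e ⟨x', h⟩).1) := by
  have key : ∀ z : Iic x', (e ⟨z.1, le_trans z.2 h⟩).1 ∈ Iic (e ⟨x', h⟩).1 := by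
    intro z
    have : e ⟨z.1, le_trans z.2 h⟩ ≤ e ⟨x', h⟩ := e.monotone z.2
    exact this
  refine ⟨StrictMono.orderIsoOfSurjective (fun z => ⟨(e ⟨z.1, le_trans z.2 h⟩).1, key z⟩) ?_ ?_⟩
  · intro y z hyz
    have : e ⟨y.1, le_trans y.2 h⟩ < e ⟨z.1, le_trans z.2 h⟩ := e.strictMono hyz
    exact this
  · rintro ⟨w, hw⟩
    have hwb : w ≤ b := le_trans hw (e ⟨x', h⟩).2
    have h1 : (e.symm ⟨w, hwb⟩) ≤ ⟨x', h⟩ := by
      rw [← e.le_iff_le, e.apply_symm_apply]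
      exact hw
    refine ⟨⟨(e.symm ⟨w, hwb⟩).1, h1⟩, ?_⟩
    apply Subtype.ext
    show (e ⟨(e.symm ⟨w, hwb⟩).1, _⟩).1 = w
    have : e (e.symm ⟨w, hwb⟩) = ⟨w, hwb⟩ := e.apply_symm_apply _
    exact congrArg Subtype.val this

theorem ici_restrict {x x' : α} {b : β} (e : Ici x ≃o Ici b) (h : x ≤ x') :
    Nonempty (Ici x' ≃o Ici (e ⟨x', h⟩).1) := by
  have key : ∀ z : Ici x', (e ⟨z.1, le_trans h z.2⟩).1 ∈ Ici (e ⟨x', h⟩).1 := by
    intro z
    have : e ⟨x', h⟩ ≤ e ⟨z.1, le_trans h z.2⟩ := e.monotone z.2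
    exact this
  refine ⟨StrictMono.orderIsoOfSurjective (fun z => ⟨(e ⟨z.1, le_trans h z.2⟩).1, key z⟩) ?_ ?_⟩
  · intro y z hyz
    have : e ⟨y.1, le_trans h y.2⟩ < e ⟨z.1, le_trans h z.2⟩ := e.strictMono hyz
    exact this
  · rintro ⟨w, hw⟩
    have hwb : b ≤ w := le_trans (e ⟨x', h⟩).2 hw
    have h1 : ⟨x', h⟩ ≤ (e.symm ⟨w, hwb⟩) := by
      rw [← e.le_iff_le, e.apply_symm_apply]
      exact hw
    refine ⟨⟨(e.symm ⟨w, hwb⟩).1, h1⟩, ?_⟩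
    apply Subtype.ext
    show (e ⟨(e.symm ⟨w, hwb⟩).1, _⟩).1 = w
    have : e (e.symm ⟨w, hwb⟩) = ⟨w, hwb⟩ := e.apply_symm_apply _
    exact congrArg Subtype.val this

/-- in a lower set, the closed initial segments are those of the whole order -/
theorem iic_lower {A : Set α} (hA : IsLowerSet A) (a : A) : Nonempty (Iic a ≃o Iic (a : α)) := by
  refine ⟨StrictMono.orderIsoOfSurjective (fun z => ⟨z.1.1, z.2⟩) ?_ ?_⟩
  · intro y z hyz
    exact hyz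
  · rintro ⟨w, hw⟩
    exact ⟨⟨⟨w, hA hw a.2⟩, hw⟩, rfl⟩

theorem ici_upper {A : Set α} (hA : IsUpperSet A) (a : A) : Nonempty (Ici a ≃o Ici (a : α)) := by
  refine ⟨StrictMono.orderIsoOfSurjective (fun z => ⟨z.1.1, z.2⟩) ?_ ?_⟩
  · intro y z hyz
    exact hyz
  · rintro ⟨w, hw⟩
    exact ⟨⟨⟨w, hA hw a.2⟩, hw⟩, rfl⟩

theorem dect_of_sum {X Y : Type} [LinearOrder X] [LinearOrder Y] (e : (X ⊕ₗ Y) ≃o α) (h1 : ILt X β)
    (h2 : FLt Y γ) : Dect α β γ := by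
  let s : Set α := {x | ∃ a : X, e (toLex (Sum.inl a)) = x}
  have hs : IsLowerSet s := by
    rintro x y hyx ⟨a, rfl⟩
    have h : e.symm y ≤ toLex (Sum.inl a) := by
      rw [← e.le_iff_le, e.apply_symm_apply]
      exact hyx
    rcases hy : ofLex (e.symm y) with c | c
    · refine ⟨c, ?_⟩
      have : e.symm y = toLex (Sum.inl c) := by
        rw [← hy]; rfl
      rw [← this, e.apply_symm_apply]
    · exfalso
      have : e.symm y = toLex (Sum.inr c) := by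
        rw [← hy]; rfl
      rw [this] at h
      exact absurd h (not_le_of_gt (Sum.Lex.inl_lt_inr a c))
  have hc : ∀ y : Y, e (toLex (Sum.inr y)) ∈ sᶜ := by
    rintro y ⟨a, ha⟩
    have := e.injective ha
    have h' : (Sum.inl a : X ⊕ Y) = Sum.inr y := toLex.injective this
    cases h'
  refine ⟨s, hs, ?_, ?_⟩
  · refine ILt_congr h1 (StrictMono.orderIsoOfSurjective (fun a => ⟨e (toLex (Sum.inl a)), a, rfl⟩) ?_ ?_)
      (OrderIso.refl _)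
    · intro y z hyz
      have : e (toLex (Sum.inl y)) < e (toLex (Sum.inl z)) := e.strictMono (Sum.Lex.inl_strictMono hyz)
      exact this
    · rintro ⟨w, a, rfl⟩
      exact ⟨a, rfl⟩
  · refine FLt_congr h2 (StrictMono.orderIsoOfSurjective (fun a => ⟨e (toLex (Sum.inr a)), hc a⟩) ?_ ?_)
      (OrderIso.refl _)
    · intro y z hyz
      have : e (toLex (Sum.inr y)) < e (toLex (Sum.inr z)) := e.strictMono (Sum.Lex.inr_strictMono hyz)
      exact this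
    · rintro ⟨w, hw⟩
      rcases hy : ofLex (e.symm w) with c | c
      · exfalso
        apply hw
        refine ⟨c, ?_⟩
        have : e.symm w = toLex (Sum.inl c) := by
          rw [← hy]; rfl
        rw [← this, e.apply_symm_apply]
      · refine ⟨c, Subtype.ext ?_⟩
        have : e.symm w = toLex (Sum.inr c) := by
          rw [← hy]; rfl
        show e (toLex (Sum.inr c)) = w
        rw [← this, e.apply_symm_apply]

theorem sum_iso {A B : Set α} (hA : IsLowerSet A) (hc : ∀ x, x ∈ A ∨ x ∈ B) (hd : ∀ x, x ∈ A → x ∉ B) :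
    Nonempty ((A ⊕ₗ B) ≃o α) := by
  refine ⟨StrictMono.orderIsoOfSurjective (fun z => Sum.elim (fun a : A => a.1) (fun b : B => b.1) (ofLex z))
    ?_ ?_⟩
  · intro y z hyz
    have key : ∀ (a : A) (b : B), a.1 < b.1 := by
      intro a b
      by_contra h
      push Not at h
      exact hd b.1 (hA h a.2) b.2
    rcases hy : ofLex y with a | a <;> rcases hz : ofLex z with b | b
    · have h1 : y = toLex (Sum.inl a) := by rw [← hy]; rfl
      have h2 : z = toLex (Sum.inl b) := by rw [← hz]; rfl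
      rw [h1, h2] at hyz
      have h3 := Sum.Lex.inl_lt_inl_iff.1 hyz
      simpa [hy, hz] using h3
    · simpa [hy, hz] using key a b
    · exfalso
      have h1 : y = toLex (Sum.inr a) := by rw [← hy]; rfl
      have h2 : z = toLex (Sum.inl b) := by rw [← hz]; rfl
      rw [h1, h2] at hyz
      exact absurd hyz (not_lt_of_ge (Sum.Lex.inl_lt_inr b a).le)
    · have h1 : y = toLex (Sum.inr a) := by rw [← hy]; rfl
      have h2 : z = toLex (Sum.inr b) := by rw [← hz]; rfl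
      rw [h1, h2] at hyz
      have h3 := Sum.Lex.inr_lt_inr_iff.1 hyz
      simpa [hy, hz] using h3
  · intro x
    rcases hc x with h | h
    · exact ⟨toLex (Sum.inl ⟨x, h⟩), rfl⟩
    · exact ⟨toLex (Sum.inr ⟨x, h⟩), rfl⟩

/-! ### The dual of `S_B1` -/

theorem FLt_iff_dual : FLt α β ↔ ILt αᵒᵈ βᵒᵈ := by
  constructor
  · rintro ⟨f, hf⟩
    exact ⟨f.dual, fun a b h => hf (OrderDual.ofDual a) (OrderDual.ofDual b) h⟩
  · rintro ⟨f, hf⟩
    exact ⟨f.dual, fun a b h => hf (OrderDual.toDual a) (OrderDual.toDual b) h⟩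

theorem dual_iso : Nonempty (α ≃o β) ↔ Nonempty (αᵒᵈ ≃o βᵒᵈ) :=
  ⟨fun ⟨e⟩ => ⟨e.dual⟩, fun ⟨e⟩ => ⟨e.dual⟩⟩

theorem ici_dual (a : α) (b : β) :
    Nonempty (Ici a ≃o Ici b) ↔ Nonempty (Iic (OrderDual.toDual a) ≃o Iic (OrderDual.toDual b)) := by
  constructor
  · rintro ⟨e⟩
    exact ⟨e.dual⟩
  · rintro ⟨e⟩
    exact ⟨e.dual⟩

/-- the dual of a subset -/
def setDual (P : Set βᵒᵈ) (Q : Set β) (h : ∀ b, b ∈ Q ↔ OrderDual.toDual b ∈ P) : (P : Type)ᵒᵈ ≃o Q where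
  toFun z := ⟨OrderDual.ofDual (OrderDual.ofDual z).1, (h _).2 (OrderDual.ofDual z).2⟩
  invFun z := OrderDual.toDual ⟨OrderDual.toDual z.1, (h _).1 z.2⟩
  left_inv _ := rfl
  right_inv _ := rfl
  map_rel_iff' := Iff.rfl

theorem B1d (h : S_B1) (α β : Type) [LinearOrder α] [LinearOrder β] :
    FLt α β ↔ (Nonempty (α ≃o {b : β | ∃ a : α, Nonempty (Ici a ≃o Ici b)}) ∨
      ∃ (b : β) (a : α), Nonempty (Ici a ≃o Ici b) ∧ FLt α (Ici a)) := by
  rw [FLt_iff_dual, h αᵒᵈ βᵒᵈ]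
  have hset : ∀ b : β, b ∈ {b : β | ∃ a : α, Nonempty (Ici a ≃o Ici b)} ↔
      OrderDual.toDual b ∈ {b : βᵒᵈ | ∃ a : αᵒᵈ, Nonempty (Iic a ≃o Iic b)} := by
    intro b
    constructor
    · rintro ⟨a, ha⟩
      exact ⟨OrderDual.toDual a, (ici_dual _ _).1 ha⟩
    · rintro ⟨a, ha⟩
      exact ⟨OrderDual.ofDual a, (ici_dual _ _).2 ha⟩
  constructor
  · rintro (⟨⟨e⟩⟩ | ⟨b, a, hab, h2⟩)
    · left
      exact ⟨(OrderIso.dualDual α).trans (e.dual.trans (setDual _ _ hset))⟩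
    · right
      exact ⟨OrderDual.ofDual b, OrderDual.ofDual a, (ici_dual _ _).2 hab, FLt_iff_dual.2 h2⟩
  · rintro (⟨⟨e⟩⟩ | ⟨b, a, hab, h2⟩)
    · left
      exact ⟨((setDual _ _ hset).trans e.symm).dual.symm⟩
    · right
      exact ⟨OrderDual.toDual b, OrderDual.toDual a, (ici_dual _ _).1 hab, FLt_iff_dual.1 h2⟩

end B2

open B2 Set in
theorem t_B2 : S_B1 → S_A1 → S_B2 := by
  intro hB1 hA1 α β γ _ _ _ A B U V hA hB hU hV
  have hAl : IsLowerSet A := by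
    subst hA
    rintro x y hyx ⟨b, ⟨e⟩⟩
    exact ⟨_, iic_restrict e hyx⟩
  have hBu : IsUpperSet B := by
    subst hB
    rintro x y hxy ⟨b, ⟨e⟩⟩
    exact ⟨_, ici_restrict e hxy⟩
  have hUl : IsLowerSet U := by
    subst hU
    rintro x y hyx ⟨b, ⟨e⟩⟩
    obtain ⟨e'⟩ := iic_restrict e.symm hyx
    exact ⟨_, ⟨e'.symm⟩⟩
  have hVu : IsUpperSet V := by
    subst hV
    rintro x y hxy ⟨b, ⟨e⟩⟩
    obtain ⟨e'⟩ := ici_restrict e.symm hxy
    exact ⟨_, ⟨e'.symm⟩⟩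
  have memA : ∀ x, x ∈ A ↔ ∃ b : β, Nonempty (Iic x ≃o Iic b) := by intro x; rw [hA]; rfl
  have memB : ∀ x, x ∈ B ↔ ∃ b : γ, Nonempty (Ici x ≃o Ici b) := by intro x; rw [hB]; rfl
  have memU : ∀ b, b ∈ U ↔ ∃ x : α, Nonempty (Iic x ≃o Iic b) := by intro x; rw [hU]; rfl
  have memV : ∀ b, b ∈ V ↔ ∃ x : α, Nonempty (Ici x ≃o Ici b) := by intro x; rw [hV]; rfl
  have hdec := hA1 α β γ
  rw [← hA, ← hB] at hdec
  -- the two criteria
  have hP1 : (∃ x, x ∈ A ∧ ILt A (Iic x)) → ILt A β := by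
    rintro ⟨x, hx, h⟩
    obtain ⟨b, ⟨e⟩⟩ := (memA x).1 hx
    exact ILt_trans (ILt_congr h (OrderIso.refl _) e) (ILt_lower (isLowerSet_Iic b))
  have hP2 : (∃ x, x ∈ B ∧ FLt B (Ici x)) → FLt B γ := by
    rintro ⟨x, hx, h⟩
    obtain ⟨b, ⟨e⟩⟩ := (memB x).1 hx
    exact FLt_trans (FLt_congr h (OrderIso.refl _) e) (FLt_upper (isUpperSet_Ici b))
  have hI : ILt A β → Nonempty (A ≃o U) ∨ ∃ x, x ∈ A ∧ ILt A (Iic x) := by
    intro h
    rcases (hB1 A β).1 h with h | ⟨b, a, ⟨e⟩, h⟩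
    · left
      have hset : {b : β | ∃ a : A, Nonempty (Iic a ≃o Iic b)} = U := by
        ext b
        rw [memU]
        constructor
        · rintro ⟨a, ⟨e⟩⟩
          obtain ⟨e'⟩ := iic_lower hAl a
          exact ⟨a.1, ⟨e'.symm.trans e⟩⟩
        · rintro ⟨x, ⟨e⟩⟩
          have hx : x ∈ A := (memA x).2 ⟨b, ⟨e⟩⟩
          obtain ⟨e'⟩ := iic_lower hAl ⟨x, hx⟩
          exact ⟨⟨x, hx⟩, ⟨e'.trans e⟩⟩
      rwa [hset] at h
    · right
      obtain ⟨e'⟩ := iic_lower hAl a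
      exact ⟨a.1, a.2, ILt_congr h (OrderIso.refl _) e'⟩
  have hF : FLt B γ → Nonempty (B ≃o V) ∨ ∃ x, x ∈ B ∧ FLt B (Ici x) := by
    intro h
    rcases (B1d hB1 B γ).1 h with h | ⟨b, a, ⟨e⟩, h⟩
    · left
      have hset : {b : γ | ∃ a : B, Nonempty (Ici a ≃o Ici b)} = V := by
        ext b
        rw [memV]
        constructor
        · rintro ⟨a, ⟨e⟩⟩
          obtain ⟨e'⟩ := ici_upper hBu a
          exact ⟨a.1, ⟨e'.symm.trans e⟩⟩
        · rintro ⟨x, ⟨e⟩⟩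
          have hx : x ∈ B := (memB x).2 ⟨b, ⟨e⟩⟩
          obtain ⟨e'⟩ := ici_upper hBu ⟨x, hx⟩
          exact ⟨⟨x, hx⟩, ⟨e'.trans e⟩⟩
      rwa [hset] at h
    · right
      obtain ⟨e'⟩ := ici_upper hBu a
      exact ⟨a.1, a.2, FLt_congr h (OrderIso.refl _) e'⟩
  constructor
  · intro hD
    obtain ⟨hc, h⟩ := hdec.1 hD
    have hc' : ∀ x, x ∈ A ∨ x ∈ B := by
      intro x
      rcases hc x with h | h
      · exact Or.inl ((memA x).2 h)
      · exact Or.inr ((memB x).2 h)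
    refine ⟨hc', ?_⟩
    by_cases hAB : ∃ x, x ∈ A ∧ x ∈ B
    · exact Or.inl hAB
    right
    have hd : ∀ x, x ∈ A → x ∉ B := fun x h1 h2 => hAB ⟨x, h1, h2⟩
    obtain ⟨es⟩ := sum_iso hAl hc' hd
    rcases h with ⟨x, h1, h2⟩ | ⟨h1, h2⟩
    · exact absurd ⟨x, (memA x).2 h1, (memB x).2 h2⟩ hAB
    rcases hI h1 with ⟨⟨e1⟩⟩ | p1 <;> rcases hF h2 with ⟨⟨e2⟩⟩ | p2
    · exact Or.inr (Or.inr (Or.inr ⟨(OrderIso.sumLexCongr e1.symm e2.symm).trans es⟩))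
    · exact Or.inr (Or.inr (Or.inl ⟨p2, ⟨(OrderIso.sumLexCongr e1.symm (OrderIso.refl _)).trans es⟩⟩))
    · exact Or.inr (Or.inl ⟨p1, ⟨(OrderIso.sumLexCongr (OrderIso.refl _) e2.symm).trans es⟩⟩)
    · exact Or.inl ⟨p1, p2⟩
  · rintro ⟨hc, h⟩
    have hc' : ∀ x : α, (∃ b : β, Nonempty (Iic x ≃o Iic b)) ∨ ∃ b : γ, Nonempty (Ici x ≃o Ici b) := by
      intro x
      rcases hc x with h | h
      · exact Or.inl ((memA x).1 h)
      · exact Or.inr ((memB x).1 h)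
    rcases h with ⟨x, h1, h2⟩ | ⟨p1, p2⟩ | ⟨p1, ⟨e⟩⟩ | ⟨p2, ⟨e⟩⟩ | ⟨⟨e⟩⟩
    · exact hdec.2 ⟨hc', Or.inl ⟨x, (memA x).1 h1, (memB x).1 h2⟩⟩
    · exact hdec.2 ⟨hc', Or.inr ⟨hP1 p1, hP2 p2⟩⟩
    · exact dect_of_sum e (hP1 p1) (FLt_upper hVu)
    · exact dect_of_sum e (ILt_lower hUl) (hP2 p2)
    · exact dect_of_sum e (ILt_lower hUl) (FLt_upper hVu)

end Pool.Agent.H742.PW
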