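import Pool.Agent.H742.PW.Stm

/-!
Borelness of embeddability as an initial segment into a fixed order (`S_CLA`).
-/

set_option autoImplicit false

namespace Pool.Agent.H742.PW
open Set MeasureTheory Pool.Agent.HLead.CB

namespace CLA

theorem cvt_iff (x y : LO) : ConvEmb x y ↔ CVt (PO.ofLO x).T (PO.ofLO y).T := by
  constructor
  · rintro ⟨f, hf, hc⟩
    refine ⟨OrderEmbedding.ofMapLEIff
      (fun a : (PO.ofLO x).T => (⟨f a.1, trivial⟩ : (PO.ofLO y).T)) ?_, ?_⟩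
    · intro a b
      change y.1 (f a.1, f b.1) = true ↔ x.1 (a.1, b.1) = true
      rw [hf]
    · refine ⟨?_⟩
      rintro _ ⟨a, rfl⟩ _ ⟨b, rfl⟩ z ⟨h1, h2⟩
      obtain ⟨n, hn⟩ := hc (f a.1) z.1 (f b.1) ⟨a.1, rfl⟩ ⟨b.1, rfl⟩ h1 h2
      exact ⟨⟨n, trivial⟩, Subtype.ext hn⟩
  · rintro ⟨f, hf⟩
    refine ⟨fun n => (f ⟨n, trivial⟩).1, ?_, ?_⟩
    · intro m n
      have h := f.le_iff_le (a := ⟨m, trivial⟩) (b := ⟨n, trivial⟩)
      rw [Bool.eq_iff_iff]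
      exact h.symm
    · rintro _ b _ ⟨m, rfl⟩ ⟨n, rfl⟩ h1 h2
      obtain ⟨z, hz⟩ := hf.out ⟨⟨m, trivial⟩, rfl⟩ ⟨⟨n, trivial⟩, rfl⟩
        (show (⟨b, trivial⟩ : (PO.ofLO y).T) ∈ Icc (f ⟨m, trivial⟩) (f ⟨n, trivial⟩) from
          ⟨h1, h2⟩)
      exact ⟨z.1, congrArg Subtype.val hz⟩

theorem cvt_congr {α β α' β' : Type} [LinearOrder α] [LinearOrder β] [LinearOrder α']
    [LinearOrder β'] (e : α ≃o α') (e' : β ≃o β') (h : CVt α β) : CVt α' β' := by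
  obtain ⟨f, hf⟩ := h
  refine ⟨e.symm.toOrderEmbedding.trans (f.trans e'.toOrderEmbedding), ⟨?_⟩⟩
  rintro _ ⟨a, rfl⟩ _ ⟨b, rfl⟩ z ⟨h1, h2⟩
  have h1' : e' (f (e.symm a)) ≤ z := h1
  have h2' : z ≤ e' (f (e.symm b)) := h2
  obtain ⟨t, ht⟩ := hf.out ⟨e.symm a, rfl⟩ ⟨e.symm b, rfl⟩
    (show e'.symm z ∈ Icc (f (e.symm a)) (f (e.symm b)) from
      ⟨(e'.le_symm_apply).2 h1', (e'.symm_apply_le).2 h2'⟩)
  refine ⟨e t, ?_⟩
  change e' (f (e.symm (e t))) = z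
  rw [e.symm_apply_apply, ht, e'.apply_symm_apply]

theorem cvt_congr_iff {α β α' β' : Type} [LinearOrder α] [LinearOrder β] [LinearOrder α']
    [LinearOrder β'] (e : α ≃o α') (e' : β ≃o β') : CVt α β ↔ CVt α' β' :=
  ⟨cvt_congr e e', cvt_congr e.symm e'.symm⟩

theorem inl_le {α β : Type} [LinearOrder α] [LinearOrder β] (a b : α) :
    (toLex (Sum.inl a) : α ⊕ₗ β) ≤ toLex (Sum.inl b) ↔ a ≤ b := Sum.Lex.inl_le_inl_iff

theorem inr_le {α β : Type} [LinearOrder α] [LinearOrder β] (a b : β) :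
    (toLex (Sum.inr a) : α ⊕ₗ β) ≤ toLex (Sum.inr b) ↔ a ≤ b := Sum.Lex.inr_le_inr_iff

theorem inl_le_inr {α β : Type} [LinearOrder α] [LinearOrder β] (a : α) (b : β) :
    (toLex (Sum.inl a) : α ⊕ₗ β) ≤ toLex (Sum.inr b) := Sum.Lex.inl_le_inr _ _

theorem not_inr_le {α β : Type} [LinearOrder α] [LinearOrder β] (a : α) (b : β) :
    ¬ (toLex (Sum.inr b) : α ⊕ₗ β) ≤ toLex (Sum.inl a) := Sum.Lex.not_inr_le_inl

/-- the points of a sum, forwards -/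
def addF {E E' : Type} (M : PO E) (N : PO E') : (M.add N).T → M.T ⊕ₗ N.T
  | ⟨.inl a, h⟩ => toLex (.inl ⟨a, h⟩)
  | ⟨.inr a, h⟩ => toLex (.inr ⟨a, h⟩)

/-- the points of a sum, backwards -/
def addG {E E' : Type} (M : PO E) (N : PO E') (z : M.T ⊕ₗ N.T) : (M.add N).T :=
  match ofLex z with
  | .inl a => ⟨.inl a.1, a.2⟩
  | .inr a => ⟨.inr a.1, a.2⟩

/-- the points of a sum -/
def addIso {E E' : Type} (M : PO E) (N : PO E') : (M.add N).T ≃o M.T ⊕ₗ N.T where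
  toFun := addF M N
  invFun := addG M N
  left_inv := by
    rintro ⟨a | a, h⟩ <;> rfl
  right_inv := by
    rintro (a | a) <;> rfl
  map_rel_iff' := by
    rintro ⟨a | a, ha⟩ ⟨b | b, hb⟩
    · exact @inl_le M.T N.T _ _ ⟨a, ha⟩ ⟨b, hb⟩
    · exact ⟨fun _ => trivial, fun _ => @inl_le_inr M.T N.T _ _ ⟨a, ha⟩ ⟨b, hb⟩⟩
    · exact ⟨fun h => (@not_inr_le M.T N.T _ _ ⟨b, hb⟩ ⟨a, ha⟩ h).elim, fun h => h.elim⟩
    · exact @inr_le M.T N.T _ _ ⟨a, ha⟩ ⟨b, hb⟩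

theorem zb_le {E : Type} (M : PO E) (a b : M.T) (m n : ℤ) :
    (toLex (a, m) : M.T ×ₗ ℤ) ≤ toLex (b, n) ↔
      ((M.le a.1 b.1 ∧ a.1 ≠ b.1) ∨ (a.1 = b.1 ∧ m ≤ n)) := by
  rw [Prod.Lex.toLex_le_toLex]
  have h1 : a < b ↔ (M.le a.1 b.1 ∧ a.1 ≠ b.1) := by
    rw [lt_iff_le_and_ne]
    exact ⟨fun h => ⟨h.1, fun h' => h.2 (Subtype.ext h')⟩,
      fun h => ⟨h.1, fun h' => h.2 (congrArg Subtype.val h')⟩⟩
  have h2 : a = b ↔ a.1 = b.1 :=
    ⟨fun h => congrArg Subtype.val h, fun h => Subtype.ext h⟩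
  change (a < b ∨ a = b ∧ m ≤ n) ↔ _
  rw [h1, h2]

/-- the points of the order with copies of the integers -/
noncomputable def zbIso {E : Type} (M : PO E) : M.zb.T ≃o M.T ×ₗ ℤ where
  toFun z := toLex (⟨z.1.1, z.2⟩, z.1.2)
  invFun z := ⟨((ofLex z).1.1, (ofLex z).2), (ofLex z).1.2⟩
  left_inv _ := rfl
  right_inv _ := rfl
  map_rel_iff' := by
    rintro ⟨⟨a, m⟩, ha⟩ ⟨⟨b, n⟩, hb⟩
    exact zb_le M ⟨a, ha⟩ ⟨b, hb⟩ m n

/-- the points of a type -/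
def ofIso (α : Type) [LinearOrder α] : (PO.of α).T ≃o α where
  toFun z := z.1
  invFun z := ⟨z, trivial⟩
  left_inv _ := rfl
  right_inv _ := rfl
  map_rel_iff' := Iff.rfl

/-- the order `W` -/
abbrev W (M : Type) : Type := ℕᵒᵈ ×ₗ (Unit ⊕ₗ (M ×ₗ ℤ))

instance (M : Type) [Countable M] : Countable (W M) :=
  inferInstanceAs (Countable (ℕ × (Unit ⊕ (M × ℤ))))

instance (M : Type) : Infinite (W M) :=
  inferInstanceAs (Infinite (ℕ × (Unit ⊕ (M × ℤ))))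

/-- the order of the family -/
noncomputable def famIso {E E' : Type} (M : PO E) (N : PO E') :
    ((PO.of (W M.T)).add ((PO.of Unit).add N.zb)).T ≃o
      (W M.T) ⊕ₗ (Unit ⊕ₗ (N.T ×ₗ ℤ)) :=
  (addIso _ _).trans (OrderIso.sumLexCongr (ofIso _)
    ((addIso _ _).trans (OrderIso.sumLexCongr (ofIso _) (zbIso N))))

end CLA

open CLA in
theorem t_CLA : S_BE → S_CODE → S_WIN1 → S_WIN2 → S_CLA := by
  intro hBE hCODE hW1 hW2 E E' X _ _ _ M N hN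
  rcases isEmpty_or_nonempty M.T with hM | hM
  · have h1 : {x | IL (N x) M} = ⋂ a, {x | (N x).dom a}ᶜ := by
      ext x
      rw [mem_iInter]
      constructor
      · rintro ⟨f, -⟩ a ha
        exact hM.elim (f ⟨a, ha⟩)
      · intro h
        have h2 : IsEmpty (N x).T := ⟨fun a => h a.1 a.2⟩
        exact ⟨⟨⟨fun a => h2.elim a, fun a => h2.elim a⟩, fun {a} => h2.elim a⟩,
          fun a => h2.elim a⟩
    rw [h1]
    exact MeasurableSet.iInter fun a => (hN.1 a).compl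
  · have hF : Fam (fun x => (PO.of (W M.T)).add ((PO.of Unit).add (N x).zb)) :=
      (Fam.const _).add ((Fam.const _).add hN.zb)
    obtain ⟨g, hg, hgi⟩ := hCODE _ X _ hF (fun x =>
      Infinite.of_injective (fun w : W M.T => (famIso M (N x)).symm (toLex (Sum.inl w)))
        (fun a b hab => by
          have h1 := (famIso M (N x)).symm.injective hab
          exact Sum.inl_injective h1))
    obtain ⟨g₀, -, hg₀⟩ := hCODE _ Unit (fun _ => PO.of (W M.T)) (Fam.const _) (fun _ =>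
      Infinite.of_injective (fun w : W M.T => (ofIso (W M.T)).symm w)
        (ofIso (W M.T)).symm.injective)
    have key : {x | IL (N x) M} = g ⁻¹' {y : LO | BiEmb y (g₀ ())} := by
      ext x
      obtain ⟨i1⟩ := hgi x
      obtain ⟨i2⟩ := hg₀ ()
      have j1 : (PO.ofLO (g x)).T ≃o (W M.T) ⊕ₗ (Unit ⊕ₗ ((N x).T ×ₗ ℤ)) :=
        i1.symm.trans (famIso M (N x))
      have j2 : (PO.ofLO (g₀ ())).T ≃o W M.T := i2.symm.trans (ofIso _)
      change ILt (N x).T M.T ↔ (ConvEmb (g x) (g₀ ()) ∧ ConvEmb (g₀ ()) (g x))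
      rw [cvt_iff, cvt_iff, cvt_congr_iff j1 j2, cvt_congr_iff j2 j1]
      constructor
      · exact fun h => hW2 (N x).T M.T h
      · exact fun h => hW1 (N x).T M.T h.1
    rw [key]
    exact hg (hBE _)

end Pool.Agent.H742.PW
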