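import Pool.Agent.H742.PW.Stm

set_option autoImplicit false

namespace Pool.Agent.H742.PW
open Set MeasureTheory Pool.Agent.HLead.CB

namespace CLB

/-- the points of the closed initial segment -/
def leiIso {E : Type} (M : PO E) (a : M.T) : (M.lei a.1).T ≃o Iic a where
  toFun z := ⟨⟨z.1, z.2.1⟩, z.2.2⟩
  invFun z := ⟨z.1.1, z.1.2, z.2⟩
  left_inv _ := rfl
  right_inv _ := rfl
  map_rel_iff' := Iff.rfl

theorem iso_iff {E E' : Type} (N : PO E) (M : PO E') (a : N.T) (b : M.T) :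
    Nonempty (Iic a ≃o Iic b) ↔ Iso (N.lei a.1) (M.lei b.1) := by
  constructor
  · rintro ⟨f⟩
    exact ⟨((leiIso N a).trans f).trans (leiIso M b).symm⟩
  · rintro ⟨f⟩
    exact ⟨((leiIso N a).symm.trans f).trans (leiIso M b)⟩

/-- the set `U` -/
def U {E E' : Type} (N : PO E) (M : PO E') : Set E' :=
  {b | ∃ a : E, N.dom a ∧ Iso (N.lei a) (M.lei b)}

theorem set_eq {E E' : Type} (N : PO E) (M : PO E') :
    {b : M.T | ∃ a : N.T, Nonempty (Iic a ≃o Iic b)} = {z : M.T | z.1 ∈ U N M} := by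
  ext b
  constructor
  · rintro ⟨a, h⟩
    exact ⟨a.1, a.2, (iso_iff N M a b).mp h⟩
  · rintro ⟨a, ha, h⟩
    exact ⟨⟨a, ha⟩, (iso_iff N M ⟨a, ha⟩ b).mpr h⟩

theorem first_iff {E E' : Type} (N : PO E) (M : PO E') :
    Nonempty (N.T ≃o {b : M.T | ∃ a : N.T, Nonempty (Iic a ≃o Iic b)}) ↔
      Iso N (M.restr (U N M)) := by
  rw [set_eq]
  constructor
  · rintro ⟨f⟩
    exact ⟨f.trans (restrIso M (U N M)).symm⟩
  · rintro ⟨f⟩
    exact ⟨f.trans (restrIso M (U N M))⟩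

theorem second_iff {E E' : Type} (N : PO E) (M : PO E') :
    (∃ (b : M.T) (a : N.T), Nonempty (Iic a ≃o Iic b) ∧ ILt N.T (Iic a)) ↔
      ∃ a : N.T, ILt N.T (Iic a) ∧ ∃ b : E', M.dom b ∧ Iso (N.lei a.1) (M.lei b) := by
  constructor
  · rintro ⟨b, a, h, h'⟩
    exact ⟨a, h', b.1, b.2, (iso_iff N M a b).mp h⟩
  · rintro ⟨a, h', b, hb, h⟩
    exact ⟨⟨b, hb⟩, a, (iso_iff N M a ⟨b, hb⟩).mpr h, h'⟩

end CLB

open CLB in
theorem t_CLB : S_ISO → S_B1 → S_CLB := by
  intro hISO hB1 E E' X _ _ _ N M hM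
  have hiso : ∀ (a : E) (b : E'), MeasurableSet {x | Iso (N.lei a) ((M x).lei b)} := fun a b =>
    hISO E E' X (N.lei a) (fun x => (M x).lei b) (hM.lei b)
  have hU : ∀ b : E', MeasurableSet {x | b ∈ U N (M x)} := by
    intro b
    have : {x | b ∈ U N (M x)} = ⋃ a : E, ({_x : X | N.dom a} ∩ {x | Iso (N.lei a) ((M x).lei b)}) := by
      ext x
      simp only [mem_setOf_eq, mem_iUnion, mem_inter_iff]
      exact Iff.rfl
    rw [this]
    exact MeasurableSet.iUnion fun a => (MeasurableSet.const _).inter (hiso a b)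
  have h1 : MeasurableSet {x | Iso N ((M x).restr (U N (M x)))} :=
    hISO E E' X N (fun x => (M x).restr (U N (M x))) (hM.restr hU)
  have h2 : MeasurableSet {x | ∃ a : N.T, ILt N.T (Iic a) ∧
      ∃ b : E', (M x).dom b ∧ Iso (N.lei a.1) ((M x).lei b)} := by
    have : {x | ∃ a : N.T, ILt N.T (Iic a) ∧
        ∃ b : E', (M x).dom b ∧ Iso (N.lei a.1) ((M x).lei b)} =
        ⋃ a : N.T, ({_x : X | ILt N.T (Iic a)} ∩
          ⋃ b : E', ({x | (M x).dom b} ∩ {x | Iso (N.lei a.1) ((M x).lei b)})) := by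
      ext x
      simp only [mem_setOf_eq, mem_iUnion, mem_inter_iff]
    rw [this]
    exact MeasurableSet.iUnion fun a => (MeasurableSet.const _).inter
      (MeasurableSet.iUnion fun b => (hM.1 b).inter (hiso a.1 b))
  have h3 : {x | IL N (M x)} = {x | Iso N ((M x).restr (U N (M x)))} ∪
      {x | ∃ a : N.T, ILt N.T (Iic a) ∧
        ∃ b : E', (M x).dom b ∧ Iso (N.lei a.1) ((M x).lei b)} := by
    ext x
    rw [mem_union, mem_setOf_eq, mem_setOf_eq, mem_setOf_eq, ← first_iff, ← second_iff]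
    exact hB1 N.T (M x).T
  rw [h3]
  exact h1.union h2

end Pool.Agent.H742.PW
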