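import Pool.Agent.H742.PW.Stm

/-! Task CODE: a measurable family of infinite orders has measurable codes. -/

set_option autoImplicit false

namespace Pool.Agent.H742.PW
open Set MeasureTheory Pool.Agent.HLead.CB

namespace CODE

variable {E X : Type}

/-- the domain, as a subset of `ℕ` -/
def DD (i : E → ℕ) (M : PO E) (k : ℕ) : Prop := ∃ a, M.dom a ∧ i a = k

lemma inf {i : E → ℕ} (hi : Function.Injective i) (M : PO E) [Infinite M.T] :
    (Set.ofPred (DD i M)).Infinite := by
  have h1 : Function.Injective (fun a : M.T => i a.1) := fun a b hab => Subtype.ext (hi hab)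
  refine (Set.infinite_range_of_injective h1).mono ?_
  rintro _ ⟨a, rfl⟩
  exact ⟨a.1, a.2, rfl⟩

lemma ex {i : E → ℕ} (hi : Function.Injective i) (M : PO E) [Infinite M.T] (n : ℕ) :
    ∃ a, M.dom a ∧ i a = Nat.nth (DD i M) n :=
  Nat.nth_mem_of_infinite (inf hi M) n

/-- the `n`-th point of the order -/
noncomputable def e {i : E → ℕ} (hi : Function.Injective i) (M : PO E) [Infinite M.T] (n : ℕ) : E :=
  Classical.choose (ex hi M n)

lemma e_dom {i : E → ℕ} (hi : Function.Injective i) (M : PO E) [Infinite M.T] (n : ℕ) :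
    M.dom (e hi M n) := (Classical.choose_spec (ex hi M n)).1

lemma e_eq {i : E → ℕ} (hi : Function.Injective i) (M : PO E) [Infinite M.T] (n : ℕ) :
    i (e hi M n) = Nat.nth (DD i M) n := (Classical.choose_spec (ex hi M n)).2

lemma e_inj {i : E → ℕ} (hi : Function.Injective i) (M : PO E) [Infinite M.T] :
    Function.Injective (e hi M) := by
  intro m n h
  have h1 := congrArg i h
  rw [e_eq hi M m, e_eq hi M n] at h1
  exact Nat.nth_injective (inf hi M) h1

open Classical in
lemma e_iff {i : E → ℕ} (hi : Function.Injective i) (M : PO E) [Infinite M.T] (n : ℕ) (a : E) :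
    e hi M n = a ↔ M.dom a ∧ Nat.count (DD i M) (i a) = n := by
  constructor
  · rintro rfl
    refine ⟨e_dom hi M n, ?_⟩
    rw [e_eq hi M n, Nat.count_nth_of_infinite (inf hi M)]
  · rintro ⟨h1, h2⟩
    apply hi
    rw [e_eq hi M n, ← h2]
    exact Nat.nth_count ⟨a, h1, rfl⟩

lemma e_surj {i : E → ℕ} (hi : Function.Injective i) (M : PO E) [Infinite M.T] (a : E)
    (ha : M.dom a) : ∃ n, e hi M n = a := by
  classical
  exact ⟨_, (e_iff hi M _ a).2 ⟨ha, rfl⟩⟩

variable [Countable E] [MeasurableSpace X]

lemma meas_DD {M : X → PO E} (hM : Fam M) (i : E → ℕ) (k : ℕ) :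
    MeasurableSet {x | DD i (M x) k} := by
  have h : {x | DD i (M x) k} = ⋃ a : E, {x | (M x).dom a} ∩ {_x | i a = k} := by
    ext x
    simp only [DD, mem_iUnion, mem_inter_iff, mem_ofPred_eq]
  rw [h]
  exact MeasurableSet.iUnion fun a => (hM.1 a).inter (MeasurableSet.const _)

open Classical in
lemma meas_count {M : X → PO E} (hM : Fam M) (i : E → ℕ) (k : ℕ) : ∀ n : ℕ,
    MeasurableSet {x | Nat.count (DD i (M x)) k = n} := by
  induction k with
  | zero =>
    intro n
    simp only [Nat.count_zero]
    exact MeasurableSet.const _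
  | succ k ih =>
    intro n
    have h1 : MeasurableSet {x | Nat.count (DD i (M x)) k + 1 = n} := by
      cases n with
      | zero =>
        have h2 : {x | Nat.count (DD i (M x)) k + 1 = 0} = ∅ := by
          ext x
          simp
        rw [h2]
        exact MeasurableSet.empty
      | succ n =>
        have h2 : {x | Nat.count (DD i (M x)) k + 1 = n + 1} =
            {x | Nat.count (DD i (M x)) k = n} := by
          ext x
          simp
        rw [h2]
        exact ih n
    have h3 : {x | Nat.count (DD i (M x)) (k + 1) = n} =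
        ({x | DD i (M x) k} ∩ {x | Nat.count (DD i (M x)) k + 1 = n}) ∪
          ({x | DD i (M x) k}ᶜ ∩ {x | Nat.count (DD i (M x)) k = n}) := by
      ext x
      simp only [mem_union, mem_inter_iff, mem_compl_iff, mem_ofPred_eq]
      by_cases h : DD i (M x) k
      · rw [Nat.count_succ, if_pos h]
        simp only [h, true_and, not_true_eq_false, false_and, or_false]
      · rw [Nat.count_succ, if_neg h, add_zero]
        simp only [h, true_and, not_false_eq_true, false_and, false_or]
    rw [h3]
    exact ((meas_DD hM i k).inter h1).union ((meas_DD hM i k).compl.inter (ih n))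

lemma meas_e {M : X → PO E} (hM : Fam M) [∀ x, Infinite (M x).T] {i : E → ℕ}
    (hi : Function.Injective i) (n : ℕ) (a : E) : MeasurableSet {x | e hi (M x) n = a} := by
  classical
  have h : {x | e hi (M x) n = a} =
      {x | (M x).dom a} ∩ {x | Nat.count (DD i (M x)) (i a) = n} := by
    ext x
    simp only [mem_inter_iff, mem_ofPred_eq]
    exact e_iff hi (M x) n a
  rw [h]
  exact (hM.1 a).inter (meas_count hM i (i a) n)

lemma meas_le {M : X → PO E} (hM : Fam M) [∀ x, Infinite (M x).T] {i : E → ℕ}
    (hi : Function.Injective i) (m n : ℕ) :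
    MeasurableSet {x | (M x).le (e hi (M x) m) (e hi (M x) n)} := by
  have h : {x | (M x).le (e hi (M x) m) (e hi (M x) n)} =
      ⋃ a : E, ⋃ b : E, ({x | e hi (M x) m = a} ∩ {x | e hi (M x) n = b}) ∩ {x | (M x).le a b} := by
    ext x
    simp only [mem_iUnion, mem_inter_iff, mem_ofPred_eq]
    constructor
    · intro h
      exact ⟨_, _, ⟨rfl, rfl⟩, h⟩
    · rintro ⟨a, b, ⟨rfl, rfl⟩, h⟩
      exact h
  rw [h]
  exact MeasurableSet.iUnion fun a => MeasurableSet.iUnion fun b =>
    ((meas_e hM hi m a).inter (meas_e hM hi n b)).inter (hM.2 a b)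

/-- a map into `LO` is measurable if its coordinates are -/
lemma meas_LO {f : X → LO} (h : ∀ p : ℕ × ℕ, MeasurableSet {x | (f x).1 p = true}) :
    Measurable f := by
  have hb : (inferInstance : MeasurableSpace LO) =
      MeasurableSpace.comap (Subtype.val : {x : ℕ × ℕ → Bool // IsCode x} → ℕ × ℕ → Bool)
        inferInstance := by
    have h : BorelSpace {x : ℕ × ℕ → Bool // IsCode x} := inferInstance
    exact h.measurable_eq.symm
  have h0 : Measurable fun x => (f x).1 := by
    refine measurable_pi_iff.mpr fun p => ?_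
    refine measurable_to_bool ?_
    exact h p
  refine measurable_iff_comap_le.mpr ?_
  have h1 := measurable_iff_comap_le.mp h0
  have h2 : MeasurableSpace.comap (fun x => (f x).1) MeasurableSpace.pi =
      MeasurableSpace.comap f (MeasurableSpace.comap
        (Subtype.val : {x : ℕ × ℕ → Bool // IsCode x} → ℕ × ℕ → Bool) MeasurableSpace.pi) :=
    MeasurableSpace.comap_comp.symm
  rw [h2] at h1
  exact (congrArg (MeasurableSpace.comap f) hb).trans_le h1

end CODE

open CODE in
theorem t_CODE : S_CODE := by
  intro E X _ _ M hM hinf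
  classical
  obtain ⟨i, hi⟩ := exists_injective_nat E
  have hc : ∀ x, IsCode (fun p : ℕ × ℕ => decide ((M x).le (e hi (M x) p.1) (e hi (M x) p.2))) := by
    intro x
    constructor
    · intro a
      exact decide_eq_true ((M x).refl _ (e_dom hi (M x) a))
    · intro a b c h1 h2
      exact decide_eq_true ((M x).trans _ _ _ (e_dom hi (M x) a) (e_dom hi (M x) b)
        (e_dom hi (M x) c) (of_decide_eq_true h1) (of_decide_eq_true h2))
    · intro a b h1 h2
      exact e_inj hi (M x) ((M x).antisymm _ _ (e_dom hi (M x) a) (e_dom hi (M x) b)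
        (of_decide_eq_true h1) (of_decide_eq_true h2))
    · intro a b
      rcases (M x).total _ _ (e_dom hi (M x) a) (e_dom hi (M x) b) with h | h
      · exact Or.inl (decide_eq_true h)
      · exact Or.inr (decide_eq_true h)
  refine ⟨fun x => ⟨_, hc x⟩, ?_, ?_⟩
  · refine meas_LO fun p => ?_
    simp only [decide_eq_true_eq]
    exact meas_le hM hi p.1 p.2
  · intro x
    let F : (PO.ofLO ⟨_, hc x⟩).T → (M x).T := fun n => ⟨e hi (M x) n.1, e_dom hi (M x) n.1⟩
    have hF : Function.Bijective F := by
      constructor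
      · intro m n h
        exact Subtype.ext (e_inj hi (M x) (congrArg Subtype.val h))
      · rintro ⟨a, ha⟩
        obtain ⟨n, hn⟩ := e_surj hi (M x) a ha
        exact ⟨⟨n, trivial⟩, Subtype.ext hn⟩
    have hFo : ∀ m n, F m ≤ F n ↔ m ≤ n := by
      intro m n
      exact (decide_eq_true_iff (p := (M x).le (e hi (M x) m.1) (e hi (M x) n.1))).symm
    exact ⟨(⟨Equiv.ofBijective F hF, fun {m n} => hFo m n⟩ : (PO.ofLO ⟨_, hc x⟩).T ≃o (M x).T).symm⟩

end Pool.Agent.H742.PW
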