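import Pool.Agent.H742.PW.Stm

/-!
# MP_9f2d77_lc: task DECA (the target orders are fixed)
-/

set_option autoImplicit false

namespace Pool.Agent.H742.PW
open Set MeasureTheory Pool.Agent.HLead.CB

namespace DECA

variable {E E' : Type}

theorem ILt_congr {α α' β β' : Type} [LinearOrder α] [LinearOrder α'] [LinearOrder β]
    [LinearOrder β'] (e : α ≃o α') (e' : β ≃o β') (h : ILt α β) : ILt α' β' := by
  obtain ⟨f, hf⟩ := h
  refine ⟨(e.symm.toOrderEmbedding.trans f).trans e'.toOrderEmbedding, ?_⟩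
  intro a b hb
  have h1 : e'.symm b ≤ f (e.symm a) := by
    have h2 : e'.symm b ≤ e'.symm (e' (f (e.symm a))) := e'.symm.monotone hb
    rwa [e'.symm_apply_apply] at h2
  obtain ⟨a', ha'⟩ := hf _ _ h1
  refine ⟨e a', ?_⟩
  show e' (f (e.symm (e a'))) = b
  rw [e.symm_apply_apply, ha', e'.apply_symm_apply]

theorem ILt_iff {α α' β β' : Type} [LinearOrder α] [LinearOrder α'] [LinearOrder β]
    [LinearOrder β'] (e : α ≃o α') (e' : β ≃o β') : ILt α β ↔ ILt α' β' :=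
  ⟨ILt_congr e e', ILt_congr e.symm e'.symm⟩

theorem FLt_iff_dual {α β : Type} [LinearOrder α] [LinearOrder β] :
    FLt α β ↔ ILt αᵒᵈ βᵒᵈ := by
  constructor
  · rintro ⟨f, hf⟩
    exact ⟨f.dual, fun a b hb => hf a b hb⟩
  · rintro ⟨f, hf⟩
    exact ⟨f.dual, fun a b hb => hf a b hb⟩

def leiIso (M : PO E) (a : M.T) : (M.lei a.1).T ≃o Iic a where
  toFun z := ⟨⟨z.1, z.2.1⟩, z.2.2⟩
  invFun z := ⟨z.1.1, z.1.2, z.2⟩
  left_inv _ := rfl
  right_inv _ := rfl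
  map_rel_iff' := Iff.rfl

def geiIso (M : PO E) (a : M.T) : (M.gei a.1).T ≃o Ici a where
  toFun z := ⟨⟨z.1, z.2.1⟩, z.2.2⟩
  invFun z := ⟨z.1.1, z.1.2, z.2⟩
  left_inv _ := rfl
  right_inv _ := rfl
  map_rel_iff' := Iff.rfl

def revIso (M : PO E) : M.rev.T ≃o (M.T)ᵒᵈ where
  toFun z := OrderDual.toDual (⟨z.1, z.2⟩ : M.T)
  invFun z := ⟨(OrderDual.ofDual z).1, (OrderDual.ofDual z).2⟩
  left_inv _ := rfl
  right_inv _ := rfl
  map_rel_iff' := Iff.rfl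

/-- the set `A` of `A1`, as a subset of `E` -/
def sA (N : PO E) (M : PO E') : Set E := {a | ∃ b, M.dom b ∧ Iso (M.lei b) (N.lei a)}

/-- the set `B` of `A1`, as a subset of `E` -/
def sB (N : PO E) (M : PO E') : Set E := {a | ∃ b, M.dom b ∧ Iso (M.gei b) (N.gei a)}

theorem mem_sA (N : PO E) (M : PO E') (z : N.T) :
    z.1 ∈ sA N M ↔ ∃ b : M.T, Nonempty (Iic z ≃o Iic b) := by
  constructor
  · rintro ⟨b, hb, ⟨e⟩⟩
    exact ⟨⟨b, hb⟩, ⟨((leiIso N z).symm.trans e.symm).trans (leiIso M ⟨b, hb⟩)⟩⟩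
  · rintro ⟨b, ⟨e⟩⟩
    exact ⟨b.1, b.2, ⟨((leiIso M b).trans e.symm).trans (leiIso N z).symm⟩⟩

theorem mem_sB (N : PO E) (M : PO E') (z : N.T) :
    z.1 ∈ sB N M ↔ ∃ b : M.T, Nonempty (Ici z ≃o Ici b) := by
  constructor
  · rintro ⟨b, hb, ⟨e⟩⟩
    exact ⟨⟨b, hb⟩, ⟨((geiIso N z).symm.trans e.symm).trans (geiIso M ⟨b, hb⟩)⟩⟩
  · rintro ⟨b, ⟨e⟩⟩
    exact ⟨b.1, b.2, ⟨((geiIso M b).trans e.symm).trans (geiIso N z).symm⟩⟩

theorem setA (N : PO E) (M : PO E') :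
    {z : N.T | ∃ b : M.T, Nonempty (Iic z ≃o Iic b)} = {z : N.T | z.1 ∈ sA N M} := by
  ext z
  exact (mem_sA N M z).symm

theorem setB (N : PO E) (M : PO E') :
    {z : N.T | ∃ b : M.T, Nonempty (Ici z ≃o Ici b)} = {z : N.T | z.1 ∈ sB N M} := by
  ext z
  exact (mem_sB N M z).symm

theorem il_A (N : PO E) (M : PO E') :
    ILt {z : N.T | ∃ b : M.T, Nonempty (Iic z ≃o Iic b)} M.T ↔ IL (N.restr (sA N M)) M := by
  rw [setA]
  exact ILt_iff (restrIso N (sA N M)).symm (OrderIso.refl _)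

theorem fl_B (N : PO E) (M : PO E') :
    FLt {z : N.T | ∃ b : M.T, Nonempty (Ici z ≃o Ici b)} M.T ↔
      IL (N.restr (sB N M)).rev M.rev := by
  rw [setB, FLt_iff_dual]
  exact ILt_iff ((restrIso N (sB N M)).symm.dual.trans (revIso _).symm) (revIso M).symm

variable {X : Type} [MeasurableSpace X]

theorem meas_sA (hI : S_ISO) [Countable E] [Countable E'] {N : X → PO E} (hN : Fam N) (M : PO E')
    (a : E) : MeasurableSet {x | a ∈ sA (N x) M} := by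
  have h : {x | a ∈ sA (N x) M} = ⋃ b : E', {x | M.dom b ∧ Iso (M.lei b) ((N x).lei a)} := by
    ext x
    simp only [mem_ofPred_eq, mem_iUnion]
    rfl
  rw [h]
  refine MeasurableSet.iUnion fun b => ?_
  exact (MeasurableSet.const _).inter (hI E' E X (M.lei b) (fun x => (N x).lei a) (hN.lei a))

theorem meas_sB (hI : S_ISO) [Countable E] [Countable E'] {N : X → PO E} (hN : Fam N) (M : PO E')
    (a : E) : MeasurableSet {x | a ∈ sB (N x) M} := by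
  have h : {x | a ∈ sB (N x) M} = ⋃ b : E', {x | M.dom b ∧ Iso (M.gei b) ((N x).gei a)} := by
    ext x
    simp only [mem_ofPred_eq, mem_iUnion]
    rfl
  rw [h]
  refine MeasurableSet.iUnion fun b => ?_
  exact (MeasurableSet.const _).inter (hI E' E X (M.gei b) (fun x => (N x).gei a) (hN.gei a))

theorem dect_iff (hA : S_A1) {E₁ E₂ : Type} (N : PO E) (M₁ : PO E₁) (M₂ : PO E₂) :
    Dect N.T M₁.T M₂.T ↔
      (∀ a, N.dom a → a ∈ sA N M₁ ∨ a ∈ sB N M₂) ∧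
      ((∃ a, N.dom a ∧ a ∈ sA N M₁ ∧ a ∈ sB N M₂) ∨
        (IL (N.restr (sA N M₁)) M₁ ∧ IL (N.restr (sB N M₂)).rev M₂.rev)) := by
  rw [hA N.T M₁.T M₂.T, il_A, fl_B]
  refine and_congr ?_ (or_congr ?_ Iff.rfl)
  · constructor
    · intro h a ha
      have := h ⟨a, ha⟩
      rwa [← mem_sA, ← mem_sB] at this
    · intro h z
      rw [← mem_sA, ← mem_sB]
      exact h z.1 z.2
  · constructor
    · rintro ⟨z, h1, h2⟩
      exact ⟨z.1, z.2, (mem_sA _ _ z).2 h1, (mem_sB _ _ z).2 h2⟩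
    · rintro ⟨a, ha, h1, h2⟩
      exact ⟨⟨a, ha⟩, (mem_sA N M₁ ⟨a, ha⟩).1 h1, (mem_sB N M₂ ⟨a, ha⟩).1 h2⟩

end DECA

theorem t_DECA : S_ISO → S_CLA → S_A1 → S_DECA := by
  intro hI hC hA E E₁ E₂ X _ _ _ _ N M₁ M₂ hN
  have mA : ∀ a, MeasurableSet {x | a ∈ DECA.sA (N x) M₁} := DECA.meas_sA hI hN M₁
  have mB : ∀ a, MeasurableSet {x | a ∈ DECA.sB (N x) M₂} := DECA.meas_sB hI hN M₂
  have h : {x | Dect (N x).T M₁.T M₂.T} =
      (⋂ a : E, ({x | (N x).dom a}ᶜ ∪ ({x | a ∈ DECA.sA (N x) M₁} ∪ {x | a ∈ DECA.sB (N x) M₂}))) ∩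
      ((⋃ a : E, ({x | (N x).dom a} ∩ ({x | a ∈ DECA.sA (N x) M₁} ∩ {x | a ∈ DECA.sB (N x) M₂}))) ∪
        ({x | IL ((N x).restr (DECA.sA (N x) M₁)) M₁} ∩
          {x | IL ((N x).restr (DECA.sB (N x) M₂)).rev M₂.rev})) := by
    ext x
    rw [mem_ofPred_eq, DECA.dect_iff hA (N x) M₁ M₂]
    simp only [mem_inter_iff, mem_iInter, mem_union, mem_compl_iff, mem_ofPred_eq, mem_iUnion,
      imp_iff_not_or]
  rw [h]
  refine MeasurableSet.inter ?_ (MeasurableSet.union ?_ (MeasurableSet.inter ?_ ?_))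
  · exact MeasurableSet.iInter fun a => (hN.1 a).compl.union ((mA a).union (mB a))
  · exact MeasurableSet.iUnion fun a => (hN.1 a).inter ((mA a).inter (mB a))
  · exact hC E₁ E X M₁ (fun x => (N x).restr (DECA.sA (N x) M₁)) (hN.restr mA)
  · exact hC E₂ E X M₂.rev (fun x => ((N x).restr (DECA.sB (N x) M₂)).rev) (hN.restr mB).rev

end Pool.Agent.H742.PW
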