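import Pool.Agent.H742.PW.Stm

/-!
# TASK DECB (MP_9f2d77_lc)
-/

set_option autoImplicit false
set_option linter.all false

namespace Pool.Agent.H742.PW
open Set MeasureTheory Pool.Agent.HLead.CB

namespace DECB

variable {E E' : Type}

/-- the closed initial segment -/
def leiIso (M : PO E) (a : M.T) : (M.lei a.1).T ≃o Iic a where
  toFun z := ⟨⟨z.1, z.2.1⟩, z.2.2⟩
  invFun z := ⟨z.1.1, z.1.2, z.2⟩
  left_inv _ := rfl
  right_inv _ := rfl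
  map_rel_iff' := Iff.rfl

/-- the closed final segment -/
def geiIso (M : PO E) (a : M.T) : (M.gei a.1).T ≃o Ici a where
  toFun z := ⟨⟨z.1, z.2.1⟩, z.2.2⟩
  invFun z := ⟨z.1.1, z.1.2, z.2⟩
  left_inv _ := rfl
  right_inv _ := rfl
  map_rel_iff' := Iff.rfl

/-- the reversal -/
def revIso (M : PO E) : M.rev.T ≃o (M.T)ᵒᵈ where
  toFun z := OrderDual.toDual ⟨z.1, z.2⟩
  invFun z := ⟨(OrderDual.ofDual z).1, (OrderDual.ofDual z).2⟩
  left_inv _ := rfl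
  right_inv _ := rfl
  map_rel_iff' := Iff.rfl

/-- a point -/
def mk (M : PO E) (a : E) (h : M.dom a) : M.T := ⟨a, h⟩

/-- the forward map of the sum -/
def addTo (M : PO E) (N : PO E') : (M.add N).T → M.T ⊕ₗ N.T
  | ⟨.inl a, h⟩ => toLex (Sum.inl (mk M a h))
  | ⟨.inr a, h⟩ => toLex (Sum.inr (mk N a h))

/-- the inverse map of the sum -/
def addFrom (M : PO E) (N : PO E') (z : M.T ⊕ₗ N.T) : (M.add N).T :=
  match ofLex z with
  | .inl a => ⟨.inl a.1, a.2⟩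
  | .inr a => ⟨.inr a.1, a.2⟩

/-- the sum -/
def addIso (M : PO E) (N : PO E') : (M.add N).T ≃o M.T ⊕ₗ N.T where
  toFun := addTo M N
  invFun := addFrom M N
  left_inv := by
    rintro ⟨a | a, h⟩ <;> rfl
  right_inv := by
    intro z
    rcases z with a | a <;> rfl
  map_rel_iff' := by
    rintro ⟨a | a, h⟩ ⟨b | b, h'⟩
    · exact (Sum.Lex.inl_le_inl_iff (a := mk M a h) (b := mk M b h') (β := N.T)).trans Iff.rfl
    · exact ⟨fun _ => trivial, fun _ => Sum.Lex.inl_le_inr (mk M a h) (mk N b h')⟩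
    · exact ⟨fun h1 => absurd h1 (Sum.Lex.not_inr_le_inl (a := mk M b h') (b := mk N a h)),
        fun h1 => False.elim h1⟩
    · exact (Sum.Lex.inr_le_inr_iff (a := mk N a h) (b := mk N b h') (α := M.T)).trans Iff.rfl

/-- sums of isomorphisms -/
def sumIso {α α' β β' : Type} [LinearOrder α] [LinearOrder α'] [LinearOrder β] [LinearOrder β']
    (e : α ≃o α') (f : β ≃o β') : (α ⊕ₗ β) ≃o (α' ⊕ₗ β') :=
  OrderIso.sumLexCongr e f

theorem iso_iff {M : PO E} {N : PO E'} {α β : Type} [LinearOrder α] [LinearOrder β]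
    (e : M.T ≃o α) (f : N.T ≃o β) : Iso M N ↔ Nonempty (α ≃o β) :=
  ⟨fun ⟨h⟩ => ⟨(e.symm.trans h).trans f⟩, fun ⟨h⟩ => ⟨(e.trans h).trans f.symm⟩⟩

theorem ILt_of {α β α' β' : Type} [LinearOrder α] [LinearOrder β] [LinearOrder α'] [LinearOrder β']
    (e : α ≃o α') (f : β ≃o β') (h : ILt α β) : ILt α' β' := by
  obtain ⟨g, hg⟩ := h
  refine ⟨(e.symm.toOrderEmbedding.trans g).trans f.toOrderEmbedding, fun a b hb => ?_⟩
  have h1 : f.symm b ≤ g (e.symm a) := by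
    have : b ≤ f (g (e.symm a)) := hb
    rw [← f.symm_apply_apply (g (e.symm a))]
    exact f.symm.monotone this
  obtain ⟨a', ha'⟩ := hg _ _ h1
  refine ⟨e a', ?_⟩
  show f (g (e.symm (e a'))) = b
  rw [e.symm_apply_apply, ha', f.apply_symm_apply]

theorem ILt_iff {α β α' β' : Type} [LinearOrder α] [LinearOrder β] [LinearOrder α'] [LinearOrder β']
    (e : α ≃o α') (f : β ≃o β') : ILt α β ↔ ILt α' β' :=
  ⟨ILt_of e f, ILt_of e.symm f.symm⟩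

theorem FLt_iff_dual {α β : Type} [LinearOrder α] [LinearOrder β] : FLt α β ↔ ILt αᵒᵈ βᵒᵈ := by
  constructor
  · rintro ⟨f, hf⟩
    exact ⟨f.dual, fun a b h => hf a b h⟩
  · rintro ⟨f, hf⟩
    exact ⟨f.dual, fun a b h => hf a b h⟩

theorem mex {X ι : Type} [Countable ι] [MeasurableSpace X] {p : ι → X → Prop}
    (h : ∀ i, MeasurableSet {x | p i x}) : MeasurableSet {x | ∃ i, p i x} := by
  rw [setOf_exists]
  exact MeasurableSet.iUnion h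

theorem mall {X ι : Type} [Countable ι] [MeasurableSpace X] {p : ι → X → Prop}
    (h : ∀ i, MeasurableSet {x | p i x}) : MeasurableSet {x | ∀ i, p i x} := by
  rw [setOf_forall]
  exact MeasurableSet.iInter h

theorem mand {X : Type} [MeasurableSpace X] {p q : X → Prop}
    (h : MeasurableSet {x | p x}) (h' : MeasurableSet {x | q x}) : MeasurableSet {x | p x ∧ q x} :=
  h.inter h'

theorem mor {X : Type} [MeasurableSpace X] {p q : X → Prop}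
    (h : MeasurableSet {x | p x}) (h' : MeasurableSet {x | q x}) : MeasurableSet {x | p x ∨ q x} :=
  h.union h'

/-- the set `A` -/
def sA (N : PO E) (M : PO E') : Set E := {a | ∃ b, M.dom b ∧ Iso (N.lei a) (M.lei b)}
/-- the set `B` -/
def sB (N : PO E) (M : PO E') : Set E := {a | ∃ b, M.dom b ∧ Iso (N.gei a) (M.gei b)}
/-- the set `U` -/
def sU (N : PO E) (M : PO E') : Set E' := {b | ∃ a, N.dom a ∧ Iso (N.lei a) (M.lei b)}
/-- the set `V` -/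
def sV (N : PO E) (M : PO E') : Set E' := {b | ∃ a, N.dom a ∧ Iso (N.gei a) (M.gei b)}

theorem hA (N : PO E) (M : PO E') :
    {z : N.T | z.1 ∈ sA N M} = {x : N.T | ∃ b : M.T, Nonempty (Iic x ≃o Iic b)} := by
  ext a
  constructor
  · rintro ⟨b, hb, h⟩
    exact ⟨⟨b, hb⟩, (iso_iff (leiIso N a) (leiIso M ⟨b, hb⟩)).1 h⟩
  · rintro ⟨b, h⟩
    exact ⟨b.1, b.2, (iso_iff (leiIso N a) (leiIso M b)).2 h⟩

theorem hB (N : PO E) (M : PO E') :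
    {z : N.T | z.1 ∈ sB N M} = {x : N.T | ∃ b : M.T, Nonempty (Ici x ≃o Ici b)} := by
  ext a
  constructor
  · rintro ⟨b, hb, h⟩
    exact ⟨⟨b, hb⟩, (iso_iff (geiIso N a) (geiIso M ⟨b, hb⟩)).1 h⟩
  · rintro ⟨b, h⟩
    exact ⟨b.1, b.2, (iso_iff (geiIso N a) (geiIso M b)).2 h⟩

theorem hU (N : PO E) (M : PO E') :
    {z : M.T | z.1 ∈ sU N M} = {b : M.T | ∃ x : N.T, Nonempty (Iic x ≃o Iic b)} := by
  ext b
  constructor
  · rintro ⟨a, ha, h⟩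
    exact ⟨⟨a, ha⟩, (iso_iff (leiIso N ⟨a, ha⟩) (leiIso M b)).1 h⟩
  · rintro ⟨a, h⟩
    exact ⟨a.1, a.2, (iso_iff (leiIso N a) (leiIso M b)).2 h⟩

theorem hV (N : PO E) (M : PO E') :
    {z : M.T | z.1 ∈ sV N M} = {b : M.T | ∃ x : N.T, Nonempty (Ici x ≃o Ici b)} := by
  ext b
  constructor
  · rintro ⟨a, ha, h⟩
    exact ⟨⟨a, ha⟩, (iso_iff (geiIso N ⟨a, ha⟩) (geiIso M b)).1 h⟩
  · rintro ⟨a, h⟩
    exact ⟨a.1, a.2, (iso_iff (geiIso N a) (geiIso M b)).2 h⟩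

theorem IL_lei (N : PO E) (s : Set E) (a : N.T) :
    ILt {z : N.T | z.1 ∈ s} (Iic a) ↔ IL (N.restr s) (N.lei a.1) :=
  ILt_iff (restrIso N s).symm (leiIso N a).symm

theorem FL_gei (N : PO E) (s : Set E) (a : N.T) :
    FLt {z : N.T | z.1 ∈ s} (Ici a) ↔ IL (N.restr s).rev (N.gei a.1).rev := by
  rw [FLt_iff_dual]
  exact ILt_iff ((restrIso N s).dual.symm.trans (revIso _).symm)
    ((geiIso N a).dual.symm.trans (revIso _).symm)

theorem add_iff {E₁ E₂ : Type} (N : PO E) (M : PO E₁) (K : PO E₂) (s : Set E₁) (t : Set E₂) :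
    Nonempty (({z : M.T | z.1 ∈ s} ⊕ₗ {z : K.T | z.1 ∈ t}) ≃o N.T) ↔
      Iso N ((M.restr s).add (K.restr t)) := by
  rw [iso_iff (OrderIso.refl N.T)
    ((addIso (M.restr s) (K.restr t)).trans (sumIso (restrIso M s) (restrIso K t)))]
  exact ⟨fun ⟨h⟩ => ⟨h.symm⟩, fun ⟨h⟩ => ⟨h.symm⟩⟩

theorem main (hB2 : S_B2) {E₁ E₂ : Type} (N : PO E) (M : PO E₁) (K : PO E₂) :
    Dect N.T M.T K.T ↔ (∀ a, N.dom a → a ∈ sA N M ∨ a ∈ sB N K) ∧
      ((∃ a, N.dom a ∧ a ∈ sA N M ∧ a ∈ sB N K) ∨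
       ((∃ a, N.dom a ∧ a ∈ sA N M ∧ IL (N.restr (sA N M)) (N.lei a)) ∧
        (∃ a, N.dom a ∧ a ∈ sB N K ∧ IL (N.restr (sB N K)).rev (N.gei a).rev)) ∨
       ((∃ a, N.dom a ∧ a ∈ sA N M ∧ IL (N.restr (sA N M)) (N.lei a)) ∧
        Iso N ((N.restr (sA N M)).add (K.restr (sV N K)))) ∨
       ((∃ a, N.dom a ∧ a ∈ sB N K ∧ IL (N.restr (sB N K)).rev (N.gei a).rev) ∧
        Iso N ((M.restr (sU N M)).add (N.restr (sB N K)))) ∨
       Iso N ((M.restr (sU N M)).add (K.restr (sV N K)))) := by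
  rw [hB2 N.T M.T K.T {z : N.T | z.1 ∈ sA N M} {z : N.T | z.1 ∈ sB N K} {z : M.T | z.1 ∈ sU N M}
    {z : K.T | z.1 ∈ sV N K} (hA N M) (hB N K) (hU N M) (hV N K)]
  have e0 : (∀ x : N.T, x ∈ {z : N.T | z.1 ∈ sA N M} ∨ x ∈ {z : N.T | z.1 ∈ sB N K}) ↔
      ∀ a, N.dom a → a ∈ sA N M ∨ a ∈ sB N K :=
    ⟨fun h a ha => h ⟨a, ha⟩, fun h x => h x.1 x.2⟩
  have e1 : (∃ x : N.T, x ∈ {z : N.T | z.1 ∈ sA N M} ∧ x ∈ {z : N.T | z.1 ∈ sB N K}) ↔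
      ∃ a, N.dom a ∧ a ∈ sA N M ∧ a ∈ sB N K :=
    ⟨fun ⟨x, h⟩ => ⟨x.1, x.2, h⟩, fun ⟨a, ha, h⟩ => ⟨⟨a, ha⟩, h⟩⟩
  have e2 : (∃ x : N.T, x ∈ {z : N.T | z.1 ∈ sA N M} ∧ ILt {z : N.T | z.1 ∈ sA N M} (Iic x)) ↔
      ∃ a, N.dom a ∧ a ∈ sA N M ∧ IL (N.restr (sA N M)) (N.lei a) :=
    ⟨fun ⟨x, h, h'⟩ => ⟨x.1, x.2, h, (IL_lei N _ x).1 h'⟩,
      fun ⟨a, ha, h, h'⟩ => ⟨⟨a, ha⟩, h, (IL_lei N _ ⟨a, ha⟩).2 h'⟩⟩
  have e3 : (∃ x : N.T, x ∈ {z : N.T | z.1 ∈ sB N K} ∧ FLt {z : N.T | z.1 ∈ sB N K} (Ici x)) ↔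
      ∃ a, N.dom a ∧ a ∈ sB N K ∧ IL (N.restr (sB N K)).rev (N.gei a).rev :=
    ⟨fun ⟨x, h, h'⟩ => ⟨x.1, x.2, h, (FL_gei N _ x).1 h'⟩,
      fun ⟨a, ha, h, h'⟩ => ⟨⟨a, ha⟩, h, (FL_gei N _ ⟨a, ha⟩).2 h'⟩⟩
  rw [e0, e1, e2, e3, add_iff, add_iff, add_iff]

end DECB

open DECB in
theorem t_DECB : S_ISO → S_CLA → S_B2 → S_DECB := by
  intro hISO hCLA hB2 E E₁ E₂ X _ _ _ _ N M₁ M₂ h1 h2
  have hA : ∀ a, MeasurableSet {x | a ∈ sA N (M₁ x)} := fun a =>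
    mex fun b => mand (h1.1 b) (hISO E E₁ X (N.lei a) _ (h1.lei b))
  have hB : ∀ a, MeasurableSet {x | a ∈ sB N (M₂ x)} := fun a =>
    mex fun b => mand (h2.1 b) (hISO E E₂ X (N.gei a) _ (h2.gei b))
  have hU : ∀ b, MeasurableSet {x | b ∈ sU N (M₁ x)} := fun b =>
    mex fun a => mand (MeasurableSet.const _) (hISO E E₁ X (N.lei a) _ (h1.lei b))
  have hV : ∀ b, MeasurableSet {x | b ∈ sV N (M₂ x)} := fun b =>
    mex fun a => mand (MeasurableSet.const _) (hISO E E₂ X (N.gei a) _ (h2.gei b))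
  have fA : Fam (fun x => N.restr (sA N (M₁ x))) := (Fam.const N).restr hA
  have fB : Fam (fun x => N.restr (sB N (M₂ x))) := (Fam.const N).restr hB
  have fU : Fam (fun x => (M₁ x).restr (sU N (M₁ x))) := h1.restr hU
  have fV : Fam (fun x => (M₂ x).restr (sV N (M₂ x))) := h2.restr hV
  have m1 : MeasurableSet {x | ∃ a, N.dom a ∧ a ∈ sA N (M₁ x) ∧
      IL (N.restr (sA N (M₁ x))) (N.lei a)} :=
    mex fun a => mand (MeasurableSet.const _) (mand (hA a) (hCLA E E X (N.lei a) _ fA))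
  have m2 : MeasurableSet {x | ∃ a, N.dom a ∧ a ∈ sB N (M₂ x) ∧
      IL (N.restr (sB N (M₂ x))).rev (N.gei a).rev} :=
    mex fun a => mand (MeasurableSet.const _) (mand (hB a) (hCLA E E X (N.gei a).rev _ fB.rev))
  have key : {x | Dect N.T (M₁ x).T (M₂ x).T} = {x | (∀ a, N.dom a → a ∈ sA N (M₁ x) ∨
      a ∈ sB N (M₂ x)) ∧
      ((∃ a, N.dom a ∧ a ∈ sA N (M₁ x) ∧ a ∈ sB N (M₂ x)) ∨
       ((∃ a, N.dom a ∧ a ∈ sA N (M₁ x) ∧ IL (N.restr (sA N (M₁ x))) (N.lei a)) ∧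
        (∃ a, N.dom a ∧ a ∈ sB N (M₂ x) ∧ IL (N.restr (sB N (M₂ x))).rev (N.gei a).rev)) ∨
       ((∃ a, N.dom a ∧ a ∈ sA N (M₁ x) ∧ IL (N.restr (sA N (M₁ x))) (N.lei a)) ∧
        Iso N ((N.restr (sA N (M₁ x))).add ((M₂ x).restr (sV N (M₂ x))))) ∨
       ((∃ a, N.dom a ∧ a ∈ sB N (M₂ x) ∧ IL (N.restr (sB N (M₂ x))).rev (N.gei a).rev) ∧
        Iso N (((M₁ x).restr (sU N (M₁ x))).add (N.restr (sB N (M₂ x))))) ∨
       Iso N (((M₁ x).restr (sU N (M₁ x))).add ((M₂ x).restr (sV N (M₂ x)))))} := by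
    ext x
    exact main hB2 N (M₁ x) (M₂ x)
  rw [key]
  refine mand (mall fun a => ?_) (mor (mex fun a => ?_) (mor (mand m1 m2) (mor (mand m1 ?_)
    (mor (mand m2 ?_) ?_))))
  · by_cases ha : N.dom a
    · have : {x | N.dom a → a ∈ sA N (M₁ x) ∨ a ∈ sB N (M₂ x)} =
          {x | a ∈ sA N (M₁ x) ∨ a ∈ sB N (M₂ x)} := by
        ext x
        exact ⟨fun h => h ha, fun h _ => h⟩
      rw [this]
      exact mor (hA a) (hB a)
    · have : {x | N.dom a → a ∈ sA N (M₁ x) ∨ a ∈ sB N (M₂ x)} = univ := by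
        ext x
        exact ⟨fun _ => trivial, fun _ h => absurd h ha⟩
      rw [this]
      exact MeasurableSet.univ
  · exact mand (MeasurableSet.const _) (mand (hA a) (hB a))
  · exact hISO E (E ⊕ E₂) X N _ (fA.add fV)
  · exact hISO E (E₁ ⊕ E) X N _ (fU.add fB)
  · exact hISO E (E₁ ⊕ E₂) X N _ (fU.add fV)

end Pool.Agent.H742.PW
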