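import Pool.Agent.H742.PW.Stm
import Pool.Graph.R_pool_sql_team_941085ca.H23.Scott

/-!
# PW: the isomorphism class of a countable linear order is Borel
-/

set_option autoImplicit false

namespace Pool.Agent.H742.PW

open Set MeasureTheory

namespace ISO

open Pool.Agent.H23.Scott

variable {E E' : Type}

/-- names of the atomic facts -/
abbrev Qf (k : ℕ) : Type := Fin k × Fin k × Bool

/-- the system of an order -/
def sys (N : PO E) : Sys E Qf where
  valid := N.dom
  T _ u := {q | (q.2.2 = true ∧ N.le (u q.1) (u q.2.1)) ∨ (q.2.2 = false ∧ u q.1 = u q.2.1)}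

theorem T_le {N : PO E} {M : PO E'} {k : ℕ} {u : Fin k → E} {v : Fin k → E'}
    (h : (sys N).T k u = (sys M).T k v) (i j : Fin k) : N.le (u i) (u j) ↔ M.le (v i) (v j) := by
  have h1 : (i, j, true) ∈ (sys N).T k u ↔ (i, j, true) ∈ (sys M).T k v := by rw [h]
  have h2 : (i, j, true) ∈ (sys N).T k u ↔ N.le (u i) (u j) := by
    constructor
    · rintro (⟨-, h⟩ | ⟨h, -⟩)
      · exact h
      · exact absurd h (by simp)
    · intro h
      exact Or.inl ⟨rfl, h⟩
  have h3 : (i, j, true) ∈ (sys M).T k v ↔ M.le (v i) (v j) := by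
    constructor
    · rintro (⟨-, h⟩ | ⟨h, -⟩)
      · exact h
      · exact absurd h (by simp)
    · intro h
      exact Or.inl ⟨rfl, h⟩
  rw [← h2, h1, h3]

theorem T_eq {N : PO E} {M : PO E'} {k : ℕ} {u : Fin k → E} {v : Fin k → E'}
    (h : (sys N).T k u = (sys M).T k v) (i j : Fin k) : u i = u j ↔ v i = v j := by
  have h1 : (i, j, false) ∈ (sys N).T k u ↔ (i, j, false) ∈ (sys M).T k v := by rw [h]
  have h2 : (i, j, false) ∈ (sys N).T k u ↔ u i = u j := by
    constructor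
    · rintro (⟨h, -⟩ | ⟨-, h⟩)
      · exact absurd h (by simp)
      · exact h
    · intro h
      exact Or.inr ⟨rfl, h⟩
  have h3 : (i, j, false) ∈ (sys M).T k v ↔ v i = v j := by
    constructor
    · rintro (⟨h, -⟩ | ⟨-, h⟩)
      · exact absurd h (by simp)
      · exact h
    · intro h
      exact Or.inr ⟨rfl, h⟩
  rw [← h2, h1, h3]

theorem iso_of_BF [Countable E] [Countable E'] (N : PO E) (M : PO E')
    {G : ∀ k : ℕ, (Fin k → E) → (Fin k → E') → Prop} (h : BF (sys N) (sys M) G) : Iso N M := by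
  by_cases hN : Nonempty N.T
  · obtain ⟨a0⟩ := hN
    obtain ⟨b0, hb0, -⟩ := h.forth 0 Fin.elim0 Fin.elim0 (h.start _ _) a0.1 a0.2
    have : Nonempty {a // (sys N).valid a} := ⟨a0⟩
    have : Nonempty {b // (sys M).valid b} := ⟨⟨b0, hb0⟩⟩
    obtain ⟨e₁, he₁⟩ := exists_surjective_nat {a // (sys N).valid a}
    obtain ⟨e₂, he₂⟩ := exists_surjective_nat {b // (sys M).valid b}
    obtain ⟨U, V, hG, hU, hV, hU2, hV2⟩ := exists_enum (sys N) (sys M) h e₁ e₂
    have hle : ∀ i j : ℕ, N.le (U i) (U j) ↔ M.le (V i) (V j) := fun i j =>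
      T_le (h.facts _ _ _ (hG (max i j + 1))) ⟨i, by omega⟩ ⟨j, by omega⟩
    have heq : ∀ i j : ℕ, U i = U j ↔ V i = V j := fun i j =>
      T_eq (h.facts _ _ _ (hG (max i j + 1))) ⟨i, by omega⟩ ⟨j, by omega⟩
    have hN1 : ∀ a : N.T, ∃ i, U i = a.1 := fun a => by
      obtain ⟨j, hj⟩ := he₁ a
      exact ⟨2 * j, by rw [hU2, hj]⟩
    have hM1 : ∀ b : M.T, ∃ i, V i = b.1 := fun b => by
      obtain ⟨j, hj⟩ := he₂ b
      exact ⟨2 * j + 1, by rw [hV2, hj]⟩
    choose iN hiN using hN1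
    choose iM hiM using hM1
    refine ⟨{
      toFun := fun a => ⟨V (iN a), hV _⟩
      invFun := fun b => ⟨U (iM b), hU _⟩
      left_inv := fun a => ?_
      right_inv := fun b => ?_
      map_rel_iff' := fun {a b} => ?_ }⟩
    · apply Subtype.ext
      have h1 := hiM ⟨V (iN a), hV _⟩
      exact ((heq _ _).2 h1).trans (hiN a)
    · apply Subtype.ext
      have h1 := hiN ⟨U (iM b), hU _⟩
      exact ((heq _ _).1 h1).trans (hiM b)
    · show M.le (V (iN a)) (V (iN b)) ↔ N.le a.1 b.1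
      rw [← hle, hiN, hiN]
  · have h1 : IsEmpty N.T := not_nonempty_iff.1 hN
    have h2 : IsEmpty M.T := ⟨fun b => by
      obtain ⟨a, ha, -⟩ := h.back 0 Fin.elim0 Fin.elim0 (h.start _ _) b.1 b.2
      exact h1.false ⟨a, ha⟩⟩
    exact ⟨{
      toFun := fun a => (h1.false a).elim
      invFun := fun b => (h2.false b).elim
      left_inv := fun a => (h1.false a).elim
      right_inv := fun b => (h2.false b).elim
      map_rel_iff' := fun {a} => (h1.false a).elim }⟩

theorem BF_of_iso (N : PO E) (M : PO E') (h : Iso N M) : ∃ G, BF (sys N) (sys M) G := by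
  obtain ⟨e⟩ := h
  refine ⟨fun k u v => ∀ i, ∃ h : N.dom (u i), (e ⟨u i, h⟩).1 = v i, ?_, ?_, ?_, ?_⟩
  · intro u v i
    exact i.elim0
  · intro k u v hG
    have hle : ∀ i j, N.le (u i) (u j) ↔ M.le (v i) (v j) := by
      intro i j
      obtain ⟨h1, h2⟩ := hG i
      obtain ⟨h3, h4⟩ := hG j
      rw [← h2, ← h4]
      exact (e.le_iff_le (x := ⟨u i, h1⟩) (y := ⟨u j, h3⟩)).symm
    have heq : ∀ i j, u i = u j ↔ v i = v j := by
      intro i j
      obtain ⟨h1, h2⟩ := hG i
      obtain ⟨h3, h4⟩ := hG j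
      rw [← h2, ← h4]
      constructor
      · intro h5
        have : (⟨u i, h1⟩ : N.T) = ⟨u j, h3⟩ := Subtype.ext h5
        rw [this]
      · intro h5
        have h6 : e ⟨u i, h1⟩ = e ⟨u j, h3⟩ := Subtype.ext h5
        exact congrArg Subtype.val (e.injective h6)
    ext q
    show ((q.2.2 = true ∧ N.le (u q.1) (u q.2.1)) ∨ (q.2.2 = false ∧ u q.1 = u q.2.1)) ↔
      ((q.2.2 = true ∧ M.le (v q.1) (v q.2.1)) ∨ (q.2.2 = false ∧ v q.1 = v q.2.1))
    rw [hle, heq]
  · intro k u v hG a ha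
    refine ⟨(e ⟨a, ha⟩).1, (e ⟨a, ha⟩).2, fun i => ?_⟩
    induction i using Fin.lastCases with
    | last =>
      simp only [Fin.snoc_last]
      exact ⟨ha, trivial⟩
    | cast j =>
      simp only [Fin.snoc_castSucc]
      exact hG j
  · intro k u v hG b hb
    refine ⟨(e.symm ⟨b, hb⟩).1, (e.symm ⟨b, hb⟩).2, fun i => ?_⟩
    induction i using Fin.lastCases with
    | last =>
      simp only [Fin.snoc_last]
      refine ⟨(e.symm ⟨b, hb⟩).2, ?_⟩
      exact congrArg Subtype.val (e.apply_symm_apply ⟨b, hb⟩)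
    | cast j =>
      simp only [Fin.snoc_castSucc]
      exact hG j

end ISO

theorem t_ISO : S_ISO := by
  intro E E' X _ _ _ N M hM
  have h : {x | Iso N (M x)} = {x | ∃ G, Pool.Agent.H23.Scott.BF (ISO.sys N) (ISO.sys (M x)) G} := by
    ext x
    exact ⟨fun h => ISO.BF_of_iso N (M x) h, fun ⟨G, hG⟩ => ISO.iso_of_BF N (M x) hG⟩
  rw [h, measurableSet_setOfPred]
  refine Pool.Agent.H23.Scott.meas_exists_BF (ISO.sys N) (fun x => ISO.sys (M x)) ?_ ?_
  · intro e
    exact measurableSet_setOfPred.1 (hM.1 e)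
  · intro k v q
    exact (measurable_const.and (measurableSet_setOfPred.1 (hM.2 _ _))).or measurable_const

end Pool.Agent.H742.PW
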