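import Pool.Agent.H742.PW.Stm

/-!
# Task MEA1 (helper415): Borelness of piecewise embeddability into a fixed order
-/

set_option autoImplicit false

namespace Pool.Agent.H742.PW
open Set MeasureTheory Pool.Agent.HLead.CB

namespace MEA1

section iso

variable {E : Type}

/-- the points of a restriction -/
def ri (M : PO E) (s : Set E) (t : Set M.T) (h : ∀ z : M.T, z ∈ t ↔ z.1 ∈ s) :
    (M.restr s).T ≃o t where
  toFun z := ⟨⟨z.1, z.2.1⟩, (h _).2 z.2.2⟩
  invFun z := ⟨z.1.1, z.1.2, (h _).1 z.2⟩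
  left_inv _ := rfl
  right_inv _ := rfl
  map_rel_iff' := Iff.rfl

/-- the points of the order of a type -/
def oi (α : Type) [LinearOrder α] : (PO.of α).T ≃o α where
  toFun z := z.1
  invFun a := ⟨a, trivial⟩
  left_inv _ := rfl
  right_inv _ := rfl
  map_rel_iff' := Iff.rfl

/-- the points of the reversed order -/
def rvi (M : PO E) : M.rev.T ≃o M.Tᵒᵈ where
  toFun z := OrderDual.toDual (⟨z.1, z.2⟩ : M.T)
  invFun z := ⟨(OrderDual.ofDual z).1, (OrderDual.ofDual z).2⟩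
  left_inv _ := rfl
  right_inv _ := rfl
  map_rel_iff' := Iff.rfl

end iso

section congr

variable {α α' β β' γ γ' : Type} [LinearOrder α] [LinearOrder α'] [LinearOrder β] [LinearOrder β']
  [LinearOrder γ] [LinearOrder γ']

theorem il_of (e : α ≃o α') (e' : β ≃o β') (h : ILt α β) : ILt α' β' := by
  obtain ⟨f, hf⟩ := h
  refine ⟨(e.symm.toOrderEmbedding.trans f).trans e'.toOrderEmbedding, fun a b hb => ?_⟩
  have hb' : b ≤ e' (f (e.symm a)) := hb
  obtain ⟨a', ha'⟩ := hf (e.symm a) (e'.symm b) (by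
    rw [← e'.le_iff_le, e'.apply_symm_apply]
    exact hb')
  refine ⟨e a', ?_⟩
  show e' (f (e.symm (e a'))) = b
  rw [e.symm_apply_apply, ha', e'.apply_symm_apply]

theorem fl_of (e : α ≃o α') (e' : β ≃o β') (h : FLt α β) : FLt α' β' := by
  obtain ⟨f, hf⟩ := h
  refine ⟨(e.symm.toOrderEmbedding.trans f).trans e'.toOrderEmbedding, fun a b hb => ?_⟩
  have hb' : e' (f (e.symm a)) ≤ b := hb
  obtain ⟨a', ha'⟩ := hf (e.symm a) (e'.symm b) (by
    rw [← e'.le_iff_le, e'.apply_symm_apply]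
    exact hb')
  refine ⟨e a', ?_⟩
  show e' (f (e.symm (e a'))) = b
  rw [e.symm_apply_apply, ha', e'.apply_symm_apply]

theorem fl_iff : FLt α β ↔ ILt αᵒᵈ βᵒᵈ := by
  constructor
  · rintro ⟨f, hf⟩
    exact ⟨f.dual, fun a b hb => by
      obtain ⟨a', ha'⟩ := hf (OrderDual.ofDual a) (OrderDual.ofDual b) hb
      exact ⟨OrderDual.toDual a', congrArg OrderDual.toDual ha'⟩⟩
  · rintro ⟨f, hf⟩
    refine ⟨⟨⟨fun a => OrderDual.ofDual (f (OrderDual.toDual a)), fun a b h => ?_⟩, ?_⟩, ?_⟩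
    · exact OrderDual.toDual.injective (f.injective (OrderDual.ofDual.injective h))
    · intro a b
      exact f.le_iff_le
    · intro a b hb
      obtain ⟨a', ha'⟩ := hf (OrderDual.toDual a) (OrderDual.toDual b) hb
      exact ⟨OrderDual.ofDual a', congrArg OrderDual.ofDual ha'⟩

/-- an isomorphism restricted to a subset -/
def si (e : α ≃o α') (s : Set α) : s ≃o (e.symm ⁻¹' s : Set α') where
  toFun z := ⟨e z.1, by
    show e.symm (e z.1) ∈ s
    rw [e.symm_apply_apply]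
    exact z.2⟩
  invFun z := ⟨e.symm z.1, z.2⟩
  left_inv z := Subtype.ext (e.symm_apply_apply z.1)
  right_inv z := Subtype.ext (e.apply_symm_apply z.1)
  map_rel_iff' := e.le_iff_le

theorem dec_of (e : α ≃o α') (e' : β ≃o β') (e'' : γ ≃o γ') (h : Dect α β γ) : Dect α' β' γ' := by
  obtain ⟨s, hs, h1, h2⟩ := h
  refine ⟨e.symm ⁻¹' s, fun a b hab ha => hs (e.symm.le_iff_le.2 hab) ha, il_of (si e s) e' h1, ?_⟩
  exact fl_of (si e sᶜ) e'' h2

end congr

section meas

variable {E X : Type} [Countable E] [MeasurableSpace X] {N : X → PO E}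

theorem meas_IL (hC : S_CLA) (hN : Fam N) (γ : Type) [LinearOrder γ] [Countable γ] :
    MeasurableSet {x | ILt (N x).T γ} := by
  have h := hC γ E X (PO.of γ) N hN
  have e1 : {x | ILt (N x).T γ} = {x | IL (N x) (PO.of γ)} := by
    ext x
    exact ⟨il_of (OrderIso.refl _) (oi γ).symm, il_of (OrderIso.refl _) (oi γ)⟩
  rw [e1]
  exact h

theorem meas_FL (hC : S_CLA) (hN : Fam N) (γ : Type) [LinearOrder γ] [Countable γ] :
    MeasurableSet {x | FLt (N x).T γ} := by
  have : Countable γᵒᵈ := inferInstanceAs (Countable γ)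
  have h := meas_IL hC hN.rev γᵒᵈ
  have e1 : {x | FLt (N x).T γ} = {x | ILt (N x).rev.T γᵒᵈ} := by
    ext x
    show FLt (N x).T γ ↔ ILt (N x).rev.T γᵒᵈ
    rw [fl_iff]
    exact ⟨il_of (rvi (N x)).symm (OrderIso.refl _), il_of (rvi (N x)) (OrderIso.refl _)⟩
  rw [e1]
  exact h

theorem meas_iso (hI : S_ISO) (hN : Fam N) (γ : Type) [LinearOrder γ] [Countable γ] :
    MeasurableSet {x | Nonempty ((N x).T ≃o γ)} := by
  have h := hI γ E X (PO.of γ) N hN
  have e1 : {x | Nonempty ((N x).T ≃o γ)} = {x | Iso (PO.of γ) (N x)} := by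
    ext x
    constructor
    · rintro ⟨e⟩
      exact ⟨(oi γ).trans e.symm⟩
    · rintro ⟨e⟩
      exact ⟨e.symm.trans (oi γ)⟩
  rw [e1]
  exact h

theorem meas_dec (hD : S_DECA) (hN : Fam N) (γ δ : Type) [LinearOrder γ] [Countable γ]
    [LinearOrder δ] [Countable δ] : MeasurableSet {x | Dect (N x).T γ δ} := by
  have h := hD E γ δ X N (PO.of γ) (PO.of δ) hN
  have e1 : {x | Dect (N x).T γ δ} = {x | Dect (N x).T (PO.of γ).T (PO.of δ).T} := by
    ext x
    exact ⟨dec_of (OrderIso.refl _) (oi γ).symm (oi δ).symm, dec_of (OrderIso.refl _) (oi γ) (oi δ)⟩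
  rw [e1]
  exact h

theorem meas_mid (hI : S_ISO) (hD : S_DECA) (hN : Fam N) (γ : Type) [LinearOrder γ] [Countable γ] :
    MeasurableSet {x | Midt (N x).T γ} := by
  have e1 : {x | Midt (N x).T γ} = {x | Nonempty ((N x).T ≃o γ)} ∪
      ⋃ r : γ, {x | Dect (N x).T (Iio r) (Ioi r)} := by
    ext x
    simp only [mem_union, mem_iUnion]
    rfl
  rw [e1]
  exact (meas_iso hI hN γ).union (MeasurableSet.iUnion fun r => meas_dec hD hN _ _)

theorem mid_of {α α' β : Type} [LinearOrder α] [LinearOrder α'] [LinearOrder β] (e : α ≃o α')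
    (h : Midt α β) : Midt α' β := by
  rcases h with ⟨⟨e'⟩⟩ | ⟨r, h⟩
  · exact Or.inl ⟨e.symm.trans e'⟩
  · exact Or.inr ⟨r, dec_of e (OrderIso.refl _) (OrderIso.refl _) h⟩

end meas

theorem fam_LO : Fam PO.ofLO := by
  constructor
  · intro a
    exact MeasurableSet.const _
  · intro a b
    have h : Continuous fun y : LO => y.1 (a, b) :=
      (continuous_apply (a, b)).comp continuous_subtype_val
    have h1 : {y : LO | (PO.ofLO y).le a b} = (fun y : LO => y.1 (a, b)) ⁻¹' {true} := rfl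
    rw [h1]
    exact ((isOpen_discrete _).preimage h).measurableSet

/-- the point of the coded order -/
def mk (y : LO) (a : ℕ) : (PO.ofLO y).T := ⟨a, trivial⟩

theorem mk_le (y : LO) (a b : ℕ) : mk y a ≤ mk y b ↔ (PO.ofLO y).le a b := Iff.rfl

theorem fam_Iio (a : ℕ) : Fam fun y : LO => (PO.ofLO y).restr {z | ¬ (PO.ofLO y).le a z} :=
  fam_LO.restr fun z => (fam_LO.2 a z).compl

theorem fam_Ioi (a : ℕ) : Fam fun y : LO => (PO.ofLO y).restr {z | ¬ (PO.ofLO y).le z a} :=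
  fam_LO.restr fun z => (fam_LO.2 z a).compl

theorem fam_Ioo (a a' : ℕ) : Fam fun y : LO =>
    (PO.ofLO y).restr {z | ¬ (PO.ofLO y).le z a ∧ ¬ (PO.ofLO y).le a' z} :=
  fam_LO.restr fun z => (fam_LO.2 z a).compl.inter (fam_LO.2 a' z).compl

/-- the open initial segment -/
def isoIio (y : LO) (a : ℕ) :
    ((PO.ofLO y).restr {z | ¬ (PO.ofLO y).le a z}).T ≃o Iio (mk y a) :=
  ri _ _ _ fun z => by
    rw [mem_Iio, ← not_le]
    exact Iff.rfl

/-- the open final segment -/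
def isoIoi (y : LO) (a : ℕ) :
    ((PO.ofLO y).restr {z | ¬ (PO.ofLO y).le z a}).T ≃o Ioi (mk y a) :=
  ri _ _ _ fun z => by
    rw [mem_Ioi, ← not_le]
    exact Iff.rfl

/-- the open interval -/
def isoIoo (y : LO) (a a' : ℕ) :
    ((PO.ofLO y).restr {z | ¬ (PO.ofLO y).le z a ∧ ¬ (PO.ofLO y).le a' z}).T ≃o
      Ioo (mk y a) (mk y a') :=
  ri _ _ _ fun z => by
    rw [mem_Ioo, ← not_le, ← not_le]
    exact Iff.rfl

theorem meas_GG (hI : S_ISO) (hC : S_CLA) (hD : S_DECA) (x : LO) (n : ℕ) :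
    ∀ (a : ℕ) (b : (PO.ofLO x).T),
      MeasurableSet {y : LO | GGt (PO.ofLO y).T (PO.ofLO x).T n (mk y a) b} := by
  induction n with
  | zero =>
    intro a b
    have h := meas_IL hC (fam_Ioi a) (Ioi b)
    have e1 : {y : LO | GGt (PO.ofLO y).T (PO.ofLO x).T 0 (mk y a) b} =
        {y : LO | ILt ((PO.ofLO y).restr {z | ¬ (PO.ofLO y).le z a}).T (Ioi b)} := by
      ext y
      exact ⟨il_of (isoIoi y a).symm (OrderIso.refl _), il_of (isoIoi y a) (OrderIso.refl _)⟩
    rw [e1]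
    exact h
  | succ n ih =>
    intro a b
    have e1 : {y : LO | GGt (PO.ofLO y).T (PO.ofLO x).T (n + 1) (mk y a) b} =
        ⋃ (a' : ℕ) (b' : (PO.ofLO x).T), {y : LO | mk y a < mk y a'} ∩ ({_y : LO | b < b'} ∩
          ({y : LO | Midt (Ioo (mk y a) (mk y a')) (Ioo b b')} ∩
            {y : LO | GGt (PO.ofLO y).T (PO.ofLO x).T n (mk y a') b'})) := by
      ext y
      simp only [mem_iUnion]
      constructor
      · rintro ⟨a', b', h1, h2, h3, h4⟩
        exact ⟨a'.1, b', h1, h2, h3, h4⟩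
      · rintro ⟨a', b', h1, h2, h3, h4⟩
        exact ⟨mk y a', b', h1, h2, h3, h4⟩
    rw [e1]
    refine MeasurableSet.iUnion fun a' => MeasurableSet.iUnion fun b' => ?_
    refine MeasurableSet.inter ?_ ((MeasurableSet.const _).inter (MeasurableSet.inter ?_ (ih a' b')))
    · have e2 : {y : LO | mk y a < mk y a'} = {y : LO | (PO.ofLO y).le a' a}ᶜ := by
        ext y
        show mk y a < mk y a' ↔ ¬ (PO.ofLO y).le a' a
        rw [← mk_le, not_le]
      rw [e2]
      exact (fam_LO.2 a' a).compl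
    · have h := meas_mid hI hD (fam_Ioo a a') (Ioo b b')
      have e2 : {y : LO | Midt (Ioo (mk y a) (mk y a')) (Ioo b b')} =
          {y : LO | Midt ((PO.ofLO y).restr
            {z | ¬ (PO.ofLO y).le z a ∧ ¬ (PO.ofLO y).le a' z}).T (Ioo b b')} := by
        ext y
        exact ⟨mid_of (isoIoo y a a').symm, mid_of (isoIoo y a a')⟩
      rw [e2]
      exact h

end MEA1

theorem t_MEA1 : S_PG → S_ISO → S_CLA → S_DECA → S_MEA1 := by
  intro hP hI hC hD x
  have e1 : {y : LO | PCt (PO.ofLO y).T (PO.ofLO x).T} =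
      ⋃ (a : ℕ) (b : (PO.ofLO x).T) (n : ℕ), {y : LO | FLt (Iio (MEA1.mk y a)) (Iio b)} ∩
        {y : LO | GGt (PO.ofLO y).T (PO.ofLO x).T n (MEA1.mk y a) b} := by
    ext y
    simp only [mem_iUnion]
    have : Nonempty (PO.ofLO y).T := ⟨MEA1.mk y 0⟩
    constructor
    · intro h
      obtain ⟨a, b, n, h1, h2⟩ := (hP _ _).1 h
      exact ⟨a.1, b, n, h1, h2⟩
    · rintro ⟨a, b, n, h1, h2⟩
      exact (hP _ _).2 ⟨MEA1.mk y a, b, n, h1, h2⟩
  rw [e1]
  refine MeasurableSet.iUnion fun a => MeasurableSet.iUnion fun b => MeasurableSet.iUnion fun n =>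
    MeasurableSet.inter ?_ (MEA1.meas_GG hI hC hD x n a b)
  have h := MEA1.meas_FL hC (MEA1.fam_Iio a) (Iio b)
  have e2 : {y : LO | FLt (Iio (MEA1.mk y a)) (Iio b)} =
      {y : LO | FLt ((PO.ofLO y).restr {z | ¬ (PO.ofLO y).le a z}).T (Iio b)} := by
    ext y
    exact ⟨MEA1.fl_of (MEA1.isoIio y a).symm (OrderIso.refl _),
      MEA1.fl_of (MEA1.isoIio y a) (OrderIso.refl _)⟩
  rw [e2]
  exact h

end Pool.Agent.H742.PW
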