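import Pool.Agent.H742.PW.Stm

set_option autoImplicit false

/-!
# PW MEA2: for a fixed first order the set of the second orders with `PCt` is Borel
-/

namespace Pool.Agent.H742.PW
open Set MeasureTheory Pool.Agent.HLead.CB

namespace MEA2

variable {α α' β β' γ γ' : Type} [LinearOrder α] [LinearOrder α'] [LinearOrder β] [LinearOrder β']
  [LinearOrder γ] [LinearOrder γ']

theorem ilt_congr (e : α ≃o α') (e' : β ≃o β') (h : ILt α β) : ILt α' β' := by
  obtain ⟨f, hf⟩ := h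
  refine ⟨(e.symm.toOrderEmbedding.trans f).trans e'.toOrderEmbedding, ?_⟩
  intro a b hb
  change b ≤ e' (f (e.symm a)) at hb
  have h1 : e'.symm b ≤ f (e.symm a) := by
    rw [← e'.le_iff_le, e'.apply_symm_apply]
    exact hb
  obtain ⟨c, hc⟩ := hf _ _ h1
  refine ⟨e c, ?_⟩
  change e' (f (e.symm (e c))) = b
  rw [e.symm_apply_apply, hc, e'.apply_symm_apply]

theorem flt_congr (e : α ≃o α') (e' : β ≃o β') (h : FLt α β) : FLt α' β' := by
  obtain ⟨f, hf⟩ := h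
  refine ⟨(e.symm.toOrderEmbedding.trans f).trans e'.toOrderEmbedding, ?_⟩
  intro a b hb
  change e' (f (e.symm a)) ≤ b at hb
  have h1 : f (e.symm a) ≤ e'.symm b := by
    rw [← e'.le_iff_le, e'.apply_symm_apply]
    exact hb
  obtain ⟨c, hc⟩ := hf _ _ h1
  refine ⟨e c, ?_⟩
  change e' (f (e.symm (e c))) = b
  rw [e.symm_apply_apply, hc, e'.apply_symm_apply]

def preIso (e : α ≃o α') (s : Set α) : s ≃o (e.symm ⁻¹' s : Set α') where
  toFun z := ⟨e z.1, by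
    change e.symm (e z.1) ∈ s
    rw [e.symm_apply_apply]
    exact z.2⟩
  invFun z := ⟨e.symm z.1, z.2⟩
  left_inv z := Subtype.ext (e.symm_apply_apply z.1)
  right_inv z := Subtype.ext (e.apply_symm_apply z.1)
  map_rel_iff' := by
    intro a b
    exact e.le_iff_le

theorem dect_congr (e : α ≃o α') (e1 : β ≃o β') (e2 : γ ≃o γ') (h : Dect α β γ) :
    Dect α' β' γ' := by
  obtain ⟨s, hs, h1, h2⟩ := h
  refine ⟨e.symm ⁻¹' s, ?_, ilt_congr (preIso e s) e1 h1, ?_⟩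
  · intro a b hab ha
    exact hs (e.symm.monotone hab) ha
  · exact flt_congr (preIso e sᶜ) e2 h2

/-- the restriction and a set of points -/
def rIso {E : Type} (M : PO E) (s : Set E) (S : Set M.T) (h : ∀ z : M.T, z ∈ S ↔ z.1 ∈ s) :
    (M.restr s).T ≃o S where
  toFun z := ⟨⟨z.1, z.2.1⟩, (h _).2 z.2.2⟩
  invFun z := ⟨z.1.1, z.1.2, (h _).1 z.2⟩
  left_inv _ := rfl
  right_inv _ := rfl
  map_rel_iff' := Iff.rfl

/-- the restriction and a set of points of a set of points -/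
def rIso2 {E : Type} (M : PO E) (s : Set E) (S : Set M.T) (R : Set S)
    (h : ∀ z : S, z ∈ R ↔ z.1.1 ∈ s) (h' : ∀ z : M.T, z.1 ∈ s → z ∈ S) :
    (M.restr s).T ≃o R where
  toFun z := ⟨⟨⟨z.1, z.2.1⟩, h' _ z.2.2⟩, (h _).2 z.2.2⟩
  invFun z := ⟨z.1.1.1, z.1.1.2, (h _).1 z.2⟩
  left_inv _ := rfl
  right_inv _ := rfl
  map_rel_iff' := Iff.rfl

theorem fl_iff {E E' : Type} (N : PO E) (M : PO E') : FL N M ↔ IL N.rev M.rev := by
  constructor
  · rintro ⟨f, hf⟩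
    refine ⟨⟨⟨fun z => (f z : M.T), fun a b hab => f.injective hab⟩, ?_⟩, ?_⟩
    · intro a b
      exact f.le_iff_le (a := b) (b := a)
    · intro a b hb
      exact hf a b hb
  · rintro ⟨f, hf⟩
    refine ⟨⟨⟨fun z => (f z : M.rev.T), fun a b hab => f.injective hab⟩, ?_⟩, ?_⟩
    · intro a b
      exact f.le_iff_le (a := b) (b := a)
    · intro a b hb
      exact hf a b hb

theorem meas_coord (a b : ℕ) : MeasurableSet {y : LO | y.1 (a, b) = true} := by
  have hc : Continuous (fun y : LO => y.1 (a, b)) :=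
    (continuous_apply (a, b)).comp continuous_subtype_val
  have : {y : LO | y.1 (a, b) = true} = (fun y : LO => y.1 (a, b)) ⁻¹' {true} := rfl
  rw [this]
  exact ((isOpen_discrete {true}).preimage hc).measurableSet

theorem fam_ofLO : Fam (fun y : LO => PO.ofLO y) :=
  ⟨fun _ => MeasurableSet.const True, fun a b => meas_coord a b⟩

/-- the point with number `a` -/
def mk (x : LO) (a : ℕ) : (PO.ofLO x).T := ⟨a, trivial⟩

theorem mk_surj {x : LO} (t : (PO.ofLO x).T) : t = mk x t.1 := rfl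

theorem mk_lt (x : LO) (a b : ℕ) : mk x a < mk x b ↔ ¬ (PO.ofLO x).le b a := by
  rw [← not_le]
  exact Iff.rfl

theorem meas_lt (a b : ℕ) : MeasurableSet {y : LO | mk y a < mk y b} := by
  have : {y : LO | mk y a < mk y b} = {y : LO | y.1 (b, a) = true}ᶜ := by
    ext y
    exact mk_lt y a b
  rw [this]
  exact (meas_coord b a).compl

/-- the sets above, below and between -/
def sgt {E : Type} (M : PO E) (a : E) : Set E := {z | ¬ M.le z a}
def slt {E : Type} (M : PO E) (a : E) : Set E := {z | ¬ M.le a z}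
def soo {E : Type} (M : PO E) (a b : E) : Set E := {z | ¬ M.le z a ∧ ¬ M.le b z}

theorem mem_sgt (x : LO) (a : ℕ) (z : (PO.ofLO x).T) :
    z ∈ Ioi (mk x a) ↔ z.1 ∈ sgt (PO.ofLO x) a := mk_lt x a z.1

theorem mem_slt (x : LO) (a : ℕ) (z : (PO.ofLO x).T) :
    z ∈ Iio (mk x a) ↔ z.1 ∈ slt (PO.ofLO x) a := mk_lt x z.1 a

theorem mem_soo (x : LO) (a b : ℕ) (z : (PO.ofLO x).T) :
    z ∈ Ioo (mk x a) (mk x b) ↔ z.1 ∈ soo (PO.ofLO x) a b :=
  and_congr (mk_lt x a z.1) (mk_lt x z.1 b)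

theorem fam_sgt (b : ℕ) : Fam (fun y : LO => (PO.ofLO y).restr (sgt (PO.ofLO y) b)) :=
  fam_ofLO.restr fun a => (meas_coord a b).compl

theorem fam_slt (b : ℕ) : Fam (fun y : LO => (PO.ofLO y).restr (slt (PO.ofLO y) b)) :=
  fam_ofLO.restr fun a => (meas_coord b a).compl

theorem fam_soo (b b' : ℕ) : Fam (fun y : LO => (PO.ofLO y).restr (soo (PO.ofLO y) b b')) :=
  fam_ofLO.restr fun a => ((meas_coord a b).compl).inter ((meas_coord b' a).compl)

/-- `FLt` for the initial parts -/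
theorem meas_F (hCLB : S_CLB) (x : LO) (a b : ℕ) :
    MeasurableSet {y : LO | FLt (Iio (mk x a)) (Iio (mk y b))} := by
  have h1 := hCLB ℕ ℕ LO ((PO.ofLO x).restr (slt (PO.ofLO x) a)).rev
    (fun y => ((PO.ofLO y).restr (slt (PO.ofLO y) b)).rev) (fam_slt b).rev
  have h2 : {y : LO | FLt (Iio (mk x a)) (Iio (mk y b))} =
      {y : LO | IL ((PO.ofLO x).restr (slt (PO.ofLO x) a)).rev
        ((PO.ofLO y).restr (slt (PO.ofLO y) b)).rev} := by
    ext y
    rw [mem_ofPred_eq, mem_ofPred_eq, ← fl_iff]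
    have e1 := rIso (PO.ofLO x) (slt (PO.ofLO x) a) (Iio (mk x a)) (mem_slt x a)
    have e2 := rIso (PO.ofLO y) (slt (PO.ofLO y) b) (Iio (mk y b)) (mem_slt y b)
    exact ⟨flt_congr e1.symm e2.symm, flt_congr e1 e2⟩
  rw [h2]
  exact h1

/-- `ILt` for the final parts -/
theorem meas_I (hCLB : S_CLB) (x : LO) (a b : ℕ) :
    MeasurableSet {y : LO | ILt (Ioi (mk x a)) (Ioi (mk y b))} := by
  have h1 := hCLB ℕ ℕ LO ((PO.ofLO x).restr (sgt (PO.ofLO x) a))
    (fun y => (PO.ofLO y).restr (sgt (PO.ofLO y) b)) (fam_sgt b)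
  have h2 : {y : LO | ILt (Ioi (mk x a)) (Ioi (mk y b))} =
      {y : LO | IL ((PO.ofLO x).restr (sgt (PO.ofLO x) a))
        ((PO.ofLO y).restr (sgt (PO.ofLO y) b))} := by
    ext y
    rw [mem_ofPred_eq, mem_ofPred_eq]
    have e1 := rIso (PO.ofLO x) (sgt (PO.ofLO x) a) (Ioi (mk x a)) (mem_sgt x a)
    have e2 := rIso (PO.ofLO y) (sgt (PO.ofLO y) b) (Ioi (mk y b)) (mem_sgt y b)
    exact ⟨ilt_congr e1.symm e2.symm, ilt_congr e1 e2⟩
  rw [h2]
  exact h1

/-- `Midt` for the middle parts -/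
theorem meas_M (hISO : S_ISO) (hDECB : S_DECB) (x : LO) (a a' b b' : ℕ) :
    MeasurableSet {y : LO | Midt (Ioo (mk x a) (mk x a')) (Ioo (mk y b) (mk y b'))} := by
  have h1 := hISO ℕ ℕ LO ((PO.ofLO x).restr (soo (PO.ofLO x) a a'))
    (fun y => (PO.ofLO y).restr (soo (PO.ofLO y) b b')) (fam_soo b b')
  have h2 : ∀ r : ℕ, MeasurableSet {y : LO | Dect ((PO.ofLO x).restr (soo (PO.ofLO x) a a')).T
      ((PO.ofLO y).restr (soo (PO.ofLO y) b r)).T ((PO.ofLO y).restr (soo (PO.ofLO y) r b')).T} :=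
    fun r => hDECB ℕ ℕ ℕ LO ((PO.ofLO x).restr (soo (PO.ofLO x) a a'))
      (fun y => (PO.ofLO y).restr (soo (PO.ofLO y) b r))
      (fun y => (PO.ofLO y).restr (soo (PO.ofLO y) r b')) (fam_soo b r) (fam_soo r b')
  have h3 : {y : LO | Midt (Ioo (mk x a) (mk x a')) (Ioo (mk y b) (mk y b'))} =
      {y : LO | Iso ((PO.ofLO x).restr (soo (PO.ofLO x) a a'))
        ((PO.ofLO y).restr (soo (PO.ofLO y) b b'))} ∪
      ⋃ r : ℕ, (({y : LO | mk y b < mk y r} ∩ {y : LO | mk y r < mk y b'}) ∩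
        {y : LO | Dect ((PO.ofLO x).restr (soo (PO.ofLO x) a a')).T
          ((PO.ofLO y).restr (soo (PO.ofLO y) b r)).T
          ((PO.ofLO y).restr (soo (PO.ofLO y) r b')).T}) := by
    ext y
    rw [mem_ofPred_eq, mem_union, mem_iUnion, mem_ofPred_eq]
    have e0 := rIso (PO.ofLO x) (soo (PO.ofLO x) a a') (Ioo (mk x a) (mk x a')) (mem_soo x a a')
    have e1 := rIso (PO.ofLO y) (soo (PO.ofLO y) b b') (Ioo (mk y b) (mk y b')) (mem_soo y b b')
    have e2 : ∀ r : Ioo (mk y b) (mk y b'),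
        Nonempty (((PO.ofLO y).restr (soo (PO.ofLO y) b r.1.1)).T ≃o Iio r) := by
      intro r
      refine ⟨rIso2 (PO.ofLO y) (soo (PO.ofLO y) b r.1.1) (Ioo (mk y b) (mk y b')) (Iio r) ?_ ?_⟩
      · intro z
        refine Iff.trans ?_ (mem_soo y b r.1.1 z.1)
        exact ⟨fun h => ⟨z.2.1, h⟩, fun h => h.2⟩
      · intro z hz
        have h4 := (mem_soo y b r.1.1 z).2 hz
        exact ⟨h4.1, lt_trans h4.2 r.2.2⟩
    have e3 : ∀ r : Ioo (mk y b) (mk y b'),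
        Nonempty (((PO.ofLO y).restr (soo (PO.ofLO y) r.1.1 b')).T ≃o Ioi r) := by
      intro r
      refine ⟨rIso2 (PO.ofLO y) (soo (PO.ofLO y) r.1.1 b') (Ioo (mk y b) (mk y b')) (Ioi r) ?_ ?_⟩
      · intro z
        refine Iff.trans ?_ (mem_soo y r.1.1 b' z.1)
        exact ⟨fun h => ⟨h, z.2.2⟩, fun h => h.1⟩
      · intro z hz
        have h4 := (mem_soo y r.1.1 b' z).2 hz
        exact ⟨lt_trans r.2.1 h4.1, h4.2⟩
    constructor
    · rintro (⟨⟨e⟩⟩ | ⟨r, hr⟩)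
      · left
        exact ⟨(e0.trans e).trans e1.symm⟩
      · right
        obtain ⟨i2⟩ := e2 r
        obtain ⟨i3⟩ := e3 r
        exact ⟨r.1.1, ⟨r.2.1, r.2.2⟩, dect_congr e0.symm i2.symm i3.symm hr⟩
    · rintro (⟨⟨e⟩⟩ | ⟨r, ⟨hr1, hr2⟩, hr⟩)
      · left
        exact ⟨(e0.symm.trans e).trans e1⟩
      · right
        obtain ⟨i2⟩ := e2 ⟨mk y r, hr1, hr2⟩
        obtain ⟨i3⟩ := e3 ⟨mk y r, hr1, hr2⟩
        exact ⟨⟨mk y r, hr1, hr2⟩, dect_congr e0 i2 i3 hr⟩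
  rw [h3]
  refine h1.union (MeasurableSet.iUnion fun r => ?_)
  exact ((meas_lt b r).inter (meas_lt r b')).inter (h2 r)

theorem meas_G (hISO : S_ISO) (hCLB : S_CLB) (hDECB : S_DECB) (x : LO) (n : ℕ) : ∀ a b : ℕ,
    MeasurableSet {y : LO | GGt (PO.ofLO x).T (PO.ofLO y).T n (mk x a) (mk y b)} := by
  induction n with
  | zero =>
    intro a b
    exact meas_I hCLB x a b
  | succ n ih =>
    intro a b
    have h1 : {y : LO | GGt (PO.ofLO x).T (PO.ofLO y).T (n + 1) (mk x a) (mk y b)} =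
        ⋃ a' : ℕ, ⋃ b' : ℕ, ((({y : LO | mk x a < mk x a'} ∩ {y : LO | mk y b < mk y b'}) ∩
          {y : LO | Midt (Ioo (mk x a) (mk x a')) (Ioo (mk y b) (mk y b'))}) ∩
          {y : LO | GGt (PO.ofLO x).T (PO.ofLO y).T n (mk x a') (mk y b')}) := by
      ext y
      rw [mem_ofPred_eq, mem_iUnion]
      constructor
      · rintro ⟨a', b', h1, h2, h3, h4⟩
        refine ⟨a'.1, mem_iUnion.2 ⟨b'.1, ⟨⟨h1, h2⟩, h3⟩, h4⟩⟩
      · rintro ⟨a', h⟩
        obtain ⟨b', ⟨⟨h1, h2⟩, h3⟩, h4⟩ := mem_iUnion.1 h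
        exact ⟨mk x a', mk y b', h1, h2, h3, h4⟩
    rw [h1]
    refine MeasurableSet.iUnion fun a' => MeasurableSet.iUnion fun b' => ?_
    exact (((MeasurableSet.const _).inter (meas_lt b b')).inter
      (meas_M hISO hDECB x a a' b b')).inter (ih a' b')

end MEA2

open MEA2 in
theorem t_MEA2 : S_PG → S_ISO → S_CLA → S_CLB → S_DECB → S_MEA2 := by
  intro hPG hISO _ hCLB hDECB x
  have h1 : {y : LO | PCt (PO.ofLO x).T (PO.ofLO y).T} =
      ⋃ a : ℕ, ⋃ b : ℕ, ⋃ n : ℕ, ({y : LO | FLt (Iio (mk x a)) (Iio (mk y b))} ∩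
        {y : LO | GGt (PO.ofLO x).T (PO.ofLO y).T n (mk x a) (mk y b)}) := by
    ext y
    have : Nonempty (PO.ofLO x).T := ⟨mk x 0⟩
    rw [mem_ofPred_eq, hPG (PO.ofLO x).T (PO.ofLO y).T]
    simp only [mem_iUnion]
    constructor
    · rintro ⟨a, b, n, h1, h2⟩
      exact ⟨a.1, b.1, n, h1, h2⟩
    · rintro ⟨a, b, n, h1, h2⟩
      exact ⟨mk x a, mk y b, n, h1, h2⟩
  rw [h1]
  refine MeasurableSet.iUnion fun a => MeasurableSet.iUnion fun b => MeasurableSet.iUnion fun n => ?_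
  exact (meas_F hCLB x a b).inter (meas_G hISO hCLB hDECB x n a b)

end Pool.Agent.H742.PW
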