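import Pool.Agent.H742.PW.Stm

set_option autoImplicit false

namespace Pool.Agent.H742.PW
open Set MeasureTheory Pool.Agent.HLead.CB

namespace PQ

variable {α β : Type} [LinearOrder α] [LinearOrder β]

theorem emb_of_iff {γ δ : Type} [LinearOrder γ] [LinearOrder δ] (f : γ → δ)
    (h : ∀ u v, u < v → f u < f v) : ∃ g : γ ↪o δ, ∀ u, g u = f u :=
  ⟨OrderEmbedding.ofStrictMono f fun _ _ => h _ _, fun _ => rfl⟩

end PQ

open PQ

theorem t_Q0 : S_Q0 := by
  intro α β _ _ a b
  constructor
  · rintro ⟨f, c, hab, hf, -, hc0, -, hconv⟩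
    have hlt : ∀ u v, a ≤ u → u < v → f u < f v := by
      intro u v hu huv
      refine lt_of_not_ge fun h => ?_
      exact absurd ((hf v u (hu.trans huv.le) hu).1 h) (not_le.2 huv)
    obtain ⟨g, hg⟩ := emb_of_iff (γ := Ioi a) (δ := Ioi b)
      (fun u => ⟨f u.1, by rw [mem_Ioi, ← hab]; exact hlt a u.1 le_rfl u.2⟩)
      (fun u v h => hlt u.1 v.1 (le_of_lt u.2) h)
    refine ⟨g, fun u w hw => ?_⟩
    rw [hg] at hw
    have hw' : w.1 ≤ f u.1 := hw
    have hbw : f a ≤ w.1 := by rw [hab]; exact le_of_lt w.2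
    have hu : a ≤ u.1 := le_of_lt u.2
    obtain ⟨t, hat, -, ht⟩ := hconv a u.1 w.1 le_rfl hu
      (by have h1 := hc0 a le_rfl; have h2 := hc0 u.1 hu; omega) hbw hw'
    have hne : a ≠ t := by
      rintro rfl
      have : b < w.1 := w.2
      rw [← ht, hab] at this
      exact lt_irrefl _ this
    refine ⟨⟨t, lt_of_le_of_ne hat hne⟩, ?_⟩
    rw [hg]
    exact Subtype.ext ht
  · rintro ⟨g, hg⟩
    classical
    obtain ⟨f, hfdef⟩ : ∃ f : α → β, f = fun u => if h : a < u then (g ⟨u, h⟩).1 else b := ⟨_, rfl⟩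
    have hf1 : ∀ u (h : a < u), f u = (g ⟨u, h⟩).1 := by
      intro u h
      rw [hfdef]
      exact dif_pos h
    have hf0 : f a = b := by
      rw [hfdef]
      exact dif_neg (lt_irrefl a)
    have hlt : ∀ u v, a ≤ u → u < v → f u < f v := by
      intro u v hu huv
      have hav : a < v := lt_of_le_of_lt hu huv
      rw [hf1 v hav]
      rcases eq_or_lt_of_le hu with h | h
      · rw [← h, hf0]
        exact (g ⟨v, hav⟩).2
      · rw [hf1 u h]
        exact g.lt_iff_lt.2 (show (⟨u, h⟩ : Ioi a) < ⟨v, hav⟩ from huv)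
    refine ⟨f, fun _ => 0, hf0, ?_, fun _ _ _ _ => le_rfl, fun _ _ => le_rfl,
      fun k hk => ⟨a, le_rfl, (Nat.le_zero.1 hk).symm⟩, ?_⟩
    · intro u v hu hv
      constructor
      · intro h
        by_contra hcon
        exact absurd (hlt v u hv (not_le.1 hcon)) (not_lt.2 h)
      · intro h
        rcases eq_or_lt_of_le h with h | h
        · rw [h]
        · exact (hlt u v hu h).le
    · intro u v w hu hv _ h1 h2
      have hbu : b ≤ f u := by
        rcases eq_or_lt_of_le hu with h | h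
        · rw [← h, hf0]
        · rw [← hf0]
          exact (hlt a u le_rfl h).le
      rcases eq_or_lt_of_le (hbu.trans h1) with h | h
      · exact ⟨a, le_rfl, rfl, by rw [hf0, h]⟩
      · have hav : a < v := by
          refine lt_of_le_of_ne hv ?_
          rintro rfl
          rw [hf0] at h2
          exact absurd h (not_lt.2 h2)
        rw [hf1 v hav] at h2
        obtain ⟨t, ht⟩ := hg ⟨v, hav⟩ ⟨w, h⟩ h2
        refine ⟨t.1, le_of_lt t.2, rfl, ?_⟩
        rw [hf1 t.1 t.2]
        exact congrArg Subtype.val ht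

theorem t_PQ : S_PQ := by
  intro α β _ _ _
  constructor
  · rintro ⟨f, n, c, hc, hcs, hconv⟩
    obtain ⟨a, ha⟩ := hcs 0
    have hlow : ∀ u, u ≤ a → c u = 0 := by
      intro u hu
      have := hc hu
      rw [ha] at this
      exact le_antisymm this (Fin.zero_le _)
    refine ⟨a, f a, n, ?_, f, fun u => (c u : ℕ), rfl, ?_, ?_, ?_, ?_, ?_⟩
    · obtain ⟨g, hg⟩ := emb_of_iff (γ := Iio a) (δ := Iio (f a))
        (fun u => ⟨f u.1, f.lt_iff_lt.2 u.2⟩) (fun u v h => f.lt_iff_lt.2 h)
      refine ⟨g, fun u w hw => ?_⟩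
      rw [hg] at hw
      have hw' : f u.1 ≤ w.1 := hw
      have h0 : w.1 ∈ f '' (c ⁻¹' {0}) := (hconv 0).out
        (mem_image_of_mem f (hlow u.1 (le_of_lt u.2))) (mem_image_of_mem f ha)
        ⟨hw', le_of_lt w.2⟩
      obtain ⟨t, -, ht⟩ := h0
      have hta : t < a := f.lt_iff_lt.1 (by rw [ht]; exact w.2)
      refine ⟨⟨t, hta⟩, ?_⟩
      rw [hg]
      exact Subtype.ext ht
    · intro u v _ _
      exact f.le_iff_le
    · intro u v _ huv
      exact hc huv
    · intro u _
      exact Nat.lt_succ_iff.1 (c u).2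
    · intro k hk
      obtain ⟨u, hu⟩ := hcs ⟨k, Nat.lt_succ_iff.2 hk⟩
      rcases le_total a u with h | h
      · exact ⟨u, h, congrArg Fin.val hu⟩
      · have h0 := hlow u h
        rw [hu] at h0
        have hk0 : k = 0 := congrArg Fin.val h0
        exact ⟨a, le_rfl, (congrArg Fin.val ha).trans hk0.symm⟩
    · intro u v w hu hv huv h1 h2
      have huv' : c v = c u := (Fin.ext huv).symm
      have h0 : w ∈ f '' (c ⁻¹' {c u}) := (hconv (c u)).out
        (mem_image_of_mem f rfl) (mem_image_of_mem f huv') ⟨h1, h2⟩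
      obtain ⟨t, ht1, ht⟩ := h0
      refine ⟨t, hu.trans (f.le_iff_le.1 (by rw [ht]; exact h1)), congrArg Fin.val ht1, ht⟩
  · rintro ⟨a, b, n, ⟨g, hg⟩, f, c, hab, hf, hcm, hcn, hcs, hconv⟩
    classical
    have hlt : ∀ u v, a ≤ u → u < v → f u < f v := by
      intro u v hu huv
      refine lt_of_not_ge fun h => ?_
      exact absurd ((hf v u (hu.trans huv.le) hu).1 h) (not_le.2 huv)
    have hbf : ∀ u, a ≤ u → b ≤ f u := by
      intro u hu
      rw [← hab]
      exact (hf a u le_rfl hu).2 hu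
    have hca : c a = 0 := by
      obtain ⟨u, hu, hu0⟩ := hcs 0 (Nat.zero_le n)
      have := hcm a u le_rfl hu
      omega
    obtain ⟨F, hFdef⟩ : ∃ F : α → β, F = fun u => if h : u < a then (g ⟨u, h⟩).1 else f u := ⟨_, rfl⟩
    have hF1 : ∀ u (h : u < a), F u = (g ⟨u, h⟩).1 := by
      intro u h
      rw [hFdef]
      exact dif_pos h
    have hF2 : ∀ u, a ≤ u → F u = f u := by
      intro u h
      rw [hFdef]
      exact dif_neg (not_lt.2 h)
    have hFb : ∀ u, u < a → F u < b := by
      intro u h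
      rw [hF1 u h]
      exact (g ⟨u, h⟩).2
    obtain ⟨G, hG⟩ := emb_of_iff F (by
      intro u v huv
      rcases lt_or_ge v a with hv | hv
      · have hu : u < a := huv.trans hv
        rw [hF1 u hu, hF1 v hv]
        exact g.lt_iff_lt.2 (show (⟨u, hu⟩ : Iio a) < ⟨v, hv⟩ from huv)
      · rcases lt_or_ge u a with hu | hu
        · rw [hF2 v hv]
          exact lt_of_lt_of_le (hFb u hu) (hbf v hv)
        · rw [hF2 v hv, hF2 u hu]
          exact hlt u v hu huv)
    obtain ⟨C, hCdef⟩ : ∃ C : α → Fin (n + 1), C = fun u => if h : a ≤ u then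
        ⟨c u, Nat.lt_succ_iff.2 (hcn u h)⟩ else 0 := ⟨_, rfl⟩
    have hC1 : ∀ u (h : a ≤ u), C u = ⟨c u, Nat.lt_succ_iff.2 (hcn u h)⟩ := by
      intro u h
      rw [hCdef]
      exact dif_pos h
    have hC0 : ∀ u, u < a → C u = 0 := by
      intro u h
      rw [hCdef]
      exact dif_neg (not_le.2 h)
    refine ⟨G, n, C, ?_, ?_, ?_⟩
    · intro u v huv
      rcases lt_or_ge u a with hu | hu
      · rw [hC0 u hu]
        exact Fin.zero_le _
      · rw [hC1 u hu, hC1 v (hu.trans huv)]
        exact hcm u v hu huv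
    · intro k
      obtain ⟨u, hu, huk⟩ := hcs k (Nat.lt_succ_iff.1 k.2)
      exact ⟨u, by rw [hC1 u hu]; exact Fin.ext huk⟩
    · intro k
      refine ⟨?_⟩
      rintro _ ⟨u, hu, rfl⟩ _ ⟨v, hv, rfl⟩ w ⟨h1, h2⟩
      rw [hG] at h1 h2
      have hu' : C u = k := hu
      have hv' : C v = k := hv
      have low : ∀ u (h : u < a), F u ≤ w → w < b → C u = k → w ∈ G '' (C ⁻¹' {k}) := by
        intro u h h1 hw hk
        rw [hF1 u h] at h1
        obtain ⟨t, ht⟩ := hg ⟨u, h⟩ ⟨w, hw⟩ h1
        refine ⟨t.1, ?_, ?_⟩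
        · change C t.1 = k
          rw [hC0 t.1 t.2, ← hk, hC0 u h]
        · rw [hG, hF1 t.1 t.2]
          exact congrArg Subtype.val ht
      have high : ∀ u v, a ≤ u → a ≤ v → f u ≤ w → w ≤ f v → C u = k → C v = k →
          w ∈ G '' (C ⁻¹' {k}) := by
        intro u v hu hv h1 h2 hk hk'
        have e : c u = c v := by
          rw [hC1 u hu] at hk
          rw [hC1 v hv] at hk'
          exact (congrArg Fin.val hk).trans (congrArg Fin.val hk').symm
        obtain ⟨t, hat, hct, ht⟩ := hconv u v w hu hv e h1 h2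
        refine ⟨t, ?_, ?_⟩
        · change C t = k
          rw [← hk, hC1 t hat, hC1 u hu]
          exact Fin.ext hct
        · rw [hG, hF2 t hat]
          exact ht
      rcases lt_or_ge u a with hua | hua
      · rcases lt_or_ge w b with hw | hw
        · exact low u hua h1 hw hu'
        · rcases lt_or_ge v a with hva | hva
          · exact absurd (h2.trans_lt (hFb v hva)) (not_lt.2 hw)
          · rw [hF2 v hva] at h2
            refine high a v le_rfl hva (by rw [hab]; exact hw) h2 ?_ hv'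
            rw [← hu', hC0 u hua, hC1 a le_rfl]
            exact Fin.ext hca
      · rw [hF2 u hua] at h1
        rcases lt_or_ge v a with hva | hva
        · exact absurd (((hbf u hua).trans h1).trans h2) (not_le.2 (hFb v hva))
        · rw [hF2 v hva] at h2
          exact high u v hua hva h1 h2 hu' hv'

end Pool.Agent.H742.PW
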