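import Pool.Agent.H742.PW.Stm

/-!
# Task QS1: splitting off one piece (helper249)
-/

set_option autoImplicit false

namespace Pool.Agent.H742.PW
open Set

namespace QS1

variable {α β : Type} [LinearOrder α] [LinearOrder β]

/-- a strictly monotone map on a subset gives an order embedding of the subset -/
noncomputable def emb {s : Set α} {T : Type} [LinearOrder T] (g : s → T) (h : ∀ u v, g u ≤ g v ↔ u ≤ v) :
    s ↪o T where
  toFun := g
  inj' u v huv := le_antisymm ((h u v).1 huv.le) ((h v u).1 huv.ge)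
  map_rel_iff' := by
    intro u v
    exact h u v

end QS1

theorem t_QS1 : S_QS1 := by
  intro α β _ _ n a b h
  obtain ⟨f, c, hb, hf, hc, hcn, hcs, hconv⟩ := h
  obtain ⟨a', haa', hca'⟩ := hcs 1 (Nat.le_add_left 1 n)
  obtain ⟨u₀, hu₀, hcu₀⟩ := hcs 0 (Nat.zero_le _)
  have hca : c a = 0 := Nat.le_zero.1 (hcu₀ ▸ hc a u₀ le_rfl hu₀)
  have hlt : a < a' := by
    refine lt_of_le_of_ne haa' fun he => ?_
    rw [← he, hca] at hca'
    exact absurd hca' (by norm_num)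
  have hf' : ∀ u v, a ≤ u → a ≤ v → (f u < f v ↔ u < v) := by
    intro u v hu hv
    rw [← not_le, ← not_le, hf v u hv hu]
  have hblt : b < f a' := by
    rw [← hb]
    exact (hf' a a' le_rfl haa').2 hlt
  -- points whose image is strictly between `b` and `f a'`
  have hmem : ∀ t, a ≤ t → b < f t → f t < f a' → a < t ∧ t < a' := by
    intro t ht h1 h2
    refine ⟨?_, (hf' t a' ht haa').1 h2⟩
    rw [← hb] at h1
    exact (hf' a t le_rfl ht).1 h1
  have himg : ∀ t, a < t → t < a' → b < f t ∧ f t < f a' := by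
    intro t h1 h2
    refine ⟨?_, (hf' t a' h1.le haa').2 h2⟩
    rw [← hb]
    exact (hf' a t le_rfl h1.le).2 h1
  refine ⟨a', f a', hlt, hblt, ?_, ?_⟩
  · by_cases hs : ∀ w, b < w → w < f a' → ∃ t, a < t ∧ t < a' ∧ f t = w
    · refine Or.inl ⟨?_⟩
      let F : Ioo a a' → Ioo b (f a') := fun t => ⟨f t.1, himg t.1 t.2.1 t.2.2⟩
      have hF : ∀ u v, F u ≤ F v ↔ u ≤ v := fun u v => hf u.1 v.1 u.2.1.le v.2.1.le
      refine RelIso.ofSurjective (QS1.emb F hF) fun w => ?_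
      obtain ⟨t, h1, h2, h3⟩ := hs w.1 w.2.1 w.2.2
      exact ⟨⟨t, h1, h2⟩, Subtype.ext h3⟩
    · push Not at hs
      obtain ⟨r, hr1, hr2, hr3⟩ := hs
      have hno : ∀ t, a ≤ t → f t ≠ r := by
        intro t ht he
        obtain ⟨h1, h2⟩ := hmem t ht (he ▸ hr1) (he ▸ hr2)
        exact hr3 t h1 h2 he
      have hlow : ∀ t, a ≤ t → c t = 0 → f t < r := by
        intro t ht h0
        by_contra hle
        obtain ⟨t', h1, _, h3⟩ := hconv a t r le_rfl ht (hca.trans h0.symm) (hb ▸ hr1.le) (not_lt.1 hle)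
        exact hno t' h1 h3
      have hupp : ∀ t, a ≤ t → c t = 1 → r < f t := by
        intro t ht h0
        by_contra hle
        obtain ⟨t', h1, _, h3⟩ := hconv t a' r ht haa' (h0.trans hca'.symm) (not_lt.1 hle) hr2.le
        exact hno t' h1 h3
      have h1of : ∀ t : Ioo a a', c t.1 ≠ 0 → c t.1 = 1 := by
        intro t ht
        have := hc t.1 a' t.2.1.le t.2.2.le
        rw [hca'] at this
        exact le_antisymm this (Nat.one_le_iff_ne_zero.2 ht)
      refine Or.inr ⟨⟨r, hr1, hr2⟩, {t : Ioo a a' | c t.1 = 0}, ?_, ?_, ?_⟩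
      · intro t t' htt' h0
        have := hc t'.1 t.1 t'.2.1.le htt'
        rw [show c t.1 = 0 from h0] at this
        exact Nat.le_zero.1 this
      · let F : {t : Ioo a a' | c t.1 = 0} → Iio (⟨r, hr1, hr2⟩ : Ioo b (f a')) := fun t =>
          ⟨⟨f t.1.1, himg t.1.1 t.1.2.1 t.1.2.2⟩, hlow t.1.1 t.1.2.1.le t.2⟩
        have hF : ∀ u v, F u ≤ F v ↔ u ≤ v := fun u v => hf u.1.1 v.1.1 u.1.2.1.le v.1.2.1.le
        refine ⟨QS1.emb F hF, fun t w hw => ?_⟩
        obtain ⟨t', h1, h2, h3⟩ := hconv a t.1.1 w.1.1 le_rfl t.1.2.1.le (hca.trans (Eq.symm t.2))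
          (hb ▸ w.1.2.1.le) hw
        obtain ⟨h4, h5⟩ := hmem t' h1 (h3 ▸ w.1.2.1) (h3 ▸ w.1.2.2)
        exact ⟨⟨⟨t', h4, h5⟩, h2.trans hca⟩, Subtype.ext (Subtype.ext h3)⟩
      · let F : ({t : Ioo a a' | c t.1 = 0}ᶜ : Set (Ioo a a')) → Ioi (⟨r, hr1, hr2⟩ : Ioo b (f a')) :=
          fun t => ⟨⟨f t.1.1, himg t.1.1 t.1.2.1 t.1.2.2⟩, hupp t.1.1 t.1.2.1.le (h1of t.1 t.2)⟩
        have hF : ∀ u v, F u ≤ F v ↔ u ≤ v := fun u v => hf u.1.1 v.1.1 u.1.2.1.le v.1.2.1.le
        refine ⟨QS1.emb F hF, fun t w hw => ?_⟩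
        have ht1 : c t.1.1 = 1 := h1of t.1 t.2
        obtain ⟨t', h1, h2, h3⟩ := hconv t.1.1 a' w.1.1 t.1.2.1.le haa' (ht1.trans hca'.symm) hw
          w.1.2.2.le
        obtain ⟨h4, h5⟩ := hmem t' h1 (h3 ▸ w.1.2.1) (h3 ▸ w.1.2.2)
        refine ⟨⟨⟨t', h4, h5⟩, fun h0 => ?_⟩, Subtype.ext (Subtype.ext h3)⟩
        have h6 : c t' = 0 := h0
        rw [h2, ht1] at h6
        exact absurd h6 (by norm_num)
  · have hc1 : ∀ u, a' ≤ u → 1 ≤ c u := fun u hu => hca' ▸ hc a' u haa' hu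
    refine ⟨f, fun u => c u - 1, rfl, fun u v hu hv => hf u v (haa'.trans hu) (haa'.trans hv),
      fun u v hu huv => Nat.sub_le_sub_right (hc u v (haa'.trans hu) huv) 1, fun u hu => ?_,
      fun k hk => ?_, fun u v w hu hv huv h1 h2 => ?_⟩
    · have := hcn u (haa'.trans hu)
      show c u - 1 ≤ n
      omega
    · rcases Nat.eq_zero_or_pos k with hk0 | hk0
      · exact ⟨a', le_rfl, by show c a' - 1 = k; rw [hca', hk0]⟩
      · obtain ⟨u, hu, hcu⟩ := hcs (k + 1) (by omega)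
        refine ⟨u, ?_, by show c u - 1 = k; rw [hcu]; rfl⟩
        by_contra hlt'
        have := hc u a' hu (not_le.1 hlt').le
        omega
    · have hu1 := hc1 u hu
      have hv1 := hc1 v hv
      have huv' : c u - 1 = c v - 1 := huv
      obtain ⟨t, ht, hct, hft⟩ := hconv u v w (haa'.trans hu) (haa'.trans hv) (by omega) h1 h2
      refine ⟨t, ?_, by show c t - 1 = c u - 1; rw [hct], hft⟩
      refine hu.trans ((hf u t (haa'.trans hu) ht).1 ?_)
      rw [hft]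
      exact h1

end Pool.Agent.H742.PW
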