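import Pool.Agent.H742.PW.Stm

/-! # Glueing one piece (task QS2, helper335) -/

set_option autoImplicit false

namespace Pool.Agent.H742.PW

open Set MeasureTheory Pool.Agent.HLead.CB

namespace QS2

theorem midt_norm {A B : Type} [LinearOrder A] [LinearOrder B] (h : Midt A B) :
    ∃ (s : Set A) (g : A → B), (∀ u v, v ∈ s → u ≤ v → u ∈ s) ∧ (∀ u v, u < v → g u < g v) ∧
      (∀ u w, u ∈ s → w ≤ g u → ∃ t, t ∈ s ∧ g t = w) ∧
      (∀ u w, u ∉ s → g u ≤ w → ∃ t, t ∉ s ∧ g t = w) := by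
  classical
  rcases h with ⟨⟨e⟩⟩ | ⟨r, s, hs, ⟨f1, hf1⟩, ⟨f2, hf2⟩⟩
  · refine ⟨univ, e, fun _ _ _ _ => mem_univ _, fun u v huv => e.strictMono huv, ?_, ?_⟩
    · intro u w _ _
      exact ⟨e.symm w, mem_univ _, e.apply_symm_apply w⟩
    · intro u w hu
      exact absurd (mem_univ u) hu
  · let g : A → B := fun u => if h : u ∈ s then (f1 ⟨u, h⟩ : B) else (f2 ⟨u, h⟩ : B)
    have g1 : ∀ (u : A) (h : u ∈ s), g u = (f1 ⟨u, h⟩ : B) := fun u h => dif_pos h
    have g2 : ∀ (u : A) (h : u ∉ s), g u = (f2 ⟨u, h⟩ : B) := fun u h => dif_neg h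
    refine ⟨s, g, fun u v hv huv => hs huv hv, ?_, ?_, ?_⟩
    · intro u v huv
      by_cases hv : v ∈ s
      · have hu : u ∈ s := hs huv.le hv
        rw [g1 u hu, g1 v hv]
        exact f1.strictMono (show (⟨u, hu⟩ : s) < ⟨v, hv⟩ from huv)
      · by_cases hu : u ∈ s
        · rw [g1 u hu, g2 v hv]
          exact lt_trans (f1 ⟨u, hu⟩).2 (f2 ⟨v, hv⟩).2
        · rw [g2 u hu, g2 v hv]
          exact f2.strictMono (show (⟨u, hu⟩ : (sᶜ : Set A)) < ⟨v, hv⟩ from huv)
    · intro u w hu hw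
      rw [g1 u hu] at hw
      have hwr : w < r := lt_of_le_of_lt hw (f1 ⟨u, hu⟩).2
      obtain ⟨t, ht⟩ := hf1 ⟨u, hu⟩ ⟨w, hwr⟩ hw
      refine ⟨t.1, t.2, ?_⟩
      rw [g1 t.1 t.2, ht]
    · intro u w hu hw
      rw [g2 u hu] at hw
      have hwr : r < w := lt_of_lt_of_le (f2 ⟨u, hu⟩).2 hw
      obtain ⟨t, ht⟩ := hf2 ⟨u, hu⟩ ⟨w, hwr⟩ hw
      refine ⟨t.1, t.2, ?_⟩
      rw [g2 t.1 t.2, ht]

end QS2

open QS2 in
theorem t_QS2 : S_QS2 := by
  classical
  intro α β _ _ n a a' b b' ha hb hM hQ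
  obtain ⟨s, g, hs, hg, hlow, hup⟩ := midt_norm hM
  obtain ⟨f', c', h1, h2, h3, h4, h5, h6⟩ := hQ
  have hf's : ∀ u v, a' ≤ u → u < v → f' u < f' v := by
    intro u v hu huv
    by_contra hcon
    have := (h2 v u (hu.trans huv.le) hu).1 (not_lt.1 hcon)
    exact absurd huv (not_lt.2 this)
  have hb' : ∀ u, a' ≤ u → b' ≤ f' u := by
    intro u hu
    rw [← h1]
    exact (h2 a' u le_rfl hu).2 hu
  have hc0 : c' a' = 0 := by
    obtain ⟨u0, hu0, hu1⟩ := h5 0 (Nat.zero_le _)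
    have := h3 a' u0 le_rfl hu0
    omega
  let f : α → β := fun x => if a' ≤ x then f' x else
    if h : x ∈ Ioo a a' then (g ⟨x, h⟩ : β) else b
  let c : α → ℕ := fun x => if a' ≤ x then c' x + 1 else
    if h : x ∈ Ioo a a' then (if (⟨x, h⟩ : Ioo a a') ∈ s then 0 else 1) else 0
  have fz2 : ∀ x, a' ≤ x → f x = f' x := fun x hx => if_pos hx
  have fz1 : ∀ x (h : x ∈ Ioo a a'), f x = (g ⟨x, h⟩ : β) := by
    intro x h
    have h' : ¬ a' ≤ x := not_le.2 h.2
    change (if a' ≤ x then f' x else if h : x ∈ Ioo a a' then (g ⟨x, h⟩ : β) else b) = _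
    rw [if_neg h', dif_pos h]
  have fz0 : f a = b := by
    have h' : ¬ a' ≤ a := not_le.2 ha
    have h'' : a ∉ Ioo a a' := fun h => lt_irrefl _ h.1
    change (if a' ≤ a then f' a else if h : a ∈ Ioo a a' then (g ⟨a, h⟩ : β) else b) = _
    rw [if_neg h', dif_neg h'']
  have cz2 : ∀ x, a' ≤ x → c x = c' x + 1 := fun x hx => if_pos hx
  have cz1 : ∀ x (h : x ∈ Ioo a a'), c x = if (⟨x, h⟩ : Ioo a a') ∈ s then 0 else 1 := by
    intro x h
    have h' : ¬ a' ≤ x := not_le.2 h.2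
    change (if a' ≤ x then c' x + 1 else
      if h : x ∈ Ioo a a' then (if (⟨x, h⟩ : Ioo a a') ∈ s then 0 else 1) else 0) = _
    rw [if_neg h', dif_pos h]
  have cz0 : c a = 0 := by
    have h' : ¬ a' ≤ a := not_le.2 ha
    have h'' : a ∉ Ioo a a' := fun h => lt_irrefl _ h.1
    change (if a' ≤ a then c' a + 1 else
      if h : a ∈ Ioo a a' then (if (⟨a, h⟩ : Ioo a a') ∈ s then 0 else 1) else 0) = _
    rw [if_neg h', dif_neg h'']
  have cz1a : ∀ x (h : x ∈ Ioo a a'), (⟨x, h⟩ : Ioo a a') ∈ s → c x = 0 := by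
    intro x h hx
    rw [cz1 x h, if_pos hx]
  have cz1b : ∀ x (h : x ∈ Ioo a a'), (⟨x, h⟩ : Ioo a a') ∉ s → c x = 1 := by
    intro x h hx
    rw [cz1 x h, if_neg hx]
  -- the zones
  have zone : ∀ x, a ≤ x → x = a ∨ x ∈ Ioo a a' ∨ a' ≤ x := by
    intro x hx
    rcases hx.eq_or_lt with h | h
    · exact Or.inl h.symm
    · rcases lt_or_ge x a' with h' | h'
      · exact Or.inr (Or.inl ⟨h, h'⟩)
      · exact Or.inr (Or.inr h')
  have fbd1 : ∀ x (_ : x ∈ Ioo a a'), b < f x ∧ f x < b' := by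
    intro x h
    rw [fz1 x h]
    exact ⟨(g ⟨x, h⟩).2.1, (g ⟨x, h⟩).2.2⟩
  have fmono : ∀ u v, a ≤ u → u < v → f u < f v := by
    intro u v hu huv
    rcases zone u hu with h | h | h
    · rw [h, fz0]
      rcases zone v (hu.trans huv.le) with h' | h' | h'
      · rw [h, h'] at huv
        exact absurd huv (lt_irrefl _)
      · exact (fbd1 v h').1
      · rw [fz2 v h']
        exact hb.trans_le (hb' v h')
    · rcases zone v (hu.trans huv.le) with h' | h' | h'
      · rw [h'] at huv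
        exact absurd huv (not_lt.2 h.1.le)
      · rw [fz1 u h, fz1 v h']
        exact hg ⟨u, h⟩ ⟨v, h'⟩ huv
      · rw [fz2 v h']
        exact (fbd1 u h).2.trans_le (hb' v h')
    · rw [fz2 u h, fz2 v (h.trans huv.le)]
      exact hf's u v h huv
  refine ⟨f, c, fz0, ?_, ?_, ?_, ?_, ?_⟩
  · intro u v hu hv
    constructor
    · intro h
      by_contra hcon
      exact absurd h (not_le.2 (fmono v u hv (not_le.1 hcon)))
    · intro h
      rcases h.eq_or_lt with h' | h'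
      · rw [h']
      · exact (fmono u v hu h').le
  · intro u v hu huv
    rcases zone u hu with h | h | h
    · rw [h, cz0]; exact Nat.zero_le _
    · rcases zone v (hu.trans huv) with h' | h' | h'
      · rw [h'] at huv
        exact absurd h.1 (not_lt.2 huv)
      · by_cases hv : (⟨v, h'⟩ : Ioo a a') ∈ s
        · have hu' : (⟨u, h⟩ : Ioo a a') ∈ s := hs _ _ hv huv
          rw [cz1a u h hu', cz1a v h' hv]
        · rw [cz1b v h' hv, cz1 u h]
          split_ifs <;> omega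
      · rw [cz2 v h', cz1 u h]
        split_ifs <;> omega
    · rw [cz2 u h, cz2 v (h.trans huv)]
      have := h3 u v h huv
      omega
  · intro u hu
    rcases zone u hu with h | h | h
    · rw [h, cz0]; exact Nat.zero_le _
    · rw [cz1 u h]
      split_ifs <;> omega
    · rw [cz2 u h]
      have := h4 u h
      omega
  · intro k hk
    rcases Nat.eq_zero_or_pos k with h | h
    · exact ⟨a, le_rfl, by rw [cz0, h]⟩
    · obtain ⟨u, hu1, hu2⟩ := h5 (k - 1) (by omega)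
      refine ⟨u, ha.le.trans hu1, ?_⟩
      rw [cz2 u hu1, hu2]
      omega
  · intro u v w hu hv hcuv hw1 hw2
    rcases zone u hu with hzu | hzu | hzu
    · -- `u = a`
      rw [hzu, fz0] at hw1
      rw [hzu, cz0] at hcuv
      rw [hzu, cz0]
      rcases hw1.eq_or_lt with hw | hw
      · exact ⟨a, le_rfl, cz0, by rw [fz0, hw]⟩
      · rcases zone v hv with hzv | hzv | hzv
        · rw [hzv, fz0] at hw2
          exact absurd hw (not_lt.2 hw2)
        · have hvs : (⟨v, hzv⟩ : Ioo a a') ∈ s := by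
            by_contra hcon
            rw [cz1b v hzv hcon] at hcuv
            exact absurd hcuv (by norm_num)
          have hwb : w < b' := hw2.trans_lt (fbd1 v hzv).2
          rw [fz1 v hzv] at hw2
          obtain ⟨t, ht, ht2⟩ := hlow ⟨v, hzv⟩ ⟨w, hw, hwb⟩ hvs hw2
          refine ⟨t.1, t.2.1.le, cz1a t.1 t.2 ht, ?_⟩
          rw [fz1 t.1 t.2, ht2]
        · rw [cz2 v hzv] at hcuv
          omega
    · have hbw : b < w := (fbd1 u hzu).1.trans_le hw1
      by_cases hus : (⟨u, hzu⟩ : Ioo a a') ∈ s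
      · rw [cz1a u hzu hus] at hcuv ⊢
        rcases zone v hv with hzv | hzv | hzv
        · rw [hzv, fz0] at hw2
          exact absurd hbw (not_lt.2 hw2)
        · have hvs : (⟨v, hzv⟩ : Ioo a a') ∈ s := by
            by_contra hcon
            rw [cz1b v hzv hcon] at hcuv
            exact absurd hcuv (by norm_num)
          have hwb : w < b' := hw2.trans_lt (fbd1 v hzv).2
          rw [fz1 v hzv] at hw2
          obtain ⟨t, ht, ht2⟩ := hlow ⟨v, hzv⟩ ⟨w, hbw, hwb⟩ hvs hw2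
          refine ⟨t.1, t.2.1.le, cz1a t.1 t.2 ht, ?_⟩
          rw [fz1 t.1 t.2, ht2]
        · rw [cz2 v hzv] at hcuv
          omega
      · rw [cz1b u hzu hus] at hcuv ⊢
        rcases lt_or_ge w b' with hwb | hwb
        · rw [fz1 u hzu] at hw1
          obtain ⟨t, ht, ht2⟩ := hup ⟨u, hzu⟩ ⟨w, hbw, hwb⟩ hus hw1
          refine ⟨t.1, t.2.1.le, cz1b t.1 t.2 ht, ?_⟩
          rw [fz1 t.1 t.2, ht2]
        · rcases zone v hv with hzv | hzv | hzv
          · rw [hzv, fz0] at hw2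
            exact absurd hbw (not_lt.2 hw2)
          · exact absurd (fbd1 v hzv).2 (not_lt.2 (hwb.trans hw2))
          · rw [cz2 v hzv] at hcuv
            rw [fz2 v hzv] at hw2
            obtain ⟨t, ht1, ht2, ht3⟩ := h6 a' v w le_rfl hzv (by omega) (by rw [h1]; exact hwb) hw2
            refine ⟨t, ha.le.trans ht1, ?_, ?_⟩
            · rw [cz2 t ht1, ht2, hc0]
            · rw [fz2 t ht1, ht3]
    · -- `a' ≤ u`
      rw [fz2 u hzu] at hw1
      rw [cz2 u hzu] at hcuv ⊢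
      have hwb : b' ≤ w := (hb' u hzu).trans hw1
      rcases zone v hv with hzv | hzv | hzv
      · rw [hzv, fz0] at hw2
        exact absurd hb (not_lt.2 (hwb.trans hw2))
      · exact absurd (fbd1 v hzv).2 (not_lt.2 (hwb.trans hw2))
      · rw [cz2 v hzv] at hcuv
        rw [fz2 v hzv] at hw2
        obtain ⟨t, ht1, ht2, ht3⟩ := h6 u v w hzu hzv (by omega) hw1 hw2
        refine ⟨t, ha.le.trans ht1, ?_, ?_⟩
        · rw [cz2 t ht1, ht2]
        · rw [fz2 t ht1, ht3]

end Pool.Agent.H742.PW
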