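import Pool.Agent.H742.PW.Stm

/-!
# TR: piecewise embeddings can be composed (helper860, for helper742)
-/

set_option autoImplicit false

namespace Pool.Agent.H742.PW
open Set MeasureTheory Pool.Agent.HLead.CB

namespace TR

/-- A monotone function into `ℕ` with bounded values can be replaced by a surjection. -/
theorem compress {α : Type} [LinearOrder α] [Nonempty α] (e : α → ℕ) (he : Monotone e) (N : ℕ)
    (hN : ∀ u, e u < N) :
    ∃ (r : ℕ) (c : α → Fin (r + 1)), Monotone c ∧ Function.Surjective c ∧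
      ∀ u v, c u = c v ↔ e u = e v := by
  classical
  let V : Finset ℕ := (Finset.range N).filter (fun i => ∃ u, e u = i)
  have hV : ∀ u, e u ∈ V := fun u =>
    Finset.mem_filter.2 ⟨Finset.mem_range.2 (hN u), u, rfl⟩
  obtain ⟨u₀⟩ := ‹Nonempty α›
  obtain ⟨r, hr⟩ : ∃ r, V.card = r + 1 :=
    Nat.exists_eq_succ_of_ne_zero (Finset.card_ne_zero.2 ⟨e u₀, hV u₀⟩)
  let φ : Fin (r + 1) ≃o V := V.orderIsoOfFin hr
  refine ⟨r, fun u => φ.symm ⟨e u, hV u⟩, ?_, ?_, ?_⟩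
  · intro u v huv
    exact φ.symm.monotone (he huv)
  · intro k
    obtain ⟨-, u, hu⟩ := Finset.mem_filter.1 (φ k).2
    refine ⟨u, ?_⟩
    have h1 : (⟨e u, hV u⟩ : V) = φ k := Subtype.ext hu
    change φ.symm ⟨e u, hV u⟩ = k
    rw [h1, φ.symm_apply_apply]
  · intro u v
    constructor
    · intro h
      have h1 := φ.symm.injective h
      exact congrArg Subtype.val h1
    · intro h
      exact congrArg φ.symm (Subtype.ext h)

end TR

/-- TASK TR -/
theorem t_TR : S_TR := by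
  rintro α β γ _ _ _ _ ⟨f, n, c, hc, -, hcc⟩ ⟨g, m, d, hd, -, hdc⟩
  have he : Monotone (fun u : α => (c u : ℕ) + (d (f u) : ℕ)) := fun u v h =>
    Nat.add_le_add (hc h) (hd (f.monotone h))
  obtain ⟨r, p, hp, hps, hpe⟩ := TR.compress (fun u : α => (c u : ℕ) + (d (f u) : ℕ)) he
    (n + m + 1) (fun u => by
      have h1 := (c u).2
      have h2 := (d (f u)).2
      change (c u : ℕ) + (d (f u) : ℕ) < n + m + 1
      omega)
  refine ⟨f.trans g, r, p, hp, hps, ?_⟩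
  intro k
  refine ⟨?_⟩
  rintro _ ⟨u, hu, rfl⟩ _ ⟨v, hv, rfl⟩ w ⟨huw, hwv⟩
  have hu' : p u = k := hu
  have hv' : p v = k := hv
  have huw' : g (f u) ≤ w := huw
  have hwv' : w ≤ g (f v) := hwv
  have hfuv : f u ≤ f v := g.le_iff_le.1 (huw'.trans hwv')
  have huv : u ≤ v := f.le_iff_le.1 hfuv
  have h1 : (c u : ℕ) + (d (f u) : ℕ) = (c v : ℕ) + (d (f v) : ℕ) :=
    (hpe u v).1 (hu'.trans hv'.symm)
  have h2 : (c u : ℕ) ≤ (c v : ℕ) := hc huv
  have h3 : (d (f u) : ℕ) ≤ (d (f v) : ℕ) := hd hfuv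
  have hcuv : c v = c u := Fin.ext (by omega)
  have hduv : d (f v) = d (f u) := Fin.ext (by omega)
  -- the point of the middle order
  obtain ⟨y, hy, hyw⟩ := (hdc (d (f u))).out ⟨f u, rfl, rfl⟩ ⟨f v, hduv, rfl⟩ ⟨huw', hwv'⟩
  have hy' : d y = d (f u) := hy
  have huy : f u ≤ y := g.le_iff_le.1 (by rw [hyw]; exact huw')
  have hyv : y ≤ f v := g.le_iff_le.1 (by rw [hyw]; exact hwv')
  obtain ⟨t, ht, hty⟩ := (hcc (c u)).out ⟨u, rfl, rfl⟩ ⟨v, hcuv, rfl⟩ ⟨huy, hyv⟩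
  have ht' : c t = c u := ht
  refine ⟨t, ?_, ?_⟩
  · have h4 : p t = p u := by
      rw [hpe]
      rw [ht', hty, hy']
    exact h4.trans hu'
  · change g (f t) = w
    rw [hty, hyw]

end Pool.Agent.H742.PW
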