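import Pool.Agent.H742.PW.Stm

/-!
# Task WIN1: markers are recognised by convex embeddings
-/

set_option autoImplicit false

namespace Pool.Agent.H742.PW

open Set

namespace WIN1

/-! ### Copies of the integers -/

section ZZ

variable {X : Type} [LinearOrder X]

/-- the successor -/
def sc (q : X ×ₗ ℤ) : X ×ₗ ℤ := toLex ((ofLex q).1, (ofLex q).2 + 1)

/-- the predecessor -/
def pd (q : X ×ₗ ℤ) : X ×ₗ ℤ := toLex ((ofLex q).1, (ofLex q).2 - 1)

theorem lt_sc (q : X ×ₗ ℤ) : q < sc q := by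
  rw [Prod.Lex.lt_iff]
  exact Or.inr ⟨rfl, by simp [sc]⟩

theorem pd_lt (q : X ×ₗ ℤ) : pd q < q := by
  rw [Prod.Lex.lt_iff]
  exact Or.inr ⟨rfl, by simp [pd]⟩

theorem sc_le {q r : X ×ₗ ℤ} (h : q < r) : sc q ≤ r := by
  rw [Prod.Lex.lt_iff] at h
  rw [Prod.Lex.le_iff]
  rcases h with h | ⟨h, h'⟩
  · exact Or.inl h
  · exact Or.inr ⟨h, by simp only [sc, ofLex_toLex]; omega⟩

end ZZ

/-! ### The target -/

section WW

variable (M : Type) [LinearOrder M]

/-- the target -/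
abbrev WW : Type := ℕᵒᵈ ×ₗ (Unit ⊕ₗ (M ×ₗ ℤ))

variable {M}

/-- a marker -/
def mk (n : ℕ) : WW M := toLex (OrderDual.toDual n, toLex (Sum.inl ()))

/-- the other points -/
def el (n : ℕ) (q : M ×ₗ ℤ) : WW M := toLex (OrderDual.toDual n, toLex (Sum.inr q))

omit [LinearOrder M] in
theorem ww_cases (y : WW M) : (∃ n, y = mk n) ∨ ∃ n q, y = el n q := by
  obtain ⟨n, c⟩ := y
  rcases c with u | q
  · exact Or.inl ⟨OrderDual.ofDual n, rfl⟩
  · exact Or.inr ⟨OrderDual.ofDual n, q, rfl⟩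

theorem mk_lt_mk {a b : ℕ} : (mk a : WW M) < mk b ↔ b < a := by
  unfold mk
  rw [Prod.Lex.toLex_lt_toLex]
  simp

theorem mk_lt_el {a b : ℕ} {q : M ×ₗ ℤ} : mk a < el b q ↔ b ≤ a := by
  unfold mk el
  rw [Prod.Lex.toLex_lt_toLex]
  simp only [OrderDual.toDual_lt_toDual, OrderDual.toDual_inj, Sum.Lex.inl_lt_inr, and_true]
  omega

theorem el_lt_mk {a b : ℕ} {q : M ×ₗ ℤ} : el a q < mk b ↔ b < a := by
  unfold mk el
  rw [Prod.Lex.toLex_lt_toLex]
  simp only [OrderDual.toDual_lt_toDual, OrderDual.toDual_inj, Sum.Lex.not_inr_lt_inl, and_false,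
    or_false]

theorem el_lt_el {a b : ℕ} {q r : M ×ₗ ℤ} : el a q < el b r ↔ b < a ∨ a = b ∧ q < r := by
  unfold el
  rw [Prod.Lex.toLex_lt_toLex]
  simp only [OrderDual.toDual_lt_toDual, OrderDual.toDual_inj, Sum.Lex.inr_lt_inr_iff]

/-- the other points have immediate successors -/
theorem el_succ {n : ℕ} {q : M ×ₗ ℤ} {y : WW M} (h : el n q < y) : el n (sc q) ≤ y := by
  rcases ww_cases y with ⟨m, rfl⟩ | ⟨m, r, rfl⟩
  · rw [el_lt_mk] at h
    exact (el_lt_mk.mpr h).le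
  · rw [el_lt_el] at h
    rcases h with h | ⟨rfl, h⟩
    · exact (el_lt_el.mpr (Or.inl h)).le
    · rcases (sc_le h).lt_or_eq with h1 | h1
      · exact (el_lt_el.mpr (Or.inr ⟨rfl, h1⟩)).le
      · rw [h1]

/-- markers have no immediate successors -/
theorem mk_succ [Nonempty M] {n : ℕ} {y : WW M} (h : mk n < y) : ∃ z, mk n < z ∧ z < y := by
  obtain ⟨m0⟩ := ‹Nonempty M›
  rcases ww_cases y with ⟨m, rfl⟩ | ⟨m, r, rfl⟩
  · rw [mk_lt_mk] at h
    exact ⟨el n (toLex (m0, 0)), mk_lt_el.mpr le_rfl, el_lt_mk.mpr h⟩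
  · rw [mk_lt_el] at h
    rcases h.lt_or_eq with h | rfl
    · exact ⟨el n (toLex (m0, 0)), mk_lt_el.mpr le_rfl, el_lt_el.mpr (Or.inl h)⟩
    · exact ⟨el m (pd r), mk_lt_el.mpr le_rfl, el_lt_el.mpr (Or.inr ⟨rfl, pd_lt r⟩)⟩

end WW

/-! ### The domain -/

section DD

variable (P M : Type) [LinearOrder P] [LinearOrder M]

/-- the domain -/
abbrev DD : Type := WW M ⊕ₗ (Unit ⊕ₗ (P ×ₗ ℤ))

variable {P M}

variable (P M) in
/-- the last marker -/
def st : DD P M := toLex (Sum.inr (toLex (Sum.inl ())))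

variable (M) in
/-- the points above it -/
def te (q : P ×ₗ ℤ) : DD P M := toLex (Sum.inr (toLex (Sum.inr q)))

theorem st_lt_te (q : P ×ₗ ℤ) : st P M < te M q := by
  unfold st te
  rw [Sum.Lex.inr_lt_inr_iff]
  exact Sum.Lex.inl_lt_inr _ _

theorem te_lt_te {q r : P ×ₗ ℤ} : te M q < te M r ↔ q < r := by
  unfold te
  rw [Sum.Lex.inr_lt_inr_iff, Sum.Lex.inr_lt_inr_iff]

theorem of_st_lt {x : DD P M} (h : st P M < x) : ∃ q, x = te M q := by
  rcases x with w | c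
  · exact absurd h Sum.Lex.not_inr_lt_inl
  · rcases c with u | q
    · exact absurd h (lt_irrefl _)
    · exact ⟨q, rfl⟩

end DD

theorem main {P M : Type} [LinearOrder P] [LinearOrder M] [Nonempty M] (p : P) (f : DD P M ↪o WW M)
    (hf : (range f).OrdConnected) : ILt (P ×ₗ ℤ) (M ×ₗ ℤ) := by
  -- the image of the marker is a marker
  obtain ⟨n, hn⟩ : ∃ n, f (st P M) = mk n := by
    rcases ww_cases (f (st P M)) with h | ⟨n, q, h⟩
    · exact h
    exfalso
    have h1 : f (st P M) < f (te M (toLex (p, 0))) := f.lt_iff_lt.mpr (st_lt_te _)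
    have h2 : f (st P M) < el n (sc q) := by
      rw [h]
      exact el_lt_el.mpr (Or.inr ⟨rfl, lt_sc q⟩)
    have h3 : el n (sc q) ≤ f (te M (toLex (p, 0))) := by
      rw [h] at h1
      exact el_succ h1
    obtain ⟨x, hx⟩ := hf.out (mem_range_self _) (mem_range_self _) ⟨h2.le, h3⟩
    rw [← hx, f.lt_iff_lt] at h2
    obtain ⟨r, rfl⟩ := of_st_lt h2
    have h4 : f (st P M) < f (te M (pd r)) := f.lt_iff_lt.mpr (st_lt_te _)
    have h5 : f (te M (pd r)) < f (te M r) := f.lt_iff_lt.mpr (te_lt_te.mpr (pd_lt r))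
    rw [h] at h4
    have h6 := el_succ h4
    rw [← hx] at h6
    exact absurd h5 (not_lt.mpr h6)
  -- the points above it are mapped to the same copy
  have hb : ∀ q : P ×ₗ ℤ, ∃ r : M ×ₗ ℤ, f (te M q) = el n r := by
    intro q
    have h1 : f (st P M) < f (te M q) := f.lt_iff_lt.mpr (st_lt_te _)
    by_cases hlt : ∃ m, m < n ∧ (mk m : WW M) ≤ f (te M q)
    · exfalso
      obtain ⟨m, hm, hle⟩ := hlt
      have h2 : f (st P M) < mk m := by
        rw [hn]
        exact mk_lt_mk.mpr hm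
      obtain ⟨x, hx⟩ := hf.out (mem_range_self _) (mem_range_self _) ⟨h2.le, hle⟩
      rw [← hx, f.lt_iff_lt] at h2
      obtain ⟨r, rfl⟩ := of_st_lt h2
      have h3 : mk m < f (te M (sc r)) := by
        rw [← hx]
        exact f.lt_iff_lt.mpr (te_lt_te.mpr (lt_sc r))
      obtain ⟨z, hz1, hz2⟩ := mk_succ h3
      obtain ⟨y, hy⟩ := hf.out ⟨te M r, hx⟩ (mem_range_self (te M (sc r))) ⟨hz1.le, hz2.le⟩
      rw [← hy] at hz1 hz2
      rw [← hx, f.lt_iff_lt] at hz1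
      rw [f.lt_iff_lt] at hz2
      obtain ⟨s, rfl⟩ := of_st_lt ((st_lt_te r).trans hz1)
      rw [te_lt_te] at hz1 hz2
      exact absurd hz2 (not_lt.mpr (sc_le hz1))
    · push Not at hlt
      rw [hn] at h1
      rcases ww_cases (f (te M q)) with ⟨m, h⟩ | ⟨m, r, h⟩
      · rw [h, mk_lt_mk] at h1
        have h2 := hlt m h1
        rw [h] at h2
        exact absurd h2 (lt_irrefl _)
      · rw [h, mk_lt_el] at h1
        rcases h1.lt_or_eq with h2 | rfl
        · have h3 := hlt m h2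
          rw [h, el_lt_mk] at h3
          exact absurd h3 (lt_irrefl _)
        · exact ⟨r, h⟩
  choose h hh using hb
  refine ⟨OrderEmbedding.ofStrictMono h ?_, ?_⟩
  · intro q r hqr
    have h1 : f (te M q) < f (te M r) := f.lt_iff_lt.mpr (te_lt_te.mpr hqr)
    rw [hh, hh, el_lt_el] at h1
    rcases h1 with h1 | ⟨-, h1⟩
    · exact absurd h1 (lt_irrefl _)
    · exact h1
  · intro q r hrq
    change r ≤ h q at hrq
    change ∃ q', h q' = r
    have h1 : el n r ≤ f (te M q) := by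
      rw [hh]
      rcases hrq.lt_or_eq with h2 | h2
      · exact (el_lt_el.mpr (Or.inr ⟨rfl, h2⟩)).le
      · rw [h2]
    have h2 : f (st P M) < el n r := by
      rw [hn]
      exact mk_lt_el.mpr le_rfl
    obtain ⟨x, hx⟩ := hf.out (mem_range_self _) (mem_range_self _) ⟨h2.le, h1⟩
    rw [← hx, f.lt_iff_lt] at h2
    obtain ⟨q', rfl⟩ := of_st_lt h2
    refine ⟨q', ?_⟩
    rw [hh] at hx
    unfold el at hx
    exact Sum.inr_injective (toLex_inj.mp (Prod.ext_iff.mp (toLex_inj.mp hx)).2)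

end WIN1

theorem t_WIN1 : S_ZB → S_WIN1 := by
  intro hZB P M _ _ _ h
  rcases isEmpty_or_nonempty P with hP | ⟨⟨p⟩⟩
  · exact ⟨⟨⟨fun a => hP.elim a, fun a => hP.elim a⟩, fun {a} => hP.elim a⟩, fun a => hP.elim a⟩
  · obtain ⟨f, hf⟩ := h
    exact (hZB P M).mp (WIN1.main p f hf)

end Pool.Agent.H742.PW
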