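import Pool.Agent.H742.PW.Stm

set_option autoImplicit false
set_option linter.all false

namespace Pool.Agent.H742.PW
open Set Pool.Agent.HLead.CB

namespace WIN2

variable {P M : Type} [LinearOrder P] [LinearOrder M]

/-- `Unit ⊕ₗ (P ×ₗ ℤ)` into `Unit ⊕ₗ (M ×ₗ ℤ)` -/
def j (f : P ↪o M) (d : Unit ⊕ₗ (P ×ₗ ℤ)) : Unit ⊕ₗ (M ×ₗ ℤ) :=
  match ofLex d with
  | Sum.inl u => toLex (Sum.inl u)
  | Sum.inr y => toLex (Sum.inr (toLex (f (ofLex y).1, (ofLex y).2)))

theorem j_mono (f : P ↪o M) : StrictMono (j f) := by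
  intro a b hab
  induction a using Lex.rec with
  | _ a =>
  induction b using Lex.rec with
  | _ b =>
  rcases a with a | a <;> rcases b with b | b
  · have h : a < b := Sum.Lex.inl_lt_inl_iff.1 hab
    exact absurd h (lt_irrefl _)
  · exact Sum.Lex.inl_lt_inr _ _
  · exact absurd hab Sum.Lex.not_inr_lt_inl
  · have h : a < b := Sum.Lex.inr_lt_inr_iff.1 hab
    apply Sum.Lex.inr_lt_inr_iff.2
    rw [Prod.Lex.lt_iff] at h
    rw [Prod.Lex.toLex_lt_toLex]
    rcases h with h | ⟨h, h'⟩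
    · exact Or.inl (f.lt_iff_lt.2 h)
    · exact Or.inr ⟨congrArg f h, h'⟩

theorem j_lower (f : P ↪o M) (hf : ∀ a b, b ≤ f a → ∃ a', f a' = b) (c : Unit ⊕ₗ (M ×ₗ ℤ))
    (d : Unit ⊕ₗ (P ×ₗ ℤ)) (h : c ≤ j f d) : ∃ d', j f d' = c := by
  induction c using Lex.rec with
  | _ c =>
  induction d using Lex.rec with
  | _ d =>
  rcases c with c | c
  · exact ⟨toLex (Sum.inl c), rfl⟩
  · rcases d with d | d
    · exact absurd h Sum.Lex.not_inr_le_inl
    · have h1 : c ≤ toLex (f (ofLex d).1, (ofLex d).2) := Sum.Lex.inr_le_inr_iff.1 h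
      rw [Prod.Lex.le_iff] at h1
      have h2 : (ofLex c).1 ≤ f (ofLex d).1 := by
        rcases h1 with h1 | ⟨h1, -⟩
        · exact h1.le
        · exact h1.le
      obtain ⟨p, hp⟩ := hf _ _ h2
      refine ⟨toLex (Sum.inr (toLex (p, (ofLex c).2))), ?_⟩
      change toLex (Sum.inr (toLex (f p, (ofLex c).2))) = _
      rw [hp]
      rfl

/-- the shift -/
def F (f : P ↪o M) (x : (ℕᵒᵈ ×ₗ (Unit ⊕ₗ (M ×ₗ ℤ))) ⊕ₗ (Unit ⊕ₗ (P ×ₗ ℤ))) :
    ℕᵒᵈ ×ₗ (Unit ⊕ₗ (M ×ₗ ℤ)) :=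
  match ofLex x with
  | Sum.inl w => toLex (OrderDual.toDual (OrderDual.ofDual (ofLex w).1 + 1), (ofLex w).2)
  | Sum.inr d => toLex (OrderDual.toDual 0, j f d)

theorem F_mono (f : P ↪o M) : StrictMono (F f) := by
  intro a b hab
  induction a using Lex.rec with
  | _ a =>
  induction b using Lex.rec with
  | _ b =>
  rcases a with a | a <;> rcases b with b | b
  · have h : a < b := Sum.Lex.inl_lt_inl_iff.1 hab
    change toLex (OrderDual.toDual (OrderDual.ofDual (ofLex a).1 + 1), (ofLex a).2) <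
      toLex (OrderDual.toDual (OrderDual.ofDual (ofLex b).1 + 1), (ofLex b).2)
    rw [Prod.Lex.lt_iff] at h
    rw [Prod.Lex.toLex_lt_toLex]
    rcases h with h | ⟨h, h'⟩
    · left
      have h2 : OrderDual.ofDual (ofLex b).1 < OrderDual.ofDual (ofLex a).1 := h
      exact OrderDual.toDual_lt_toDual.2 (Nat.add_lt_add_right h2 1)
    · right
      refine ⟨?_, h'⟩
      change OrderDual.toDual (OrderDual.ofDual (ofLex a).1 + 1) =
        OrderDual.toDual (OrderDual.ofDual (ofLex b).1 + 1)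
      rw [h]
  · change toLex (OrderDual.toDual (OrderDual.ofDual (ofLex a).1 + 1), (ofLex a).2) <
      toLex (OrderDual.toDual 0, j f b)
    rw [Prod.Lex.toLex_lt_toLex]
    exact Or.inl (OrderDual.toDual_lt_toDual.2 (Nat.succ_pos _))
  · exact absurd hab Sum.Lex.not_inr_lt_inl
  · have h : a < b := Sum.Lex.inr_lt_inr_iff.1 hab
    change toLex (OrderDual.toDual 0, j f a) < toLex (OrderDual.toDual 0, j f b)
    rw [Prod.Lex.toLex_lt_toLex]
    exact Or.inr ⟨rfl, j_mono f h⟩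

theorem F_lower (f : P ↪o M) (hf : ∀ a b, b ≤ f a → ∃ a', f a' = b) :
    IsLowerSet (range (F f)) := by
  rintro _ y hy ⟨x, rfl⟩
  induction y using Lex.rec with
  | _ y =>
  obtain ⟨n, c⟩ := y
  induction n using OrderDual.rec with
  | _ n =>
  rcases n with _ | n
  · induction x using Lex.rec with
    | _ x =>
    rcases x with x | x
    · exfalso
      have h : toLex (OrderDual.toDual 0, c) ≤
        toLex (OrderDual.toDual (OrderDual.ofDual (ofLex x).1 + 1), (ofLex x).2) := hy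
      rw [Prod.Lex.toLex_le_toLex] at h
      rcases h with h | ⟨h, -⟩
      · have h2 := OrderDual.toDual_lt_toDual.1 h
        exact absurd h2 (Nat.not_lt_zero _)
      · have h2 : 0 = OrderDual.ofDual (ofLex x).1 + 1 := OrderDual.toDual_inj.1 h
        exact absurd h2.symm (Nat.succ_ne_zero _)
    · have h : toLex (OrderDual.toDual 0, c) ≤ toLex (OrderDual.toDual 0, j f x) := hy
      rw [Prod.Lex.toLex_le_toLex] at h
      rcases h with h | ⟨-, h⟩
      · exact absurd h (lt_irrefl _)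
      · obtain ⟨d, hd⟩ := j_lower f hf c x h
        refine ⟨toLex (Sum.inr d), ?_⟩
        change toLex (OrderDual.toDual 0, j f d) = _
        rw [hd]
  · exact ⟨toLex (Sum.inl (toLex (OrderDual.toDual n, c))), rfl⟩

end WIN2

theorem t_WIN2 : S_WIN2 := by
  rintro P M _ _ ⟨f, hf⟩
  constructor
  · exact ⟨OrderEmbedding.ofStrictMono (WIN2.F f) (WIN2.F_mono f),
      (WIN2.F_lower f hf).ordConnected⟩
  · have hm : StrictMono (fun w : ℕᵒᵈ ×ₗ (Unit ⊕ₗ (M ×ₗ ℤ)) =>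
        (toLex (Sum.inl w) : (ℕᵒᵈ ×ₗ (Unit ⊕ₗ (M ×ₗ ℤ))) ⊕ₗ (Unit ⊕ₗ (P ×ₗ ℤ)))) :=
      fun a b hab => Sum.Lex.inl_lt_inl_iff.2 hab
    refine ⟨OrderEmbedding.ofStrictMono _ hm, ?_⟩
    apply IsLowerSet.ordConnected
    rintro _ y hy ⟨x, rfl⟩
    induction y using Lex.rec with
    | _ y =>
    rcases y with y | y
    · exact ⟨y, rfl⟩
    · have h : (toLex (Sum.inr y) : (ℕᵒᵈ ×ₗ (Unit ⊕ₗ (M ×ₗ ℤ))) ⊕ₗ (Unit ⊕ₗ (P ×ₗ ℤ))) ≤
        toLex (Sum.inl x) := hy
      exact absurd h Sum.Lex.not_inr_le_inl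

end Pool.Agent.H742.PW
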