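import Pool.Agent.H742.PW.Stm

set_option autoImplicit false

namespace Pool.Agent.H742.PW
open Set MeasureTheory Pool.Agent.HLead.CB

namespace ZB

variable {P M : Type} [LinearOrder P] [LinearOrder M]

theorem lt_iff' (x y : M ×ₗ ℤ) :
    x < y ↔ (ofLex x).1 < (ofLex y).1 ∨ (ofLex x).1 = (ofLex y).1 ∧ (ofLex x).2 < (ofLex y).2 :=
  Prod.Lex.lt_iff

theorem le_iff' (x y : M ×ₗ ℤ) :
    x ≤ y ↔ (ofLex x).1 < (ofLex y).1 ∨ (ofLex x).1 = (ofLex y).1 ∧ (ofLex x).2 ≤ (ofLex y).2 :=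
  Prod.Lex.le_iff

theorem succ_step (g : P ×ₗ ℤ ↪o M ×ₗ ℤ) (hg : ∀ a b, b ≤ g a → ∃ a', g a' = b) (p : P) (k : ℤ) :
    g (toLex (p, k + 1)) =
      toLex ((ofLex (g (toLex (p, k)))).1, (ofLex (g (toLex (p, k)))).2 + 1) := by
  set x := g (toLex (p, k)) with hx
  set y : M ×ₗ ℤ := toLex ((ofLex x).1, (ofLex x).2 + 1) with hy
  have h1 : x < g (toLex (p, k + 1)) := by
    rw [hx, g.lt_iff_lt, lt_iff']
    right
    exact ⟨rfl, by simp⟩
  have h2 : y ≤ g (toLex (p, k + 1)) := by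
    rw [lt_iff'] at h1
    rw [le_iff', hy]
    simp only [ofLex_toLex]
    rcases h1 with h1 | ⟨h1, h1'⟩
    · exact Or.inl h1
    · exact Or.inr ⟨h1, by omega⟩
  have h3 : x < y := by
    rw [lt_iff', hy]
    right
    exact ⟨rfl, by simp⟩
  obtain ⟨z, hz⟩ := hg _ _ h2
  rw [← hz, hx, g.lt_iff_lt, lt_iff'] at h3
  rw [← hz, g.le_iff_le, le_iff'] at h2
  simp only [ofLex_toLex] at h2 h3
  have h4 : z = toLex (p, k + 1) := by
    have h5 : (ofLex z).1 = p := by
      rcases h2 with h2 | ⟨h2, -⟩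
      · rcases h3 with h3 | ⟨h3, -⟩
        · exact absurd h2 (not_lt.2 h3.le)
        · exact h3.symm
      · exact h2
    have h6 : (ofLex z).2 = k + 1 := by
      rcases h2 with h2 | ⟨-, h2⟩
      · exact absurd h2 (by rw [h5]; exact lt_irrefl _)
      · rcases h3 with h3 | ⟨-, h3⟩
        · exact absurd h3 (by rw [h5]; exact lt_irrefl _)
        · omega
    apply ofLex.injective
    exact Prod.ext h5 h6
  rw [← h4, hz]

theorem shift (g : P ×ₗ ℤ ↪o M ×ₗ ℤ) (hg : ∀ a b, b ≤ g a → ∃ a', g a' = b) (p : P) (k : ℤ) :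
    (ofLex (g (toLex (p, k)))).1 = (ofLex (g (toLex (p, 0)))).1 ∧
      (ofLex (g (toLex (p, k)))).2 = (ofLex (g (toLex (p, 0)))).2 + k := by
  induction k using Int.induction_on with
  | zero => simp
  | succ i ih =>
    rw [succ_step g hg p i]
    simp only [ofLex_toLex]
    exact ⟨ih.1, by rw [ih.2]; ring⟩
  | pred i ih =>
    have h := succ_step g hg p (-(i : ℤ) - 1)
    rw [sub_add_cancel] at h
    rw [h] at ih
    simp only [ofLex_toLex] at ih
    exact ⟨ih.1, by linarith [ih.2]⟩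

end ZB

open ZB in
theorem t_ZB : S_ZB := by
  intro P M _ _
  constructor
  · rintro ⟨g, hg⟩
    have hmono : StrictMono fun p : P => (ofLex (g (toLex (p, (0 : ℤ))))).1 := by
      intro p p' hpp
      have hlt : ∀ k : ℤ, g (toLex (p, k)) < g (toLex (p', (0 : ℤ))) := by
        intro k
        rw [g.lt_iff_lt, lt_iff']
        exact Or.inl hpp
      have h0 := hlt ((ofLex (g (toLex (p', (0 : ℤ))))).2 - (ofLex (g (toLex (p, (0 : ℤ))))).2)
      rw [lt_iff', (shift g hg p _).1, (shift g hg p _).2] at h0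
      rcases h0 with h0 | ⟨-, h0⟩
      · exact h0
      · exfalso; omega
    refine ⟨OrderEmbedding.ofStrictMono _ hmono, ?_⟩
    intro a b hb
    have hb' : b ≤ (ofLex (g (toLex (a, (0 : ℤ))))).1 := hb
    rcases hb'.eq_or_lt with h | h
    · exact ⟨a, h.symm⟩
    · have h1 : (toLex (b, (0 : ℤ)) : M ×ₗ ℤ) ≤ g (toLex (a, (0 : ℤ))) := by
        rw [le_iff']
        exact Or.inl h
      obtain ⟨z, hz⟩ := hg _ _ h1
      refine ⟨(ofLex z).1, ?_⟩
      have h2 := (shift g hg (ofLex z).1 (ofLex z).2).1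
      have h3 : (toLex ((ofLex z).1, (ofLex z).2) : P ×ₗ ℤ) = z := rfl
      rw [h3, hz] at h2
      show (ofLex (g (toLex ((ofLex z).1, (0 : ℤ))))).1 = b
      rw [← h2]
      rfl
  · rintro ⟨f, hf⟩
    have hmono : StrictMono fun x : P ×ₗ ℤ => (toLex (f (ofLex x).1, (ofLex x).2) : M ×ₗ ℤ) := by
      intro x y hxy
      rw [lt_iff'] at hxy ⊢
      simp only [ofLex_toLex]
      rcases hxy with h | ⟨h, h'⟩
      · exact Or.inl (f.lt_iff_lt.2 h)
      · exact Or.inr ⟨by rw [h], h'⟩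
    refine ⟨OrderEmbedding.ofStrictMono _ hmono, ?_⟩
    intro a b hb
    have hb' : b ≤ (toLex (f (ofLex a).1, (ofLex a).2) : M ×ₗ ℤ) := hb
    rw [le_iff'] at hb'
    simp only [ofLex_toLex] at hb'
    have h1 : (ofLex b).1 ≤ f (ofLex a).1 := by
      rcases hb' with h | ⟨h, -⟩
      · exact h.le
      · exact h.le
    obtain ⟨a', ha'⟩ := hf _ _ h1
    refine ⟨toLex (a', (ofLex b).2), ?_⟩
    show (toLex (f a', (ofLex b).2) : M ×ₗ ℤ) = b
    rw [ha']
    rfl

end Pool.Agent.H742.PW
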