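import Pool.Agent.H742.PW.Defs

/-!
# Statements of the subtasks (MP_9f2d77_lc)

Each task `XXX`: a file proving `theorem Pool.Agent.H742.PW.t_XXX : S_XXX` (or, where the text says so, from
other statements as hypotheses).
-/

set_option autoImplicit false

namespace Pool.Agent.H742.PW
open Set MeasureTheory Pool.Agent.HLead.CB

/-! ### Order theory -/

/-- TASK B1.  Proof.  (→) Let `f : α ↪o β` have as image a lower set `J`.  For `a : α`, `f` restricts to `Iic a ≃o Iic (f a)`, so
`J ⊆ U := {b | ∃ a, Nonempty (Iic a ≃o Iic b)}`.  If `J = U` then `α ≃o U`.  Otherwise take `b ∈ U`, `b ∉ J`, and `a` with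
`Iic a ≃o Iic b`.  As `J` is a lower set and `b ∉ J`, all elements of `J` are `< b`, so `J` is a lower subset of `Iic b` and
`α ≃o J` is an initial segment of `Iic b ≃o Iic a`.
(←) `U` is a lower set (restrict `Iic a ≃o Iic b` to `Iic b'`, `b' ≤ b`), so `α ≃o U` is an initial segment of `β`.  If
`ILt α (Iic a)` and `Iic a ≃o Iic b`, then `α` is an initial segment of `Iic b`, so of `β`. -/
def S_B1 : Prop := ∀ (α β : Type) [LinearOrder α] [LinearOrder β],
  ILt α β ↔ (Nonempty (α ≃o {b : β | ∃ a : α, Nonempty (Iic a ≃o Iic b)}) ∨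
    ∃ (b : β) (a : α), Nonempty (Iic a ≃o Iic b) ∧ ILt α (Iic a))

/-- TASK A1.  Write `A = {x | ∃ b : β, Iic x ≃o Iic b}` and `B = {x | ∃ b : γ, Ici x ≃o Ici b}`.  `A` is a lower set, `B` an upper set.
Proof.  (→) Let `s` be a lower set, `ILt s β` by `f`, `FLt sᶜ γ` by `g`.  If `x ∈ s` then `Iic x ⊆ s` and `f` gives
`Iic x ≃o Iic (f x)`, so `x ∈ A`; if `x ∉ s` then `x ∈ B` in the same way.  So `A ∪ B = univ`; if `A ∩ B = ∅` then `s = A` and `sᶜ = B`.
(←) If `x ∈ A ∩ B`: take `s = Iic x`; it is isomorphic to `Iic b ⊆ β`, and `sᶜ = Ioi x` is mapped by `Ici x ≃o Ici b'` onto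
`Ioi b'`, a final segment of `γ`.  If `A ∪ B = univ`, `A ∩ B = ∅` take `s = A`, `sᶜ = B`. -/
def S_A1 : Prop := ∀ (α β γ : Type) [LinearOrder α] [LinearOrder β] [LinearOrder γ],
  Dect α β γ ↔
    (∀ x : α, (∃ b : β, Nonempty (Iic x ≃o Iic b)) ∨ ∃ b : γ, Nonempty (Ici x ≃o Ici b)) ∧
    ((∃ x : α, (∃ b : β, Nonempty (Iic x ≃o Iic b)) ∧ ∃ b : γ, Nonempty (Ici x ≃o Ici b)) ∨
      (ILt {x : α | ∃ b : β, Nonempty (Iic x ≃o Iic b)} β ∧
        FLt {x : α | ∃ b : γ, Nonempty (Ici x ≃o Ici b)} γ))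

/-- TASK B2 (from `S_B1` and `S_A1`).  Notation: `A`, `B` as in `A1`; `U = {b : β | ∃ x : α, Iic x ≃o Iic b}` (a lower set of `β`),
`V = {b : γ | ∃ x : α, Ici x ≃o Ici b}` (an upper set of `γ`); `P1`: there is `x ∈ A` with `ILt A (Iic x)`; `P2`: there is `x ∈ B`
with `FLt B (Ici x)`.
Proof.  (→) By `A1`, `A ∪ B = univ`.  Assume `A ∩ B = ∅`.  Then `ILt A β` and `FLt B γ`.  By `B1` for `A` and `β` (for `a ∈ A` the set
`Iic a` of the order `A` is the set `Iic a` of `α`, as `A` is a lower set; so the set of `B1` is `U`): `A ≃o U` or `P1`.  By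
`B1` for the dual orders (or the same proof): `B ≃o V` or `P2`.  If `A ≃o U` and `B ≃o V` then `U ⊕ₗ V ≃o A ⊕ₗ B ≃o α`; if `A ≃o U`, `P2`
then `U ⊕ₗ B ≃o α`, and so on.
(←) If `A ∩ B ≠ ∅` use `A1`.  If `P1` and `P2` then `ILt A β` (as `Iic x ≃o Iic b` is an initial segment of `β`) and `FLt B γ`, use `A1`.
If `U ⊕ₗ V ≃o α` let `s` be the image of `U`: `ILt s β` and `FLt sᶜ γ`.  If `P1` and `A ⊕ₗ V ≃o α` let `s` be the image of `A`: `s ≃o A`
and `ILt A β` by `P1`.  If `P2` and `U ⊕ₗ B ≃o α`: `s` the image of `U`, `sᶜ ≃o B` and `FLt B γ` by `P2`. -/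
def S_B2 : Prop := ∀ (α β γ : Type) [LinearOrder α] [LinearOrder β] [LinearOrder γ] (A B : Set α) (U : Set β)
  (V : Set γ), A = {x : α | ∃ b : β, Nonempty (Iic x ≃o Iic b)} →
  B = {x : α | ∃ b : γ, Nonempty (Ici x ≃o Ici b)} →
  U = {b : β | ∃ x : α, Nonempty (Iic x ≃o Iic b)} →
  V = {b : γ | ∃ x : α, Nonempty (Ici x ≃o Ici b)} →
  (Dect α β γ ↔ (∀ x, x ∈ A ∨ x ∈ B) ∧
    ((∃ x, x ∈ A ∧ x ∈ B) ∨
     ((∃ x, x ∈ A ∧ ILt A (Iic x)) ∧ ∃ x, x ∈ B ∧ FLt B (Ici x)) ∨
     ((∃ x, x ∈ A ∧ ILt A (Iic x)) ∧ Nonempty ((A ⊕ₗ V) ≃o α)) ∨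
     ((∃ x, x ∈ B ∧ FLt B (Ici x)) ∧ Nonempty ((U ⊕ₗ B) ≃o α)) ∨
     Nonempty ((U ⊕ₗ V) ≃o α)))

/-- TASK ZB.  Proof.  Let `g : P ×ₗ ℤ ↪o M ×ₗ ℤ` have a lower set as image.  Then `g (p, k + 1)` is the immediate successor of
`g (p, k)` (what lies between would be in the image), so it has the same first coordinate `h p` and its second coordinate
is one more.  So `g (p, k) = (h p, k + c)` and the image contains `{h p} × ℤ`.  If `p < p'` then `h p ≤ h p'` and `h p = h p'`
would contradict injectivity.  If `m < h p` then `(m, 0) < g (p, 0)`, so `(m, 0) = g (p', k')` and `m = h p'`.  So `h` is an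
embedding of `P` onto a lower set of `M`.  Conversely, from `f : P ↪o M` take `(p, k) ↦ (f p, k)`. -/
def S_ZB : Prop := ∀ (P M : Type) [LinearOrder P] [LinearOrder M], ILt (P ×ₗ ℤ) (M ×ₗ ℤ) ↔ ILt P M

/-- TASK WIN1 (uses `S_ZB` only for the last step; may be assumed).  Let `M` be nonempty, `W = ℕᵒᵈ ×ₗ (Unit ⊕ₗ (M ×ₗ ℤ))`: copies of
`1 + ℤ·M` in the order `ω*`.  The points `(n, inl ())` are called markers.  Let `f` embed `W ⊕ₗ (Unit ⊕ₗ (P ×ₗ ℤ))` into `W` with convex
image.  Claim: `ILt P M`.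
Proof.  If `P` is empty this is trivial.  Let `P` be nonempty and `* = inr (inl ())` the last marker of the domain.
`*` has no immediate successor (as `P ×ₗ ℤ` has no least element), while every point of `M ×ₗ ℤ` has one, `(m, k + 1)`.
(a) `f *` is a marker: otherwise `f *` has an immediate successor `s` in `W`; for any `p : P`, `f * < s ≤ f (p, 0)`, so `s = f t` by
convexity and `t` is an immediate successor of `*`, a contradiction.  Let `f * = (n, inl ())`.
(b) For `t = (p, k)` in `P ×ₗ ℤ`, `f t` is in `{n} × (M ×ₗ ℤ)`: it is above `f *`; otherwise it is at or above the next marker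
`μ = (n - 1, inl ())` (in `ℕᵒᵈ` the next index is `n - 1`, and `n ≥ 1`), so `μ = f t'` by convexity, `t'` in `P ×ₗ ℤ` has an immediate
successor `t''`, and `f t''` is an immediate successor of the marker `μ` (convexity); but markers have none as `M ×ₗ ℤ` has no
least element.
(c) the image of `P ×ₗ ℤ` under `f` is a lower set of `{n} × (M ×ₗ ℤ)`: if `y` is in it and `y ≤ f t` then `f * < y ≤ f t`, so `y = f t'` with
`t' > *`.  So `ILt (P ×ₗ ℤ) (M ×ₗ ℤ)`, hence `ILt P M` by `ZB`. -/
def S_WIN1 : Prop := ∀ (P M : Type) [LinearOrder P] [LinearOrder M] [Nonempty M],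
  CVt ((ℕᵒᵈ ×ₗ (Unit ⊕ₗ (M ×ₗ ℤ))) ⊕ₗ (Unit ⊕ₗ (P ×ₗ ℤ))) (ℕᵒᵈ ×ₗ (Unit ⊕ₗ (M ×ₗ ℤ))) → ILt P M

/-- TASK WIN2.  Proof.  `(ℕᵒᵈ ×ₗ C) ⊕ₗ C ≃o ℕᵒᵈ ×ₗ C` by the shift (`inl (n, c) ↦ (n + 1, c)`, `inr c ↦ (0, c)`), with `C = Unit ⊕ₗ (M ×ₗ ℤ)`.
If `f` embeds `P` onto a lower set of `M` then `Unit ⊕ₗ (P ×ₗ ℤ)` is mapped onto a lower set of `C`, so the sum `W ⊕ₗ (Unit ⊕ₗ (P ×ₗ ℤ))` is
mapped onto a lower set of `W ⊕ₗ C ≃o W`, which is convex.  The second part: `inl`. -/
def S_WIN2 : Prop := ∀ (P M : Type) [LinearOrder P] [LinearOrder M], ILt P M →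
  CVt ((ℕᵒᵈ ×ₗ (Unit ⊕ₗ (M ×ₗ ℤ))) ⊕ₗ (Unit ⊕ₗ (P ×ₗ ℤ))) (ℕᵒᵈ ×ₗ (Unit ⊕ₗ (M ×ₗ ℤ))) ∧
  CVt (ℕᵒᵈ ×ₗ (Unit ⊕ₗ (M ×ₗ ℤ))) ((ℕᵒᵈ ×ₗ (Unit ⊕ₗ (M ×ₗ ℤ))) ⊕ₗ (Unit ⊕ₗ (P ×ₗ ℤ)))

/-- TASK QS1.  Proof.  Let `f`, `c` witness `Qt α β (n + 1) a b`.  Choose `a'` with `a ≤ a'`, `c a' = 1` and put `b' = f a'`; `c a = 0` (it
is the least value), so `a < a'` and `b < b'`.  The part from `a'` on, with `c - 1`, gives `Qt α β n a' b'` (the piece
`{u | a' ≤ u, c u = 1}` is mapped onto the part from `b'` on of the image of the piece `{u | a ≤ u, c u = 1}`).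
`Ioo a a'` is the union of `s = {u | c u = 0}` (a lower set) and its complement `{u | c u = 1}`.  `f` maps `s` onto a lower set of
`Ioo b b'` and the complement onto an upper set of `Ioo b b'` (convexity of the images of the pieces `0 ∋ a` and `1 ∋ a'`).
If every point of `Ioo b b'` is in the image of `Ioo a a'`, then `Ioo a a' ≃o Ioo b b'`.  Otherwise let `r` in `Ioo b b'` not be in the
image; the image of `s` is a lower set not containing `r`, so it is contained in `Iio r` and is a lower set of it, and the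
image of the complement is an upper set of `Ioi r`: so `Dect (Ioo a a') (Iio r) (Ioi r)`. -/
def S_QS1 : Prop := ∀ (α β : Type) [LinearOrder α] [LinearOrder β] (n : ℕ) (a : α) (b : β),
  Qt α β (n + 1) a b →
    ∃ a' b', a < a' ∧ b < b' ∧ Midt (Ioo a a') (Ioo b b') ∧ Qt α β n a' b'

/-- TASK QS2.  Proof.  From `Midt (Ioo a a') (Ioo b b')` get a lower set `s` of `Ioo a a'` and an embedding `g` of `Ioo a a'` into
`Ioo b b'` that maps `s` onto a lower set and the complement onto an upper set of `Ioo b b'` (first case: `s` everything, `g` the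
isomorphism; second case: `s` and the two embeddings into `Iio r` and `Ioi r`).  With `f'`, `c'` for `Qt α β n a' b'` put
`f = f'` and `c = c' + 1` on `Ici a'`, `f = g` on `Ioo a a'`, `f a = b`, `c = 0` on `{a} ∪ s`, `c = 1` on the complement of `s` in `Ioo a a'`.
`c' a' = 0`, since `c'` is monotone with values `0, …, n` on `Ici a'`.  The image of piece `0` is `b` together with a lower set of
`Ioo b b'`; the image of piece `1` is an upper set of `Ioo b b'` together with the image of the piece `0` of `c'`, which is convex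
and contains `b'`. -/
def S_QS2 : Prop := ∀ (α β : Type) [LinearOrder α] [LinearOrder β] (n : ℕ) (a a' : α) (b b' : β),
  a < a' → b < b' → Midt (Ioo a a') (Ioo b b') → Qt α β n a' b' → Qt α β (n + 1) a b

/-- TASK Q0.  Proof.  `f` and `c = 0` on `Ici a`: the image of `Ici a` is convex with least element `b = f a`, so `f` restricts to an
embedding of `Ioi a` onto a lower set of `Ioi b`; conversely extend by `a ↦ b`.
-/
def S_Q0 : Prop := ∀ (α β : Type) [LinearOrder α] [LinearOrder β] (a : α) (b : β),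
  Qt α β 0 a b ↔ ILt (Ioi a) (Ioi b)

/-- TASK PQ.  Proof.  (→) Let `f`, `n`, `c` witness `PCt α β`.  Choose `a` with `c a = 0`, `b = f a`.  The part from `a` on gives `Qt α β n a b`
and `f` maps `Iio a` (contained in piece `0`) onto an upper set of `Iio b`.  (←) glue the embedding of `Iio a` onto an upper set
of `Iio b` with `f`, `c` from `Qt α β n a b` (`c a = 0` by monotonicity and since the value `0` is taken), `c = 0` on `Iio a`. -/
def S_PQ : Prop := ∀ (α β : Type) [LinearOrder α] [LinearOrder β] [Nonempty α],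
  PCt α β ↔ ∃ (a : α) (b : β) (n : ℕ), FLt (Iio a) (Iio b) ∧ Qt α β n a b

/-- TASK TR.  Proof.  Let `f : α ↪o β`, `c : α → Fin (n+1)` and `g : β ↪o γ`, `d : β → Fin (m+1)` be witnesses.  Consider the monotone map
`e : α → ℕ`, `e u = c u + d (f u)`.  If `e u = e v` then `c u = c v` and `d (f u) = d (f v)` (both are monotone).  So the fibres of
`e` are the sets `{c = k} ∩ {d ∘ f = l}`; the image of such a set under `f` is `f {c = k} ∩ {d = l}`, a convex subset of `β` inside
the piece `{d = l}`, and `g` maps convex subsets of this piece onto convex sets (as the image of the piece is convex).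
Let the finite nonempty set of the values of `e` have `r + 1` elements and compose `e` with the order isomorphism to
`Fin (r + 1)` (`Finset.orderIsoOfFin`). -/
def S_TR : Prop := ∀ (α β γ : Type) [LinearOrder α] [LinearOrder β] [LinearOrder γ] [Nonempty α],
  PCt α β → PCt β γ → PCt α γ

/-! ### Measurability -/

/-- TASK ISO.  The isomorphism class of a countable order is Borel.
Proof.  `Pool.Graph.R_pool_sql_team_941085ca.H23.Scott` (library module) has the abstract Scott analysis: put `Q k = Fin k × Fin k × Bool`,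
`Sys.valid = dom`, `T k u = {(i, j, true) | le (u i) (u j)} ∪ {(i, j, false) | u i = u j}`.  For orders `N` on a subset of `E`, `M` on a subset of
`E'` there is a back and forth system (`∃ G, BF N M G`) iff `N.T ≃o M.T`: from an isomorphism take `G k u v` := all `u i` are in
the domain and `v i` is the image of `u i`; from a system use `exists_enum` if both domains are nonempty (enumerate them with
`exists_surjective_nat`, they are countable) and define the isomorphism by `U i ↦ V i` (well defined and injective by the facts of equality,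
monotone by the facts of order); one of the domains is empty iff the other one is, by `forth` and `back` for `k = 0`.  Then use
`meas_exists_BF`. -/
def S_ISO : Prop := ∀ (E E' X : Type) [Countable E] [Countable E'] [MeasurableSpace X] (N : PO E)
  (M : X → PO E'), Fam M → MeasurableSet {x | Iso N (M x)}

/-- TASK CODE.  A measurable family of infinite orders can be coded by elements of `LO`.
Proof.  Take an injection of `E` into `ℕ`, so let the domain be (a copy of) an infinite subset `D x` of `ℕ`, and let `e x n` be its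
`n`-th element (`Nat.nth`, with classical decidability).  `{x | e x n = k}` is measurable (it says that `k ∈ D x` and that exactly `n` of the
elements of `{0, …, k-1}` are in `D x`).  Put `g x (m, n) = decide (le (e x m) (e x n))`.  The σ-algebra of `LO` is the Borel
σ-algebra of the subspace topology of `ℕ × ℕ → Bool`; see `borel_LO`, `measurable_red` in `Pool.Agent.HLead.CB.Meas` (on main) for
how to prove that a map into `LO` is measurable: it suffices that every coordinate is measurable. -/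
def S_CODE : Prop := ∀ (E X : Type) [Countable E] [MeasurableSpace X] (M : X → PO E), Fam M →
  (∀ x, Infinite (M x).T) → ∃ g : X → LO, Measurable g ∧ ∀ x, Iso (M x) (PO.ofLO (g x))

/-- The conclusion of the lead's theorem (the classes of convex bi-embeddability are Borel); hypothesis for `CLA`. -/
def S_BE : Prop := ∀ y : LO, MeasurableSet {x : LO | BiEmb x y}

/-- TASK CLA (from `S_BE`, `S_CODE`, `S_WIN1`, `S_WIN2`).  Proof.  If `M.T` is empty: `IL (N x) M` iff `(N x).T` is empty, a countable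
intersection.  Otherwise let `W = ℕᵒᵈ ×ₗ (Unit ⊕ₗ (M.T ×ₗ ℤ))` and apply `S_CODE` to the family
`x ↦ (PO.of W).add ((PO.of Unit).add (N x).zb)` and to the constant family `PO.of W`: `g`, `c`.  `(M.add N).T ≃o M.T ⊕ₗ N.T`,
`(M.zb).T ≃o M.T ×ₗ ℤ`, `(PO.of α).T ≃o α`.  `BiEmb (g x) c` iff the two orders are convexly embeddable into each other (`ConvEmb` is
`CVt` of the coded orders; `CVt` is invariant under isomorphism).  By `WIN1`, `WIN2` this holds iff `ILt (N x).T M.T`.  So the set is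
the preimage under `g` of the Borel set `{y | BiEmb y c}`. -/
def S_CLA : Prop := ∀ (E E' X : Type) [Countable E] [Countable E'] [MeasurableSpace X] (M : PO E)
  (N : X → PO E'), Fam N → MeasurableSet {x | IL (N x) M}

/-- TASK CLB (from `S_ISO` and `S_B1`).  Proof.  By `B1` for `α = N.T` and `β = (M x).T`: `IL N (M x)` iff `N.T ≃o U x` or there are `b` in the
domain of `M x` and `a` in the domain of `N` with `N.lei a ≃ (M x).lei b` and `IL N (N.lei a)` (this does not depend on `x`), where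
`U x = {b | ∃ a, Iso (N.lei a) ((M x).lei b)}`.  `{x | Iso (N.lei a) ((M x).lei b)}` is measurable by `S_ISO` (`Fam.lei`), so
`x ↦ (M x).restr (U x)` is a measurable family (`Fam.restr`), and `S_ISO` again.  (`restrIso`; for `a : M.T`,
`(M.lei a.1).T ≃o Iic a`.) -/
def S_CLB : Prop := ∀ (E E' X : Type) [Countable E] [Countable E'] [MeasurableSpace X] (N : PO E)
  (M : X → PO E'), Fam M → MeasurableSet {x | IL N (M x)}

/-- TASK DECA (from `S_ISO`, `S_CLA`, `S_A1`).  Proof.  Use `A1` for `α = (N x).T`.  The sets `A x`, `B x` of `A1` are (as subsets of `E`)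
`{a | ∃ b, M₁.dom b ∧ Iso (M₁.lei b) ((N x).lei a)}` and `{a | ∃ b, M₂.dom b ∧ Iso (M₂.gei b) ((N x).gei a)}`, measurable in `x` by `S_ISO`;
`ILt (A x) M₁.T` is `S_CLA` for the family `(N x).restr (A x)`; `FLt` is `S_CLA` for the reversed orders (`FLt` of `α`, `β` is `ILt` of the
dual orders; `(M.rev).T ≃o (M.T)ᵒᵈ`). -/
def S_DECA : Prop := ∀ (E E₁ E₂ X : Type) [Countable E] [Countable E₁] [Countable E₂] [MeasurableSpace X]
  (N : X → PO E) (M₁ : PO E₁) (M₂ : PO E₂), Fam N → MeasurableSet {x | Dect (N x).T M₁.T M₂.T}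

/-- TASK DECB (from `S_ISO`, `S_CLA`, `S_B2`).  Proof.  Use `B2` for `α = N.T`, `β = (M₁ x).T`, `γ = (M₂ x).T`.  As subsets of `E`, `E₁`, `E₂`:
`A x = {a | ∃ b, (M₁ x).dom b ∧ Iso (N.lei a) ((M₁ x).lei b)}`, `B x = {a | ∃ b, (M₂ x).dom b ∧ Iso (N.gei a) ((M₂ x).gei b)}`,
`U x = {b | ∃ a, N.dom a ∧ Iso (N.lei a) ((M₁ x).lei b)}`, `V x = {b | ∃ a, N.dom a ∧ Iso (N.gei a) ((M₂ x).gei b)}`: measurable in `x`
by `S_ISO`.  `ILt (A x) (Iic a)` is `S_CLA` for the fixed order `N.lei a` and the family `N.restr (A x)`; `FLt` by reversing; the three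
isomorphisms are `S_ISO` for `N` and the families `(N.restr (A x)).add ((M₂ x).restr (V x))` and so on
(`(M.add N).T ≃o M.T ⊕ₗ N.T`). -/
def S_DECB : Prop := ∀ (E E₁ E₂ X : Type) [Countable E] [Countable E₁] [Countable E₂] [MeasurableSpace X]
  (N : PO E) (M₁ : X → PO E₁) (M₂ : X → PO E₂), Fam M₁ → Fam M₂ →
  MeasurableSet {x | Dect N.T (M₁ x).T (M₂ x).T}

/-- TASK MEA1 (from `S_ISO`, `S_CLA`, `S_DECA`).  Fixed second order.  Proof.  `PCt` is `∃ a b n, FLt (Iio a) (Iio b) ∧ GGt n a b` (hypothesis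
`hPG`).  For `a b : ℕ` and `n`: `{y | GGt n a b}` is measurable by induction on `n`: for `n = 0` it is `S_CLA` for the family
`y ↦ (PO.ofLO y).restr {z | a < z}` (with `a < z` meaning `¬ y (z, a) = true`) and the fixed order `(PO.ofLO x).restr {z | b < z}`; the step is a
countable union over `a'`, `b'` of sets given by `S_ISO` and (for each `r` between `b` and `b'`) `S_DECA`.  `FLt` is `S_CLA` for the reversed orders. -/
def S_MEA1 : Prop := ∀ x : LO, MeasurableSet {y : LO | PCt (PO.ofLO y).T (PO.ofLO x).T}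

/-- TASK MEA2 (from `S_ISO`, `S_CLB`, `S_DECB`).  Fixed first order; the same with `S_CLB` and `S_DECB`. -/
def S_MEA2 : Prop := ∀ x : LO, MeasurableSet {y : LO | PCt (PO.ofLO x).T (PO.ofLO y).T}

/-- hypothesis for `MEA1` and `MEA2` (follows from `PQ`, `Q0`, `QS1`, `QS2`) -/
def S_PG : Prop := ∀ (α β : Type) [LinearOrder α] [LinearOrder β] [Nonempty α],
  PCt α β ↔ ∃ (a : α) (b : β) (n : ℕ), FLt (Iio a) (Iio b) ∧ GGt α β n a b

end Pool.Agent.H742.PW
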